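import Pool.Agent.TQG.Aba
import Pool.Agent.TQG.Abb

/-!
Project TQH, module ABS: the abstract form of part I in general. Model: TQG/Abc.lean.

`abs2`: as `TQG.abc` without the hypothesis `hfree`. `c, tp, tm, c * tp * tm` invert all `s S`,
`tp * tm` centralises them; `aba`: `F t = 2 ^ k * n t`, `n t` = number of `t`-stable orbits.
On the set of orbits: `abb` for `tp, tm`: `4 ∣ |OQ| + n tp + n tm + n (tp * tm)`; `abb` for
`tp * tm, c`: `4 ∣ |OQ| + n (tp * tm) + n c + n (c * tp * tm)` (`n (tp * tm)` = orbits fixed by the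
descended permutation). Subtract: `4 ∣ n tp + n tm - n c - n (c * tp * tm)`.
`abs1`: `c, t` commuting involutions which invert all `s S`, `c` has no stable orbit (`hfree` and `aba`
for `c`); so the descended `c` has no fixed point and `n t` is even (`abb_even`).
-/

namespace Pool.Agent.TQH

open Pool.Agent.TQG

private theorem abs_fix {X : Type} (P : Finset ℕ) (s : Finset ℕ → Equiv.Perm X)
    (t : Equiv.Perm X) (f : Equiv.Perm (OQ P s)) (hf : ∀ x : X, f (omk P s x) = omk P s (t x)) :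
    Nat.card {o : OQ P s // ∃ x : X, omk P s x = o ∧ omk P s (t x) = o} =
      Nat.card {o : OQ P s // f o = o} := by
  refine Nat.card_congr (Equiv.subtypeEquivRight fun o => ⟨?_, ?_⟩)
  · rintro ⟨x, hx, htx⟩
    rw [← hf, hx] at htx
    exact htx
  · intro ho
    obtain ⟨x, hx⟩ := Quotient.exists_rep o
    refine ⟨x, hx, ?_⟩
    rw [← hf]
    have hx' : omk P s x = o := hx
    rw [hx', ho]

private theorem abs_inv {X : Type} {s t : Equiv.Perm X} (h : t * s * t⁻¹ = s⁻¹) :
    t * s⁻¹ * t⁻¹ = s := by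
  have h2 := congrArg (fun e => e⁻¹) h
  simp only [mul_inv_rev, inv_inv] at h2
  rw [← mul_assoc] at h2
  exact h2

private theorem abs_ext {X : Type} (P : Finset ℕ) (s : Finset ℕ → Equiv.Perm X)
    (f g : Equiv.Perm (OQ P s)) (h : ∀ x, f (omk P s x) = g (omk P s x)) : f = g := by
  ext o
  obtain ⟨x, hx⟩ := Quotient.exists_rep o
  have hx' : omk P s x = o := hx
  rw [← hx']
  exact h x

theorem abs2 {X : Type} [Finite X] (P : Finset ℕ) (s : Finset ℕ → Equiv.Perm X) (h0 : s ∅ = 1)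
    (hs : ∀ S T, S ⊆ P → T ⊆ P → Disjoint S T → s (S ∪ T) = s S * s T)
    (c tp tm : Equiv.Perm X) (hc : c * c = 1) (hp : tp * tp = 1) (hm : tm * tm = 1)
    (hcp : c * tp = tp * c) (hcm : c * tm = tm * c) (hpm : tp * tm = tm * tp)
    (ic : ∀ S, S ⊆ P → c * s S * c⁻¹ = (s S)⁻¹) (ip : ∀ S, S ⊆ P → tp * s S * tp⁻¹ = (s S)⁻¹)
    (im : ∀ S, S ⊆ P → tm * s S * tm⁻¹ = (s S)⁻¹) :
    ((2 ^ (P.card + 2) : ℕ) : ℤ) ∣
      ∑ S ∈ P.powerset, ((Nat.card {x : X // tp (s S x) = x} : ℤ) +
        (Nat.card {x : X // tm (s S x) = x} : ℤ) -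
        (Nat.card {x : X // (c * tp * tm) (s S x) = x} : ℤ) -
        (Nat.card {x : X // c (s S x) = x} : ℤ)) := by
  classical
  haveI : Finite (OQ P s) := Quotient.finite _
  have icpm : ∀ S, S ⊆ P → (c * tp * tm) * s S * (c * tp * tm)⁻¹ = (s S)⁻¹ := by
    intro S hS
    have e1 : (c * tp * tm) * s S * (c * tp * tm)⁻¹ =
        c * (tp * (tm * s S * tm⁻¹) * tp⁻¹) * c⁻¹ := by group
    rw [e1, im S hS, abs_inv (ip S hS), ic S hS]
  obtain ⟨fc, hfc⟩ := aba_desc P s c (Or.inl ic)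
  obtain ⟨fp, hfp⟩ := aba_desc P s tp (Or.inl ip)
  obtain ⟨fm, hfm⟩ := aba_desc P s tm (Or.inl im)
  have hcc : ∀ x, c (c x) = x := fun x => by
    have := congrArg (fun e : Equiv.Perm X => e x) hc
    simpa [Equiv.Perm.mul_apply] using this
  have hpp : ∀ x, tp (tp x) = x := fun x => by
    have := congrArg (fun e : Equiv.Perm X => e x) hp
    simpa [Equiv.Perm.mul_apply] using this
  have hmm : ∀ x, tm (tm x) = x := fun x => by
    have := congrArg (fun e : Equiv.Perm X => e x) hm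
    simpa [Equiv.Perm.mul_apply] using this
  have hcp' : ∀ x, c (tp x) = tp (c x) := fun x => by
    have := congrArg (fun e : Equiv.Perm X => e x) hcp
    simpa [Equiv.Perm.mul_apply] using this
  have hcm' : ∀ x, c (tm x) = tm (c x) := fun x => by
    have := congrArg (fun e : Equiv.Perm X => e x) hcm
    simpa [Equiv.Perm.mul_apply] using this
  have hpm' : ∀ x, tp (tm x) = tm (tp x) := fun x => by
    have := congrArg (fun e : Equiv.Perm X => e x) hpm
    simpa [Equiv.Perm.mul_apply] using this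
  have dcc : fc * fc = 1 := abs_ext P s _ _ fun x => by
    simp only [Equiv.Perm.mul_apply, Equiv.Perm.one_apply, hfc, hcc]
  have dpp : fp * fp = 1 := abs_ext P s _ _ fun x => by
    simp only [Equiv.Perm.mul_apply, Equiv.Perm.one_apply, hfp, hpp]
  have dmm : fm * fm = 1 := abs_ext P s _ _ fun x => by
    simp only [Equiv.Perm.mul_apply, Equiv.Perm.one_apply, hfm, hmm]
  have dcp : fc * fp = fp * fc := abs_ext P s _ _ fun x => by
    simp only [Equiv.Perm.mul_apply, hfc, hfp, hcp']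
  have dcm : fc * fm = fm * fc := abs_ext P s _ _ fun x => by
    simp only [Equiv.Perm.mul_apply, hfc, hfm, hcm']
  have dpm : fp * fm = fm * fp := abs_ext P s _ _ fun x => by
    simp only [Equiv.Perm.mul_apply, hfp, hfm, hpm']
  have hfcpm : ∀ x : X, (fc * fp * fm) (omk P s x) = omk P s ((c * tp * tm) x) := fun x => by
    simp only [Equiv.Perm.mul_apply, hfc, hfp, hfm]
  have Fc := aba P s h0 hs c ic
  have Fp := aba P s h0 hs tp ip
  have Fm := aba P s h0 hs tm im
  have Fx := aba P s h0 hs (c * tp * tm) icpm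
  rw [abs_fix P s c fc hfc] at Fc
  rw [abs_fix P s tp fp hfp] at Fp
  rw [abs_fix P s tm fm hfm] at Fm
  rw [abs_fix P s (c * tp * tm) (fc * fp * fm) hfcpm] at Fx
  have k1 := abb fp fm dpp dmm dpm
  have dpmpm : (fp * fm) * (fp * fm) = 1 := by
    have : (fp * fm) * (fp * fm) = (fp * fp) * (fm * fm) := by
      rw [mul_assoc, ← mul_assoc fm fp fm, ← dpm]
      group
    rw [this, dpp, dmm, one_mul]
  have dpmc : (fp * fm) * fc = fc * (fp * fm) := by
    rw [mul_assoc, ← dcm, ← mul_assoc, ← dcp, mul_assoc]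
  have k2 := abb (fp * fm) fc dpmpm dcc dpmc
  have hx1 : Nat.card {o : OQ P s // (fp * fm) (fc o) = o} =
      Nat.card {o : OQ P s // (fc * fp * fm) o = o} := by
    refine Nat.card_congr (Equiv.subtypeEquivRight fun o => ?_)
    have h1 : (fp * fm) (fc o) = ((fp * fm) * fc) o := rfl
    rw [h1, dpmc, ← mul_assoc]
  have hx2 : Nat.card {o : OQ P s // (fp * fm) o = o} =
      Nat.card {o : OQ P s // fp (fm o) = o} := rfl
  rw [hx1, hx2] at k2
  have hsum : ∑ S ∈ P.powerset, ((Nat.card {x : X // tp (s S x) = x} : ℤ) +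
      (Nat.card {x : X // tm (s S x) = x} : ℤ) -
      (Nat.card {x : X // (c * tp * tm) (s S x) = x} : ℤ) -
      (Nat.card {x : X // c (s S x) = x} : ℤ)) =
      2 ^ P.card * ((Nat.card {o : OQ P s // fp o = o} : ℤ) +
        (Nat.card {o : OQ P s // fm o = o} : ℤ) -
        (Nat.card {o : OQ P s // (fc * fp * fm) o = o} : ℤ) -
        (Nat.card {o : OQ P s // fc o = o} : ℤ)) := by
    rw [Finset.sum_sub_distrib, Finset.sum_sub_distrib, Finset.sum_add_distrib, ← Nat.cast_sum,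
      ← Nat.cast_sum, ← Nat.cast_sum, ← Nat.cast_sum, Fp, Fm, Fx, Fc]
    push_cast
    ring
  rw [hsum]
  have h4 : (4 : ℤ) ∣ (Nat.card {o : OQ P s // fp o = o} : ℤ) +
        (Nat.card {o : OQ P s // fm o = o} : ℤ) -
        (Nat.card {o : OQ P s // (fc * fp * fm) o = o} : ℤ) -
        (Nat.card {o : OQ P s // fc o = o} : ℤ) := by
    omega
  obtain ⟨w, hw⟩ := h4
  rw [hw]
  refine ⟨w, ?_⟩
  push_cast
  ring

theorem abs1 {X : Type} [Finite X] (P : Finset ℕ) (s : Finset ℕ → Equiv.Perm X) (h0 : s ∅ = 1)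
    (hs : ∀ S T, S ⊆ P → T ⊆ P → Disjoint S T → s (S ∪ T) = s S * s T)
    (c t : Equiv.Perm X) (hc : c * c = 1) (ht : t * t = 1) (hct : c * t = t * c)
    (ic : ∀ S, S ⊆ P → c * s S * c⁻¹ = (s S)⁻¹) (it : ∀ S, S ⊆ P → t * s S * t⁻¹ = (s S)⁻¹)
    (hfree : ∀ S, S ⊆ P → ∀ x, c (s S x) ≠ x) :
    2 ^ (P.card + 1) ∣ ∑ S ∈ P.powerset, Nat.card {x : X // t (s S x) = x} := by
  classical
  haveI : Finite (OQ P s) := Quotient.finite _
  obtain ⟨fc, hfc⟩ := aba_desc P s c (Or.inl ic)
  obtain ⟨ft, hft⟩ := aba_desc P s t (Or.inl it)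
  have hcc : ∀ x, c (c x) = x := fun x => by
    have := congrArg (fun e : Equiv.Perm X => e x) hc
    simpa [Equiv.Perm.mul_apply] using this
  have hct' : ∀ x, c (t x) = t (c x) := fun x => by
    have := congrArg (fun e : Equiv.Perm X => e x) hct
    simpa [Equiv.Perm.mul_apply] using this
  have dcc : fc * fc = 1 := abs_ext P s _ _ fun x => by
    simp only [Equiv.Perm.mul_apply, Equiv.Perm.one_apply, hfc, hcc]
  have dtc : ft * fc = fc * ft := abs_ext P s _ _ fun x => by
    simp only [Equiv.Perm.mul_apply, hfc, hft, hct']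
  have Fc := aba P s h0 hs c ic
  have Ft := aba P s h0 hs t it
  rw [abs_fix P s c fc hfc] at Fc
  rw [abs_fix P s t ft hft] at Ft
  have hFc0 : ∑ S ∈ P.powerset, Nat.card {x : X // c (s S x) = x} = 0 := by
    refine Finset.sum_eq_zero fun S hS => ?_
    haveI : IsEmpty {x : X // c (s S x) = x} :=
      ⟨fun x => hfree S (Finset.mem_powerset.mp hS) x.1 x.2⟩
    exact Nat.card_of_isEmpty
  have hnc : Nat.card {o : OQ P s // fc o = o} = 0 := by
    rw [hFc0] at Fc
    have h2 : (2 : ℕ) ^ P.card ≠ 0 := pow_ne_zero _ (by norm_num)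
    rcases mul_eq_zero.mp Fc.symm with h | h
    · exact absurd h h2
    · exact h
  have hfreeO : ∀ o, fc o ≠ o := by
    intro o ho
    haveI : Finite {o : OQ P s // fc o = o} := Subtype.finite
    rcases Nat.card_eq_zero.mp hnc with h | h
    · exact h.false ⟨o, ho⟩
    · exact (not_infinite_iff_finite.mpr this) h
  have k3 := abb_even ft fc dcc dtc hfreeO
  rw [Ft]
  obtain ⟨w, hw⟩ := k3
  rw [hw]
  refine ⟨w, ?_⟩
  ring

end Pool.Agent.TQH
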