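import Pool.Agent.TQH.Num

/-!
Project TQH, module BAS: types of elements of `QQ m`.

Model: TQG/Bas.lean (`type_QQ`, `unit_right`, `NN_eq`). Let `a ∈ QQ m`: either `re` odd and the other
coordinates even, `m = 1 mod 4`, or `re` even and the others odd, `m = 3 mod 4`. In the first case
with `imI = 2 x` etc. `m = re^2 + 4 (x^2 + y^2 + z^2)`, so `x + y + z` is even iff `m = 1 mod 8`; in the
second `m = 3 + re^2 mod 8`. `QQ_unit`: a quaternion `u` of norm 1 has one coordinate `± 1`, the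
others `0`; `star b * a = n u`, `n = normSq b` odd, has the parities of `1` or `i + j + k`, so `u = ± 1`.
`QQ_eq`: norms give `normSq u = 1`; multiply by `a`: `m * b = m * (a * u)`.
-/

namespace Pool.Agent.TQH

open Pool.Agent.TQS Pool.Agent.TQG Quaternion

private theorem bas_cases {m : ℕ} {a : H} (ha : a ∈ QQ m) :
    (∃ w x y z : ℤ, a.re = 2 * w + 1 ∧ a.imI = 2 * x ∧ a.imJ = 2 * y ∧ a.imK = 2 * z) ∨
    (∃ w x y z : ℤ, a.re = 2 * w ∧ a.imI = 2 * x + 1 ∧ a.imJ = 2 * y + 1 ∧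
      a.imK = 2 * z + 1) := by
  obtain ⟨h1, h2, h3, -⟩ := ha
  rcases Int.emod_two_eq_zero_or_one a.imI with h | h
  · left
    exact ⟨a.re / 2, a.imI / 2, a.imJ / 2, a.imK / 2, by omega, by omega, by omega, by omega⟩
  · right
    exact ⟨a.re / 2, a.imI / 2, a.imJ / 2, a.imK / 2, by omega, by omega, by omega, by omega⟩

private theorem bas_oct (w : ℤ) : ∃ v : ℤ, w ^ 2 + w = 2 * v := by
  rcases Int.even_or_odd' w with ⟨c, rfl | rfl⟩
  · exact ⟨2 * c ^ 2 + c, by ring⟩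
  · exact ⟨2 * c ^ 2 + 3 * c + 1, by ring⟩

private theorem bas_unit {u : H} (h1 : (u.re + u.imI) % 2 = 1) (h2 : (u.imI + u.imJ) % 2 = 0)
    (h3 : (u.imI + u.imK) % 2 = 0) (h4 : normSq u = 1) : u = 1 ∨ u = -1 := by
  rw [normSq_eq] at h4
  have b0 : -1 ≤ u.re ∧ u.re ≤ 1 := by
    constructor <;> nlinarith [sq_nonneg u.re, sq_nonneg u.imI, sq_nonneg u.imJ, sq_nonneg u.imK]
  have b1 : -1 ≤ u.imI ∧ u.imI ≤ 1 := by
    constructor <;> nlinarith [sq_nonneg u.re, sq_nonneg u.imI, sq_nonneg u.imJ, sq_nonneg u.imK]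
  have b2 : -1 ≤ u.imJ ∧ u.imJ ≤ 1 := by
    constructor <;> nlinarith [sq_nonneg u.re, sq_nonneg u.imI, sq_nonneg u.imJ, sq_nonneg u.imK]
  have b3 : -1 ≤ u.imK ∧ u.imK ≤ 1 := by
    constructor <;> nlinarith [sq_nonneg u.re, sq_nonneg u.imI, sq_nonneg u.imJ, sq_nonneg u.imK]
  have c1 : u.imI = 0 := by
    by_contra hI
    have q1 : u.imI ^ 2 ≥ 1 := by nlinarith [Int.one_le_abs hI, sq_abs u.imI, abs_nonneg u.imI]
    have hJ : u.imJ ≠ 0 := by omega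
    have q2 : u.imJ ^ 2 ≥ 1 := by nlinarith [Int.one_le_abs hJ, sq_abs u.imJ, abs_nonneg u.imJ]
    nlinarith [sq_nonneg u.re, sq_nonneg u.imK]
  have c2 : u.imJ = 0 := by omega
  have c3 : u.imK = 0 := by omega
  have c0 : u.re = 1 ∨ u.re = -1 := by omega
  rcases c0 with c0 | c0
  · left
    ext <;> simp [c0, c1, c2, c3]
  · right
    ext <;> simp [c0, c1, c2, c3]

private theorem bas_cofpar {m n : ℕ} {a b c : H} (ha : a ∈ QQ n) (hb : b ∈ QQ m)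
    (h : a = b * c) (hm : m % 2 = 1) :
    (c.re + c.imI) % 2 = 1 ∧ (c.imI + c.imJ) % 2 = 0 ∧ (c.imI + c.imK) % 2 = 0 := by
  have e : star b * a ∈ QQ (m * n) := mul_QQ (star_QQ hb) ha
  have e2 : star b * a = (m : H) * c := by
    rw [h, ← mul_assoc, star_mul_QQ hb]
  rw [e2] at e
  obtain ⟨k1, k2, k3, -⟩ := e
  have r0 : ((m : H) * c).re = (m : ℤ) * c.re := by simp
  have r1 : ((m : H) * c).imI = (m : ℤ) * c.imI := by simp
  have r2 : ((m : H) * c).imJ = (m : ℤ) * c.imJ := by simp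
  have r3 : ((m : H) * c).imK = (m : ℤ) * c.imK := by simp
  rw [r0, r1, ← mul_add, Int.mul_emod] at k1
  rw [r1, r2, ← mul_add, Int.mul_emod] at k2
  rw [r1, r3, ← mul_add, Int.mul_emod] at k3
  have hm' : (m : ℤ) % 2 = 1 := by omega
  rw [hm'] at k1 k2 k3
  refine ⟨by omega, by omega, by omega⟩

private theorem bas_odd {m : ℕ} {a : H} (ha : a ∈ QQ m) : m % 2 = 1 := by
  have h4 := ha.2.2.2
  rw [normSq_eq] at h4
  have key : (m : ℤ) % 2 = 1 := by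
    rcases bas_cases ha with ⟨w, x, y, z, h1, h2, h3, h5⟩ | ⟨w, x, y, z, h1, h2, h3, h5⟩
    · rw [h1, h2, h3, h5] at h4
      have : (m : ℤ) = 2 * (2 * w ^ 2 + 2 * w + 2 * x ^ 2 + 2 * y ^ 2 + 2 * z ^ 2) + 1 := by
        rw [← h4]; ring
      omega
    · rw [h1, h2, h3, h5] at h4
      have : (m : ℤ) = 2 * (2 * w ^ 2 + 2 * x ^ 2 + 2 * x + 2 * y ^ 2 + 2 * y + 2 * z ^ 2 +
          2 * z + 1) + 1 := by
        rw [← h4]; ring
      omega
  omega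

private theorem bash_data {m : ℕ} {a : H} (ha : a ∈ QQ m) :
    (∃ v x y z a1 a2 a3 : ℤ, (m : ℤ) = 8 * v + 1 + 4 * (x ^ 2 + y ^ 2 + z ^ 2) ∧
      x ^ 2 + x = 2 * a1 ∧ y ^ 2 + y = 2 * a2 ∧ z ^ 2 + z = 2 * a3 ∧
      a.re % 2 = 1 ∧ a.imI = 2 * x ∧ a.imJ = 2 * y ∧ a.imK = 2 * z) ∨
    (∃ w a0 b : ℤ, (m : ℤ) = 4 * (2 * a0 - w) + 3 + 8 * b ∧ a.re = 2 * w ∧ a.imI % 2 = 1 ∧
      a.imJ % 2 = 1 ∧ a.imK % 2 = 1) := by
  have h4 := ha.2.2.2
  rw [normSq_eq] at h4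
  rcases bas_cases ha with ⟨w, x, y, z, h1, h2, h3, h5⟩ | ⟨w, x, y, z, h1, h2, h3, h5⟩
  · left
    obtain ⟨v, hv⟩ := bas_oct w
    obtain ⟨a1, ha1⟩ := bas_oct x
    obtain ⟨a2, ha2⟩ := bas_oct y
    obtain ⟨a3, ha3⟩ := bas_oct z
    rw [h1, h2, h3, h5] at h4
    refine ⟨v, x, y, z, a1, a2, a3, ?_, ha1, ha2, ha3, by omega, h2, h3, h5⟩
    have : (2 * w + 1) ^ 2 = 4 * (w ^ 2 + w) + 1 := by ring
    rw [← h4, this, hv]; ring
  · right
    obtain ⟨a1, ha1⟩ := bas_oct x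
    obtain ⟨a2, ha2⟩ := bas_oct y
    obtain ⟨a3, ha3⟩ := bas_oct z
    obtain ⟨a0, ha0⟩ := bas_oct w
    rw [h1, h2, h3, h5] at h4
    refine ⟨w, a0, a1 + a2 + a3, ?_, h1, by omega, by omega, by omega⟩
    have k1 : (2 * x + 1) ^ 2 = 4 * (x ^ 2 + x) + 1 := by ring
    have k2 : (2 * y + 1) ^ 2 = 4 * (y ^ 2 + y) + 1 := by ring
    have k3 : (2 * z + 1) ^ 2 = 4 * (z ^ 2 + z) + 1 := by ring
    rw [← h4, k1, k2, k3, ha1, ha2, ha3, ← ha0]; ring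

theorem typeV {m : ℕ} {a : H} (ha : a ∈ QQ m) (h : m % 4 = 1) :
    a.re % 2 = 1 ∧ a.imI % 2 = 0 ∧ a.imJ % 2 = 0 ∧ a.imK % 2 = 0 := by
  rcases bash_data ha with ⟨v, x, y, z, a1, a2, a3, h1, h2, h3, h4, h5, h6, h7, h8⟩ |
    ⟨w, a0, b, h1, h2, h3, h4, h5⟩
  · exact ⟨h5, by omega, by omega, by omega⟩
  · omega

theorem typeV1 {m : ℕ} {a : H} (ha : a ∈ QQ m) (h : m % 8 = 1) :
    (a.imI + a.imJ + a.imK) % 4 = 0 := by
  rcases bash_data ha with ⟨v, x, y, z, a1, a2, a3, h1, h2, h3, h4, h5, h6, h7, h8⟩ |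
    ⟨w, a0, b, h1, h2, h3, h4, h5⟩
  · have e : (m : ℤ) = 8 * v + 1 + 4 * (2 * a1 - x + (2 * a2 - y) + (2 * a3 - z)) := by
      rw [h1, ← h2, ← h3, ← h4]; ring
    omega
  · omega

theorem typeV5 {m : ℕ} {a : H} (ha : a ∈ QQ m) (h : m % 8 = 5) :
    (a.imI + a.imJ + a.imK) % 4 = 2 := by
  rcases bash_data ha with ⟨v, x, y, z, a1, a2, a3, h1, h2, h3, h4, h5, h6, h7, h8⟩ |
    ⟨w, a0, b, h1, h2, h3, h4, h5⟩
  · have e : (m : ℤ) = 8 * v + 1 + 4 * (2 * a1 - x + (2 * a2 - y) + (2 * a3 - z)) := by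
      rw [h1, ← h2, ← h3, ← h4]; ring
    omega
  · omega

theorem typeA {m : ℕ} {a : H} (ha : a ∈ QQ m) (h : m % 4 = 3) :
    a.re % 2 = 0 ∧ a.imI % 2 = 1 ∧ a.imJ % 2 = 1 ∧ a.imK % 2 = 1 := by
  rcases bash_data ha with ⟨v, x, y, z, a1, a2, a3, h1, h2, h3, h4, h5, h6, h7, h8⟩ |
    ⟨w, a0, b, h1, h2, h3, h4, h5⟩
  · omega
  · exact ⟨by omega, h3, h4, h5⟩

theorem typeA3 {m : ℕ} {a : H} (ha : a ∈ QQ m) (h : m % 8 = 3) : a.re % 4 = 0 := by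
  rcases bash_data ha with ⟨v, x, y, z, a1, a2, a3, h1, h2, h3, h4, h5, h6, h7, h8⟩ |
    ⟨w, a0, b, h1, h2, h3, h4, h5⟩
  · omega
  · omega

theorem typeA7 {m : ℕ} {a : H} (ha : a ∈ QQ m) (h : m % 8 = 7) : a.re % 4 = 2 := by
  rcases bash_data ha with ⟨v, x, y, z, a1, a2, a3, h1, h2, h3, h4, h5, h6, h7, h8⟩ |
    ⟨w, a0, b, h1, h2, h3, h4, h5⟩
  · omega
  · omega

theorem re_ne4 {m : ℕ} (h : m % 4 = 1) {a : H} (ha : a ∈ QQ m) : a.re ≠ 0 := by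
  have := (typeV ha h).1
  omega

theorem QQ_unit {m n : ℕ} {a b u : H} (ha : a ∈ QQ m) (hb : b ∈ QQ n) (hu : normSq u = 1)
    (h : a = b * u) : a = b ∨ a = -b := by
  obtain ⟨h1, h2, h3⟩ := bas_cofpar ha hb h (bas_odd hb)
  rcases bas_unit h1 h2 h3 hu with rfl | rfl
  · left
    rw [h, mul_one]
  · right
    rw [h, mul_neg, mul_one]

theorem QQ_eq {m : ℕ} (hm : 0 < m) {a b : H} (ha : a ∈ QQ m) (hb : b ∈ QQ m)
    (h : ∃ u : H, star a * b = (m : H) * u) : a = b ∨ a = -b := by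
  obtain ⟨u, hu⟩ := h
  have hm' : (m : ℤ) ≠ 0 := by exact_mod_cast hm.ne'
  have hn : normSq u = 1 := by
    have e := congrArg normSq hu
    rw [map_mul, map_mul, Quaternion.normSq_star, ha.2.2.2, hb.2.2.2,
      Quaternion.normSq_natCast] at e
    have : (m : ℤ) ^ 2 * normSq u = (m : ℤ) ^ 2 * 1 := by rw [← e]; ring
    exact mul_left_cancel₀ (pow_ne_zero 2 hm') this
  have e2 : (m : H) * b = (m : H) * (a * u) := by
    calc (m : H) * b = a * (star a * b) := by rw [← mul_assoc, mul_star_QQ ha]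
      _ = a * ((m : H) * u) := by rw [hu]
      _ = (a * (m : H)) * u := by rw [mul_assoc]
      _ = ((m : H) * a) * u := by rw [(Nat.cast_commute m a).eq]
      _ = (m : H) * (a * u) := by rw [mul_assoc]
  have e3 : b = a * u := by
    have hmH : (m : H) ≠ 0 := by
      intro h0
      have h00 : (m : H).re = (0 : H).re := by rw [h0]
      simp at h00
      omega
    exact mul_left_cancel₀ hmH e2
  rcases QQ_unit hb ha hn e3 with h | h
  · exact Or.inl h.symm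
  · right
    rw [h, neg_neg]

end Pool.Agent.TQH
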