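import Pool.Agent.TQH.Bas
import Pool.Agent.TQS.Card

/-!
Project TQH, module CRD: the size of `QQ m` for odd `m` (Jacobi).

`TQS.card_four`: `Nat.card (cardQ m) = 8 sigma(m)`, `cardQ m` = all integral quaternions of norm `m`.
For `m = 1 mod 4` exactly one coordinate of a quaternion of norm `m` is odd (squares are 0, 1 mod 4),
for `m = 3 mod 4` exactly one is even. So `(i, a) ↦ cardSw i a` (exchange of the real part with the
`i`-th coordinate, TQS/Card.lean) is a bijection `Fin 4 × QQ m → cardQ m`. (Model: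
`TQS.card_eight`.) `card_QQ_pp`: `sigma` is multiplicative, as in TQG/Crd.lean `card_pp`.
-/

namespace Pool.Agent.TQH

open Pool.Agent.TQS Pool.Agent.TQG

private def crdR (r : ℤ) (m : ℕ) : Set H :=
  {a | a.re % 2 = r ∧ a.imI % 2 = 1 - r ∧ a.imJ % 2 = 1 - r ∧ a.imK % 2 = 1 - r ∧
    Quaternion.normSq a = (m : ℤ)}

private theorem crd_quarter (r : ℤ) (m : ℕ) (hr : r = 0 ∨ r = 1)
    (hpar : ∀ a b c d : ℤ, a ^ 2 + b ^ 2 + c ^ 2 + d ^ 2 = m →
      (a % 2 = r ∧ b % 2 = 1 - r ∧ c % 2 = 1 - r ∧ d % 2 = 1 - r) ∨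
      (a % 2 = 1 - r ∧ b % 2 = r ∧ c % 2 = 1 - r ∧ d % 2 = 1 - r) ∨
      (a % 2 = 1 - r ∧ b % 2 = 1 - r ∧ c % 2 = r ∧ d % 2 = 1 - r) ∨
      (a % 2 = 1 - r ∧ b % 2 = 1 - r ∧ c % 2 = 1 - r ∧ d % 2 = r)) :
    Nat.card (cardQ m) = 4 * Nat.card (crdR r m) := by
  have h1 : Nat.card (Fin 4 × crdR r m) = 4 * Nat.card (crdR r m) := by
    rw [Nat.card_prod]
    simp
  rw [← h1]
  symm
  refine Nat.card_congr (Equiv.ofBijective
    (fun q : Fin 4 × crdR r m => (⟨cardSw q.1 q.2.1, ?_⟩ : cardQ m)) ⟨?_, ?_⟩)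
  · obtain ⟨i, a, ha⟩ := q
    simp only [crdR, Set.mem_ofPred_eq] at ha
    obtain ⟨_, _, _, _, h⟩ := ha
    rw [card_normSq] at h
    simp only [cardQ, Set.mem_ofPred_eq]
    rw [card_normSq]
    fin_cases i <;> simp [cardSw] <;> linarith
  · rintro ⟨i, a, ha⟩ ⟨j, b, hb⟩ h
    simp only [Subtype.mk.injEq] at h
    simp only [crdR, Set.mem_ofPred_eq] at ha hb
    obtain ⟨ha1, ha2, ha3, ha4, _⟩ := ha
    obtain ⟨hb1, hb2, hb3, hb4, _⟩ := hb
    rw [Quaternion.ext_iff] at h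
    have key : i = j ∧ a = b := by
      rw [Quaternion.ext_iff]
      fin_cases i <;> fin_cases j <;> simp [cardSw] at h ⊢ <;> omega
    obtain ⟨rfl, rfl⟩ := key
    rfl
  · rintro ⟨a, ha⟩
    simp only [cardQ, Set.mem_ofPred_eq] at ha
    rw [card_normSq] at ha
    have hsw : ∀ i : Fin 4, ∀ b : H, cardSw i b = a → b.re % 2 = r → b.imI % 2 = 1 - r →
        b.imJ % 2 = 1 - r → b.imK % 2 = 1 - r →
        b.re ^ 2 + b.imI ^ 2 + b.imJ ^ 2 + b.imK ^ 2 = m →
        ∃ q : Fin 4 × crdR r m, cardSw q.1 q.2.1 = a := by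
      intro i b hb h1 h2 h3 h4 h5
      refine ⟨(i, ⟨b, ?_⟩), hb⟩
      simp only [crdR, Set.mem_ofPred_eq]
      rw [card_normSq]
      exact ⟨h1, h2, h3, h4, h5⟩
    have key : ∃ q : Fin 4 × crdR r m, cardSw q.1 q.2.1 = a := by
      rcases hpar _ _ _ _ ha with ⟨h1, h2, h3, h4⟩ | ⟨h1, h2, h3, h4⟩ | ⟨h1, h2, h3, h4⟩ |
        ⟨h1, h2, h3, h4⟩
      · exact hsw 0 a rfl h1 h2 h3 h4 ha
      · exact hsw 1 (cardSw 1 a) rfl h2 h1 h3 h4 (by simp only [cardSw]; linarith)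
      · exact hsw 2 (cardSw 2 a) rfl h3 h2 h1 h4 (by simp only [cardSw]; linarith)
      · exact hsw 3 (cardSw 3 a) rfl h4 h2 h3 h1 (by simp only [cardSw]; linarith)
    obtain ⟨q, hq⟩ := key
    exact ⟨q, Subtype.ext hq⟩

theorem QQ_finite (m : ℕ) : (QQ m).Finite :=
  (cardQ_finite m).subset (fun _ ha => ha.2.2.2)

instance (m : ℕ) : Finite (QQ m) := (QQ_finite m).to_subtype

theorem card_QQ {m : ℕ} (hm : m % 2 = 1) :
    Nat.card (QQ m) = 2 * ArithmeticFunction.sigma 1 m := by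
  have h3 := card_four m hm
  have h4 : m % 4 = 1 ∨ m % 4 = 3 := by omega
  rcases h4 with h | h
  · have h1 : QQ m = crdR 1 m := by
      ext a
      simp only [crdR, Set.mem_ofPred_eq, sub_self]
      constructor
      · intro hq
        obtain ⟨t1, t2, t3, t4⟩ := typeV hq h
        exact ⟨t1, t2, t3, t4, hq.2.2.2⟩
      · rintro ⟨t1, t2, t3, t4, h5⟩
        exact ⟨by omega, by omega, by omega, h5⟩
    have h2 := crd_quarter 1 m (Or.inr rfl) (by
      intro a b c d he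
      rcases card_sq_mod a with ⟨ha, ha'⟩ | ⟨ha, ha'⟩ <;>
        rcases card_sq_mod b with ⟨hb, hb'⟩ | ⟨hb, hb'⟩ <;>
        rcases card_sq_mod c with ⟨hc, hc'⟩ | ⟨hc, hc'⟩ <;>
        rcases card_sq_mod d with ⟨hd, hd'⟩ | ⟨hd, hd'⟩ <;> simp [ha, hb, hc, hd] <;> omega)
    rw [h1]
    omega
  · have h1 : QQ m = crdR 0 m := by
      ext a
      simp only [crdR, Set.mem_ofPred_eq, sub_zero]
      constructor
      · intro hq
        obtain ⟨t1, t2, t3, t4⟩ := typeA hq h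
        exact ⟨t1, t2, t3, t4, hq.2.2.2⟩
      · rintro ⟨t1, t2, t3, t4, h5⟩
        exact ⟨by omega, by omega, by omega, h5⟩
    have h2 := crd_quarter 0 m (Or.inl rfl) (by
      intro a b c d he
      rcases card_sq_mod a with ⟨ha, ha'⟩ | ⟨ha, ha'⟩ <;>
        rcases card_sq_mod b with ⟨hb, hb'⟩ | ⟨hb, hb'⟩ <;>
        rcases card_sq_mod c with ⟨hc, hc'⟩ | ⟨hc, hc'⟩ <;>
        rcases card_sq_mod d with ⟨hd, hd'⟩ | ⟨hd, hd'⟩ <;> simp [ha, hb, hc, hd] <;> omega)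
    rw [h1]
    omega

theorem card_QQ_pp {P : Finset ℕ} (hP : OP P) :
    Nat.card (QQ (pp P)) = 2 * ∏ q ∈ P, (q + 1) := by
  rw [card_QQ (pp_odd hP)]
  congr 1
  induction P using Finset.induction_on with
  | empty =>
    rw [pp_empty]
    simp
  | insert q P hq ih =>
    have hP' : OP P := hP.mono (Finset.subset_insert q P)
    have hq1 : OP {q} := hP.mono (by simp)
    have hqp : q.Prime := (hP q (Finset.mem_insert_self q P)).1
    have hd : Disjoint {q} P := Finset.disjoint_singleton_left.2 hq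
    have e : pp (insert q P) = q * pp P := by
      rw [Finset.insert_eq, pp_union hd, pp_single]
    have hc : Nat.Coprime q (pp P) := by
      have := pp_coprime hq1 hP' hd
      rwa [pp_single] at this
    rw [e, (ArithmeticFunction.isMultiplicative_sigma (k := 1)).map_mul_of_coprime hc, ih hP',
      Finset.prod_insert hq, ArithmeticFunction.sigma_one_apply, hqp.sum_divisors]

end Pool.Agent.TQH
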