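import Pool.Agent.TQG.Bas
import Pool.Agent.H24.Defs

/-!
Project TQH (MP_f126a2_nt, Tunnell converse for even n): general squarefree `m = 1 mod 4`.

Notation of TQG (`pp`, `QQ`, `NN`, `YY`, `YP`, `gI`, `gM`, `gP`) and of TQS (`H`, `G`, `act`).
`P` is a finite set of odd primes. Elements of `QQ (pp P)` have left divisors in `QQ (pp S)`,
`S ⊆ P`, unique up to sign (there is no normalisation: for `d = 3 mod 8` the real part can vanish).
-/

namespace Pool.Agent.TQH

open Pool.Agent.TQS Pool.Agent.TQG Pool.Agent.H24 Quaternion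

/-- A finite set of odd primes. -/
def OP (P : Finset ℕ) : Prop := ∀ q ∈ P, q.Prime ∧ q % 2 = 1

/-- The swap: `b * c` becomes `c * b`, where `b ∈ QQ (pp S)`. -/
noncomputable def so (S : Finset ℕ) (a : H) : H := by
  classical exact if h : ∃ x : H × H, x.1 ∈ QQ (pp S) ∧ a = x.1 * x.2 then
    h.choose.2 * h.choose.1 else a

/-- Elements of `QQ m` with `imI = 0`. -/
def EI (m : ℕ) : Set H := {x | x ∈ QQ m ∧ x.imI = 0}

/-- Elements of `QQ m` with `imJ = imK`. -/
def EM (m : ℕ) : Set H := {x | x ∈ QQ m ∧ x.imJ = x.imK}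

/-- Pure elements of `QQ m`. -/
def PQ (m : ℕ) : Set H := {x | x ∈ QQ m ∧ x.re = 0}

/-- The class `(2, 2, 2)` modulo 4. -/
def ZZ : Set H := {a | a.imI % 4 = 2 ∧ a.imJ % 4 = 2 ∧ a.imK % 4 = 2}

/-- The part of `ZZ` with `imI * imJ = imJ * imK = 4` modulo 16. -/
def ZP : Set H := {a | a ∈ ZZ ∧ (a.imI * a.imJ) % 16 = 4 ∧ (a.imJ * a.imK) % 16 = 4}

/-- The Tunnell difference `2 |C_n| - |D_n|` for `n = 2 d`. -/
noncomputable def cd (d : ℕ) : ℤ := 2 * (cardC (2 * d) : ℤ) - (cardD (2 * d) : ℤ)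

/-- Fixed points in `YY` of the reflection of `g` composed with the swap of `S`. -/
noncomputable def FA (g : G) (P S : Finset ℕ) : ℕ :=
  Nat.card {a : H | a ∈ NN (pp P) ∧ a ∈ YY ∧ star (act g (so S a)) = a}

/-- Fixed points in `ZZ` of the reflection of `gM` composed with the swap of `S`. -/
noncomputable def FB (P S : Finset ℕ) : ℕ :=
  Nat.card {a : H | a ∈ NN (pp P) ∧ a ∈ ZZ ∧ star (act gM (so S a)) = a}

end Pool.Agent.TQH
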