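import Pool.Agent.TQH.Crd

/-!
Project TQH, module FAC: left divisors, unique up to sign. Model: TQG/Fac.lean.

UNIQUENESS. `a = b * c = b' * c'`, `d = pp S`, `e = pp (P \ S)`, coprime; `c ∈ QQ e` (`cof_QQ`);
`d * (c' * star c) = (star b' * b) * e`, so `d` divides the coordinates of `star b' * b`
(`natdvd_iff`), and `QQ_eq` gives `b' = ± b`.
EXISTENCE. The map `QQ d × QQ e → QQ (pp P)`, `(b, c) ↦ b * c` has fibres of exactly two elements
`± (b, c)` (uniqueness and cancellation), `|QQ d| |QQ e| = 4 ∏ (q + 1) = 2 |QQ (pp P)|` (`card_QQ_pp`),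
so it is surjective: e.g. `Finset.card_eq_sum_card_fiberwise`/`Finset.card_le_mul_card_image`: the
number of pairs is at most `2 * |image|`, so `|image| ≥ |QQ (pp P)|`.
-/

namespace Pool.Agent.TQH

open Pool.Agent.TQS Pool.Agent.TQG

private lemma fac_coord {d e : ℕ} (hde : Nat.Coprime d e) {x u : H}
    (h : x * (e : H) = (d : H) * u) : ∃ v : H, x = (d : H) * v := by
  rw [natdvd_iff]
  have h1 : ∃ v : H, x * (e : H) = (d : H) * v := ⟨u, h⟩
  rw [natdvd_iff] at h1
  have hc : IsCoprime (d : ℤ) (e : ℤ) := Nat.isCoprime_iff_coprime.2 hde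
  have e1 : (x * (e : H)).re = x.re * e := by simp
  have e2 : (x * (e : H)).imI = x.imI * e := by simp
  have e3 : (x * (e : H)).imJ = x.imJ * e := by simp
  have e4 : (x * (e : H)).imK = x.imK * e := by simp
  rw [e1, e2, e3, e4] at h1
  exact ⟨hc.dvd_of_dvd_mul_right h1.1, hc.dvd_of_dvd_mul_right h1.2.1,
    hc.dvd_of_dvd_mul_right h1.2.2.1, hc.dvd_of_dvd_mul_right h1.2.2.2⟩

theorem left_unique {P S : Finset ℕ} (hP : OP P) (hS : S ⊆ P) {a b b' : H} (ha : a ∈ QQ (pp P))
    (hb : b ∈ QQ (pp S)) (hb' : b' ∈ QQ (pp S)) (h : b ∣ a) (h' : b' ∣ a) : b = b' ∨ b = -b' := by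
  have hGS := hP.mono hS
  have hGD : OP (P \ S) := hP.mono Finset.sdiff_subset
  obtain ⟨c, hc⟩ := h
  obtain ⟨c', hc'⟩ := h'
  rw [← pp_sdiff hS] at ha
  have hcQ : c ∈ QQ (pp (P \ S)) := cof_QQ (pp_odd hGS) ha hb hc
  have e1 : (star b' * b) * ((pp (P \ S) : ℕ) : H) = ((pp S : ℕ) : H) * (c' * star c) := by
    rw [← mul_star_QQ hcQ, ← star_mul_QQ hb']
    have e2 : b * c = b' * c' := by rw [← hc, ← hc']
    calc star b' * b * (c * star c) = star b' * (b * c) * star c := by
          simp only [mul_assoc]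
      _ = star b' * (b' * c') * star c := by rw [e2]
      _ = star b' * b' * (c' * star c) := by simp only [mul_assoc]
  have hcop : Nat.Coprime (pp S) (pp (P \ S)) :=
    pp_coprime hGS hGD Finset.disjoint_sdiff
  rcases QQ_eq (pp_pos hGS) hb' hb (fac_coord hcop e1) with h1 | h1
  · exact Or.inl h1.symm
  · right
    rw [h1, neg_neg]

theorem left_exists {P S : Finset ℕ} (hP : OP P) (hS : S ⊆ P) {a : H} (ha : a ∈ QQ (pp P)) :
    ∃ b ∈ QQ (pp S), ∃ c ∈ QQ (pp (P \ S)), a = b * c := by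
  classical
  have hGS := hP.mono hS
  have hGD : OP (P \ S) := hP.mono Finset.sdiff_subset
  let s : Finset (H × H) :=
    (QQ_finite (pp S)).toFinset ×ˢ (QQ_finite (pp (P \ S))).toFinset
  let f : H × H → H := fun x => x.1 * x.2
  have hmem : ∀ x : H × H, x ∈ s ↔ x.1 ∈ QQ (pp S) ∧ x.2 ∈ QQ (pp (P \ S)) := by
    intro x
    simp only [s, Finset.mem_product, Set.Finite.mem_toFinset]
  have hprod : ∀ x : H × H, x ∈ s → f x ∈ QQ (pp P) := by
    intro x hx
    have h1 := (hmem x).1 hx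
    have h2 := mul_QQ h1.1 h1.2
    rw [pp_sdiff hS] at h2
    exact h2
  have himg : s.image f ⊆ (QQ_finite (pp P)).toFinset := by
    intro y hy
    obtain ⟨x, hx, rfl⟩ := Finset.mem_image.1 hy
    rw [Set.Finite.mem_toFinset]
    exact hprod x hx
  have hfib : ∀ y ∈ s.image f, (s.filter (fun x => f x = y)).card ≤ 2 := by
    intro y hy
    obtain ⟨x, hx, rfl⟩ := Finset.mem_image.1 hy
    have hsub : s.filter (fun z => f z = f x) ⊆ {x, (-x.1, -x.2)} := by
      intro z hz
      obtain ⟨hz1, hz2⟩ := Finset.mem_filter.1 hz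
      have hz2' : z.1 * z.2 = x.1 * x.2 := hz2
      have k1 := (hmem x).1 hx
      have k2 := (hmem z).1 hz1
      have hx0 : x.1 ≠ 0 := ne_zero_QQ (pp_pos hGS) k1.1
      have h3 : z.1 = x.1 ∨ z.1 = -x.1 :=
        left_unique hP hS (hprod x hx) k2.1 k1.1 ⟨z.2, hz2'.symm⟩ ⟨x.2, rfl⟩
      rw [Finset.mem_insert, Finset.mem_singleton]
      rcases h3 with h3 | h3
      · left
        rw [h3] at hz2'
        exact Prod.ext h3 (mul_left_cancel₀ hx0 hz2')
      · right
        rw [h3] at hz2'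
        refine Prod.ext h3 (mul_left_cancel₀ hx0 ?_)
        show x.1 * z.2 = x.1 * -x.2
        rw [mul_neg, ← hz2', neg_mul, neg_neg]
    exact (Finset.card_le_card hsub).trans Finset.card_le_two
  have h1 := Finset.card_le_mul_card_image s 2 hfib
  have hcc : ∀ m : ℕ, (QQ_finite m).toFinset.card = Nat.card (QQ m) := by
    intro m
    rw [Nat.card_coe_set_eq, Set.ncard_eq_toFinset_card _ (QQ_finite m)]
  have hs : s.card = 2 * (QQ_finite (pp P)).toFinset.card := by
    have e1 : s.card = (QQ_finite (pp S)).toFinset.card * (QQ_finite (pp (P \ S))).toFinset.card :=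
      Finset.card_product _ _
    rw [e1, hcc, hcc, hcc, card_QQ_pp hP, card_QQ_pp hGS, card_QQ_pp hGD,
      ← Finset.prod_sdiff hS]
    ring
  have h2 : (QQ_finite (pp P)).toFinset.card ≤ (s.image f).card := by omega
  have h3 := Finset.eq_of_subset_of_card_le himg h2
  have h4 : a ∈ s.image f := by
    rw [h3, Set.Finite.mem_toFinset]
    exact ha
  obtain ⟨x, hx, hxa⟩ := Finset.mem_image.1 h4
  have k := (hmem x).1 hx
  exact ⟨x.1, k.1, x.2, k.2, hxa.symm⟩

end Pool.Agent.TQH
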