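import Pool.Agent.TQH.Fix
import Pool.Agent.TQG.Jac

/-!
Project TQH, module PCI: `FA gI` in terms of `EI`, for `pp P = 1 mod 8`, `P ≠ ∅`.

`fixI` with `Z = YY`: `4 * FA gI P S` = number of pairs `(b, c) ∈ EI d × EI e`, `d = pp S`,
`e = pp (P \ S)`, with `b * c ∈ YY`; to show `2 * pairs = |EI d| |EI e|`.
`d = 3 mod 4` (or `e`): `EI d` is empty (`typeA`: `imI` odd). Let `d = e mod 8`, both `1` or `5` mod 8.
`typeV`: `im (b * c) = im b + im c mod 4` (real parts odd, imaginary even).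
`d = 1 mod 8`: by `typeV1` and `imI = 0` an element of `EI` has `imJ = imK mod 4`, both `0` or both `2`;
`b * c ∈ YY` iff exactly one of `b`, `c` has `imJ = 2 mod 4`. If `d`, `e` are both not squares (i.e.
`S ≠ ∅, P`, `pp_not_sq`), the two classes have the same size in `EI d` and in `EI e` (`ei_half`).
If `S = ∅`: `EI 1 = {1, -1}` has only the class `0`, and the pairs are `2 * |class 2 of EI e|`;
the same for `S = P`.
`d = 5 mod 8`: by `typeV5` and `imI = 0` exactly one of `imJ`, `imK` is `2 mod 4`, the other `0 mod 4`;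
`act (r 1)` (`(re, imI, - imK, imJ)`) exchanges the two classes, so they have the same size, and
`b * c ∈ YY` iff `b`, `c` are in different classes.
`ei_half`: `TQG.jac` (`mc0 gI m = mc1 gI m`): `EI m` is the union of `MM gI m` and its negative.
-/

namespace Pool.Agent.TQH

open Pool.Agent.TQS Pool.Agent.TQG

private theorem pci_fin (m : ℕ) : (EI m).Finite := (QQ_finite m).subset fun _ h => h.1

/-- the two classes -/
private def Er (m : ℕ) (r : ℤ) : Set H := {x : H | x ∈ EI m ∧ x.imJ % 4 = r}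

private theorem pci_er_fin (m : ℕ) (r : ℤ) : (Er m r).Finite := (pci_fin m).subset fun _ h => h.1

private theorem pci_val (a : H) : star (act gI a) = ⟨a.re, -a.imI, a.imJ, a.imK⟩ := by
  have e1 : (act gI a).re = a.re := rfl
  have e2 : (act gI a).imI = a.imI := rfl
  have e3 : (act gI a).imJ = -a.imJ := rfl
  have e4 : (act gI a).imK = -a.imK := rfl
  ext
  · rw [Quaternion.re_star, e1]
  · rw [Quaternion.imI_star, e2]
  · rw [Quaternion.imJ_star, e3, neg_neg]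
  · rw [Quaternion.imK_star, e4, neg_neg]

private theorem pci_mirror {a : H} : star (act gI a) = a ↔ a.imI = 0 := by
  rw [pci_val]
  constructor
  · intro h
    have h2 := congrArg QuaternionAlgebra.imI h
    change -a.imI = a.imI at h2
    omega
  · intro h
    ext
    · rfl
    · change -a.imI = a.imI
      omega
    · rfl
    · rfl

private theorem pci_double {m : ℕ} (h1 : m % 4 = 1) {r : ℤ} (hr : r = 0 ∨ r = 2) :
    (Er m r).ncard = 2 * {a : H | a ∈ MM gI m ∧ a.imJ % 4 = r}.ncard := by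
  have hfin : {a : H | a ∈ MM gI m ∧ a.imJ % 4 = r}.Finite :=
    (QQ_finite m).subset fun _ h => h.1.1.1
  have e : Er m r = {a : H | a ∈ MM gI m ∧ a.imJ % 4 = r} ∪
      (fun a : H => -a) '' {a : H | a ∈ MM gI m ∧ a.imJ % 4 = r} := by
    ext a
    constructor
    · rintro ⟨⟨ha, h0⟩, hj⟩
      have hre := re_ne4 h1 ha
      rcases lt_or_gt_of_ne hre with h | h
      · right
        refine ⟨-a, ⟨⟨⟨neg_QQ ha, ?_⟩, ?_⟩, ?_⟩, neg_neg a⟩
        · rw [Quaternion.re_neg]; omega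
        · rw [pci_mirror, Quaternion.imI_neg]; omega
        · rw [Quaternion.imJ_neg]; omega
      · left
        exact ⟨⟨⟨ha, h⟩, pci_mirror.2 h0⟩, hj⟩
    · rintro (⟨⟨⟨ha, -⟩, h0⟩, hj⟩ | ⟨b, ⟨⟨⟨hb, -⟩, h0⟩, hj⟩, rfl⟩)
      · exact ⟨⟨ha, pci_mirror.1 h0⟩, hj⟩
      · rw [pci_mirror] at h0
        refine ⟨⟨neg_QQ hb, ?_⟩, ?_⟩
        · change (-b).imI = 0
          rw [Quaternion.imI_neg]; omega
        · change (-b).imJ % 4 = r
          rw [Quaternion.imJ_neg]; omega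
  have hdisj : Disjoint {a : H | a ∈ MM gI m ∧ a.imJ % 4 = r}
      ((fun a : H => -a) '' {a : H | a ∈ MM gI m ∧ a.imJ % 4 = r}) := by
    rw [Set.disjoint_left]
    rintro a ⟨⟨⟨-, h2⟩, -⟩, -⟩ ⟨b, ⟨⟨⟨-, h3⟩, -⟩, -⟩, rfl⟩
    change 0 < (-b).re at h2
    rw [Quaternion.re_neg] at h2
    omega
  rw [e, Set.ncard_union_eq hdisj hfin (hfin.image _),
    Set.ncard_image_of_injective _ neg_injective]
  ring

theorem ei_half {m : ℕ} (h1 : m % 8 = 1) (hsq : ¬ IsSquare m) :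
    Nat.card {x : H | x ∈ EI m ∧ x.imJ % 4 = 0} = Nat.card {x : H | x ∈ EI m ∧ x.imJ % 4 = 2} := by
  have h2 := pci_double (m := m) (by omega) (r := 0) (Or.inl rfl)
  have h3 := pci_double (m := m) (by omega) (r := 2) (Or.inr rfl)
  have h4 := jac h1 hsq
  unfold mc0 mc1 at h4
  rw [Nat.card_coe_set_eq, Nat.card_coe_set_eq] at h4
  rw [Nat.card_coe_set_eq, Nat.card_coe_set_eq]
  change (Er m 0).ncard = (Er m 2).ncard
  rw [h2, h3, h4]

private theorem pci_half5 {m : ℕ} (h5 : m % 8 = 5) : (Er m 0).ncard = (Er m 2).ncard := by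
  have e : Er m 2 = (act (DihedralGroup.r 1)) '' (Er m 0) := by
    ext a
    constructor
    · rintro ⟨⟨ha, h0⟩, hj⟩
      have hV := typeV5 ha h5
      refine ⟨act (DihedralGroup.r 1)⁻¹ a, ⟨⟨act_QQ _ ha, ?_⟩, ?_⟩, ?_⟩
      · change a.imI = 0
        exact h0
      · change a.imK % 4 = 0
        omega
      · rw [← act_mul, mul_inv_cancel, act_one]
    · rintro ⟨b, ⟨⟨hb, h0⟩, hj⟩, rfl⟩
      have hV := typeV5 hb h5
      refine ⟨⟨act_QQ _ hb, ?_⟩, ?_⟩
      · change b.imI = 0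
        exact h0
      · change (-b.imK) % 4 = 2
        omega
  have hinj : Function.Injective (act (DihedralGroup.r 1)) := by
    intro a b h
    have h2 := congrArg (act (DihedralGroup.r 1)⁻¹) h
    rwa [← act_mul, ← act_mul, inv_mul_cancel, act_one] at h2
  rw [e, Set.ncard_image_of_injective _ hinj]

private theorem pci_total {m : ℕ} (h1 : m % 4 = 1) :
    (EI m).ncard = (Er m 0).ncard + (Er m 2).ncard := by
  have e : EI m = Er m 0 ∪ Er m 2 := by
    ext a
    constructor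
    · rintro ⟨ha, h0⟩
      have hV := typeV ha h1
      have h3 : a.imJ % 4 = 0 ∨ a.imJ % 4 = 2 := by omega
      rcases h3 with h3 | h3
      · exact Or.inl ⟨⟨ha, h0⟩, h3⟩
      · exact Or.inr ⟨⟨ha, h0⟩, h3⟩
    · rintro (h | h)
      · exact h.1
      · exact h.1
  have hdisj : Disjoint (Er m 0) (Er m 2) := by
    rw [Set.disjoint_left]
    rintro a ⟨-, h2⟩ ⟨-, h3⟩
    omega
  rw [e, Set.ncard_union_eq hdisj (pci_er_fin m 0) (pci_er_fin m 2)]

/-- the product of two elements with `imI = 0` is in `YY` iff they are in different classes -/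
private theorem pci_prod {d e : ℕ} (h : (d % 8 = 1 ∧ e % 8 = 1) ∨ (d % 8 = 5 ∧ e % 8 = 5))
    {b c : H} (hb : b ∈ EI d) (hc : c ∈ EI e) :
    b * c ∈ YY ↔ (b.imJ % 4 = 0 ∧ c.imJ % 4 = 2) ∨ (b.imJ % 4 = 2 ∧ c.imJ % 4 = 0) := by
  obtain ⟨hb, b0⟩ := hb
  obtain ⟨hc, c0⟩ := hc
  have hV := typeV hb (by omega)
  have hW := typeV hc (by omega)
  have hs : ((b.imI + b.imJ + b.imK) % 4 = 0 ∧ (c.imI + c.imJ + c.imK) % 4 = 0) ∨
      ((b.imI + b.imJ + b.imK) % 4 = 2 ∧ (c.imI + c.imJ + c.imK) % 4 = 2) := by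
    rcases h with ⟨h1, h2⟩ | ⟨h1, h2⟩
    · exact Or.inl ⟨typeV1 hb h1, typeV1 hc h2⟩
    · exact Or.inr ⟨typeV5 hb h1, typeV5 hc h2⟩
  obtain ⟨p, hp⟩ : ∃ p, b.re = 2 * p + 1 := ⟨b.re / 2, by omega⟩
  obtain ⟨q, hq⟩ : ∃ q, b.imJ = 2 * q := ⟨b.imJ / 2, by omega⟩
  obtain ⟨r, hr⟩ : ∃ r, b.imK = 2 * r := ⟨b.imK / 2, by omega⟩
  obtain ⟨p', hp'⟩ : ∃ p, c.re = 2 * p + 1 := ⟨c.re / 2, by omega⟩
  obtain ⟨q', hq'⟩ : ∃ q, c.imJ = 2 * q := ⟨c.imJ / 2, by omega⟩
  obtain ⟨r', hr'⟩ : ∃ r, c.imK = 2 * r := ⟨c.imK / 2, by omega⟩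
  have e1 : (b * c).imI = 4 * (q * r' - r * q') := by
    rw [Quaternion.imI_mul, b0, c0, hq, hr, hq', hr']; ring
  have e2 : (b * c).imJ = 2 * (q + q') + 4 * (p * q' + q * p') := by
    rw [Quaternion.imJ_mul, b0, c0, hp, hq, hp', hq']; ring
  have e3 : (b * c).imK = 2 * (r + r') + 4 * (p * r' + r * p') := by
    rw [Quaternion.imK_mul, b0, c0, hp, hr, hp', hr']; ring
  change ((b * c).imI % 4 = 0 ∧ (b * c).imJ % 4 = 2 ∧ (b * c).imK % 4 = 2) ↔ _
  rw [e1, e2, e3]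
  generalize q * r' - r * q' = u
  generalize p * q' + q * p' = v
  generalize p * r' + r * p' = w
  rw [b0, c0, hq, hr, hq', hr'] at hs
  rw [hq, hq']
  omega

theorem fa_I {P S : Finset ℕ} (hP : OP P) (hne : P.Nonempty) (h1 : pp P % 8 = 1) (hS : S ⊆ P) :
    8 * FA gI P S = Nat.card (EI (pp S)) * Nat.card (EI (pp (P \ S))) := by
  have hfix := fixI hP (by omega) hS YY (by
    intro x
    constructor
    · rintro ⟨h2, h3, h4⟩
      rw [Quaternion.imI_neg] at h2
      rw [Quaternion.imJ_neg] at h3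
      rw [Quaternion.imK_neg] at h4
      exact ⟨by omega, by omega, by omega⟩
    · rintro ⟨h2, h3, h4⟩
      refine ⟨?_, ?_, ?_⟩
      · rw [Quaternion.imI_neg]; omega
      · rw [Quaternion.imJ_neg]; omega
      · rw [Quaternion.imK_neg]; omega)
  have hFA : FA gI P S = Nat.card {a : H | a ∈ NN (pp P) ∧ a ∈ YY ∧ star (act gI (so S a)) = a} :=
    rfl
  rw [← hFA] at hfix
  rw [Nat.card_coe_set_eq] at hfix
  rw [Nat.card_coe_set_eq, Nat.card_coe_set_eq]
  have hde := pp_sdiff hS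
  have hd := pp_odd (hP.mono hS)
  have he := pp_odd (hP.mono (Finset.sdiff_subset (s := P) (t := S)))
  have hsqr : ¬ IsSquare (pp S) ∨ ¬ IsSquare (pp (P \ S)) := by
    by_cases hS0 : S.Nonempty
    · exact Or.inl (pp_not_sq (hP.mono hS) hS0)
    · right
      rw [Finset.not_nonempty_iff_eq_empty] at hS0
      rw [hS0, Finset.sdiff_empty]
      exact pp_not_sq hP hne
  generalize pp S = d at *
  generalize pp (P \ S) = e at *
  have hmod : (d % 8 = 1 ∧ e % 8 = 1) ∨ (d % 8 = 5 ∧ e % 8 = 5) ∨ (d % 4 = 3 ∧ e % 4 = 3) := by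
    rw [← hde, Nat.mul_mod] at h1
    have h2 : d % 8 < 8 := Nat.mod_lt _ (by norm_num)
    have h3 : e % 8 < 8 := Nat.mod_lt _ (by norm_num)
    have h4 : d % 4 = d % 8 % 4 := by omega
    have h5 : e % 4 = e % 8 % 4 := by omega
    have h6 : d % 8 % 2 = 1 := by omega
    have h7 : e % 8 % 2 = 1 := by omega
    rw [h4, h5]
    generalize d % 8 = x at *
    generalize e % 8 = y at *
    interval_cases x <;> interval_cases y <;> omega
  have hmain : 2 * {x : H × H | x.1 ∈ EI d ∧ x.2 ∈ EI e ∧ x.1 * x.2 ∈ YY}.ncard =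
      (EI d).ncard * (EI e).ncard := by
    have key : ((d % 8 = 1 ∧ e % 8 = 1) ∨ (d % 8 = 5 ∧ e % 8 = 5)) →
        ((Er d 0).ncard = (Er d 2).ncard ∨ (Er e 0).ncard = (Er e 2).ncard) →
        2 * {x : H × H | x.1 ∈ EI d ∧ x.2 ∈ EI e ∧ x.1 * x.2 ∈ YY}.ncard =
          (EI d).ncard * (EI e).ncard := by
      intro h hh
      have e1 : {x : H × H | x.1 ∈ EI d ∧ x.2 ∈ EI e ∧ x.1 * x.2 ∈ YY} =
          (Er d 0 ×ˢ Er e 2) ∪ (Er d 2 ×ˢ Er e 0) := by
        ext ⟨b, c⟩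
        constructor
        · rintro ⟨hb, hc, hbc⟩
          rw [pci_prod h hb hc] at hbc
          rcases hbc with ⟨k1, k2⟩ | ⟨k1, k2⟩
          · exact Or.inl ⟨⟨hb, k1⟩, ⟨hc, k2⟩⟩
          · exact Or.inr ⟨⟨hb, k1⟩, ⟨hc, k2⟩⟩
        · rintro (⟨⟨hb, k1⟩, ⟨hc, k2⟩⟩ | ⟨⟨hb, k1⟩, ⟨hc, k2⟩⟩)
          · exact ⟨hb, hc, (pci_prod h hb hc).2 (Or.inl ⟨k1, k2⟩)⟩
          · exact ⟨hb, hc, (pci_prod h hb hc).2 (Or.inr ⟨k1, k2⟩)⟩
      have hdisj : Disjoint (Er d 0 ×ˢ Er e 2) (Er d 2 ×ˢ Er e 0) := by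
        rw [Set.disjoint_left]
        rintro ⟨b, c⟩ ⟨⟨-, k1⟩, -⟩ ⟨⟨-, k2⟩, -⟩
        change b.imJ % 4 = 0 at k1
        change b.imJ % 4 = 2 at k2
        omega
      rw [e1, Set.ncard_union_eq hdisj ((pci_er_fin d 0).prod (pci_er_fin e 2))
        ((pci_er_fin d 2).prod (pci_er_fin e 0)), Set.ncard_prod, Set.ncard_prod,
        pci_total (m := d) (by omega), pci_total (m := e) (by omega)]
      rcases hh with hh | hh
      · rw [hh]; ring
      · rw [hh]; ring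
    rcases hmod with h | h | h
    · refine key (Or.inl h) ?_
      rcases hsqr with h2 | h2
      · left
        have h3 := ei_half h.1 h2
        rw [Nat.card_coe_set_eq, Nat.card_coe_set_eq] at h3
        exact h3
      · right
        have h3 := ei_half h.2 h2
        rw [Nat.card_coe_set_eq, Nat.card_coe_set_eq] at h3
        exact h3
    · exact key (Or.inr h) (Or.inl (pci_half5 h.1))
    · have e1 : EI d = ∅ := by
        ext a
        constructor
        · rintro ⟨ha, h0⟩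
          have := typeA ha h.1
          omega
        · intro h; exact absurd h (Set.notMem_empty a)
      rw [e1]
      simp
  rw [← hmain, ← hfix]
  ring

end Pool.Agent.TQH
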