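import Pool.Agent.TQH.Bas

/-!
Project TQH, module TUN: Tunnell's numbers and `EM`. Model: TQG/Tun.lean.

`d = 1 mod 4`: `(x, y, z) ∈ D_{2d}` iff `d = y^2 + 4 x^2 + 8 z^2`; the map
`a ↦ (imI / 2, re, imJ / 2)` from `EM d` (`typeV`: `re` odd, `imI`, `imJ = imK` even) is a bijection
onto `D_{2d}` (`y` is odd, of any sign); for `C_{2d}` (`d = y^2 + 4 x^2 + 32 z^2`) `imJ = imK = 4 z`.
`d = 3 mod 4`: `y^2 + 4 (..) = 3 mod 4` is impossible, both sets are empty.
`cd_diff`: `cd d = 2 |C| - |D|` with `|D| = |EM d|` = number with `imJ = 0` plus number with `imJ = 2`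
modulo 4.
-/

namespace Pool.Agent.TQH

open Pool.Agent.TQS Pool.Agent.TQG Pool.Agent.H24

private theorem mem_EM {d : ℕ} (h : d % 4 = 1) (a : H) : a ∈ EM d ↔
    a.re % 2 = 1 ∧ a.imI % 2 = 0 ∧ a.imJ % 2 = 0 ∧ a.imK = a.imJ ∧
      (d : ℤ) = a.re ^ 2 + a.imI ^ 2 + 2 * a.imJ ^ 2 := by
  constructor
  · rintro ⟨h1, h2⟩
    obtain ⟨t1, t2, t3, t4⟩ := typeV h1 h
    have h5 := h1.2.2.2
    rw [Quaternion.normSq_def', ← h2] at h5
    exact ⟨t1, t2, t3, h2.symm, by linarith⟩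
  · rintro ⟨h1, h2, h3, h4, h5⟩
    refine ⟨⟨by omega, by omega, by omega, ?_⟩, h4.symm⟩
    rw [Quaternion.normSq_def', h4, h5]
    ring

private theorem EM_fin (d : ℕ) : (EM d).Finite :=
  (bounded_finite d).subset (fun _ h => h.1.2.2.2)

private theorem sq_mod (y : ℤ) : y ^ 2 % 4 = 0 ∧ y % 2 = 0 ∨ y ^ 2 % 4 = 1 ∧ y % 2 = 1 := by
  rcases Int.emod_two_eq_zero_or_one y with h | h
  · left
    obtain ⟨k, rfl⟩ : ∃ k, y = 2 * k := ⟨y / 2, by omega⟩
    have : (2 * k) ^ 2 = 4 * k ^ 2 := by ring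
    exact ⟨by rw [this]; omega, h⟩
  · right
    obtain ⟨k, rfl⟩ : ∃ k, y = 2 * k + 1 := ⟨y / 2, by omega⟩
    have : (2 * k + 1) ^ 2 = 4 * (k ^ 2 + k) + 1 := by ring
    exact ⟨by rw [this]; omega, h⟩

private theorem tun_C {d : ℕ} (h : d % 4 = 1) :
    cardC (2 * d) = Nat.card {x : H | x ∈ EM d ∧ x.imJ % 4 = 0} := by
  have him : (fun a : H => (a.imI / 2, a.re, a.imJ / 4)) '' {x : H | x ∈ EM d ∧ x.imJ % 4 = 0} =
      {p : ℤ × ℤ × ℤ | ((2 * d : ℕ) : ℤ) = 8 * p.1 ^ 2 + 2 * p.2.1 ^ 2 + 64 * p.2.2 ^ 2} := by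
    ext ⟨x, y, z⟩
    constructor
    · rintro ⟨a, ⟨ha, ha4⟩, he⟩
      rw [mem_EM h] at ha
      simp only [Prod.mk.injEq] at he
      obtain ⟨e1, e2, e3⟩ := he
      obtain ⟨g1, g2, g3, g4, g5⟩ := ha
      have f1 : a.imI = 2 * x := by omega
      have f2 : a.imJ = 4 * z := by omega
      change ((2 * d : ℕ) : ℤ) = 8 * x ^ 2 + 2 * y ^ 2 + 64 * z ^ 2
      rw [f1, f2, e2] at g5
      push_cast
      rw [g5]
      ring
    · intro hp
      change ((2 * d : ℕ) : ℤ) = 8 * x ^ 2 + 2 * y ^ 2 + 64 * z ^ 2 at hp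
      push_cast at hp
      refine ⟨⟨y, 2 * x, 4 * z, 4 * z⟩, ⟨?_, ?_⟩, ?_⟩
      · refine (mem_EM h _).2 ⟨?_, ?_, ?_, rfl, ?_⟩
        · change y % 2 = 1
          have := sq_mod y
          omega
        · change (2 * x) % 2 = 0
          omega
        · change (4 * z) % 2 = 0
          omega
        · change (d : ℤ) = y ^ 2 + (2 * x) ^ 2 + 2 * (4 * z) ^ 2
          linarith
      · change (4 * z) % 4 = 0
        omega
      · change ((2 * x) / 2, y, (4 * z) / 4) = (x, y, z)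
        rw [Int.mul_ediv_cancel_left _ (by norm_num), Int.mul_ediv_cancel_left _ (by norm_num)]
  have hinj : Set.InjOn (fun a : H => (a.imI / 2, a.re, a.imJ / 4))
      {x : H | x ∈ EM d ∧ x.imJ % 4 = 0} := by
    rintro a ⟨ha, ha4⟩ b ⟨hb, hb4⟩ he
    rw [mem_EM h] at ha hb
    simp only [Prod.mk.injEq] at he
    obtain ⟨e1, e2, e3⟩ := he
    ext
    · exact e2
    · omega
    · omega
    · rw [ha.2.2.2.1, hb.2.2.2.1]
      omega
  unfold cardC
  rw [← him, hinj.ncard_image, Nat.card_coe_set_eq]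

private theorem tun_D {d : ℕ} (h : d % 4 = 1) : cardD (2 * d) = Nat.card (EM d) := by
  have him : (fun a : H => (a.imI / 2, a.re, a.imJ / 2)) '' (EM d) =
      {p : ℤ × ℤ × ℤ | ((2 * d : ℕ) : ℤ) = 8 * p.1 ^ 2 + 2 * p.2.1 ^ 2 + 16 * p.2.2 ^ 2} := by
    ext ⟨x, y, z⟩
    constructor
    · rintro ⟨a, ha, he⟩
      rw [mem_EM h] at ha
      simp only [Prod.mk.injEq] at he
      obtain ⟨e1, e2, e3⟩ := he
      obtain ⟨g1, g2, g3, g4, g5⟩ := ha
      have f1 : a.imI = 2 * x := by omega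
      have f2 : a.imJ = 2 * z := by omega
      change ((2 * d : ℕ) : ℤ) = 8 * x ^ 2 + 2 * y ^ 2 + 16 * z ^ 2
      rw [f1, f2, e2] at g5
      push_cast
      rw [g5]
      ring
    · intro hp
      change ((2 * d : ℕ) : ℤ) = 8 * x ^ 2 + 2 * y ^ 2 + 16 * z ^ 2 at hp
      push_cast at hp
      refine ⟨⟨y, 2 * x, 2 * z, 2 * z⟩, ?_, ?_⟩
      · refine (mem_EM h _).2 ⟨?_, ?_, ?_, rfl, ?_⟩
        · change y % 2 = 1
          have := sq_mod y
          omega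
        · change (2 * x) % 2 = 0
          omega
        · change (2 * z) % 2 = 0
          omega
        · change (d : ℤ) = y ^ 2 + (2 * x) ^ 2 + 2 * (2 * z) ^ 2
          linarith
      · change ((2 * x) / 2, y, (2 * z) / 2) = (x, y, z)
        rw [Int.mul_ediv_cancel_left _ (by norm_num), Int.mul_ediv_cancel_left _ (by norm_num)]
  have hinj : Set.InjOn (fun a : H => (a.imI / 2, a.re, a.imJ / 2)) (EM d) := by
    intro a ha b hb he
    rw [mem_EM h] at ha hb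
    simp only [Prod.mk.injEq] at he
    obtain ⟨e1, e2, e3⟩ := he
    ext
    · exact e2
    · omega
    · omega
    · rw [ha.2.2.2.1, hb.2.2.2.1]
      omega
  unfold cardD
  rw [← him, hinj.ncard_image, Nat.card_coe_set_eq]

theorem cd_diff {d : ℕ} (h : d % 4 = 1) :
    cd d = (Nat.card {x : H | x ∈ EM d ∧ x.imJ % 4 = 0} : ℤ) -
      (Nat.card {x : H | x ∈ EM d ∧ x.imJ % 4 = 2} : ℤ) := by
  unfold cd
  rw [tun_C h, tun_D h]
  have e : EM d = {x : H | x ∈ EM d ∧ x.imJ % 4 = 0} ∪ {x : H | x ∈ EM d ∧ x.imJ % 4 = 2} := by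
    ext a
    constructor
    · intro ha
      have h3 := ((mem_EM h a).1 ha).2.2.1
      rcases (by omega : a.imJ % 4 = 0 ∨ a.imJ % 4 = 2) with h4 | h4
      · exact Or.inl ⟨ha, h4⟩
      · exact Or.inr ⟨ha, h4⟩
    · rintro (h1 | h1)
      · exact h1.1
      · exact h1.1
  have hd : Disjoint {x : H | x ∈ EM d ∧ x.imJ % 4 = 0} {x : H | x ∈ EM d ∧ x.imJ % 4 = 2} := by
    rw [Set.disjoint_left]
    rintro a ⟨_, h1⟩ ⟨_, h2⟩
    omega
  have hc : Nat.card (EM d) = Nat.card {x : H | x ∈ EM d ∧ x.imJ % 4 = 0} +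
      Nat.card {x : H | x ∈ EM d ∧ x.imJ % 4 = 2} := by
    rw [Nat.card_coe_set_eq, Nat.card_coe_set_eq, Nat.card_coe_set_eq,
      ← Set.ncard_union_eq hd ((EM_fin d).subset fun _ h => h.1)
        ((EM_fin d).subset fun _ h => h.1), ← e]
  rw [hc]
  push_cast
  ring

theorem cd_three {d : ℕ} (h : d % 4 = 3) : cd d = 0 := by
  have hC : cardC (2 * d) = 0 := by
    have e : {p : ℤ × ℤ × ℤ | ((2 * d : ℕ) : ℤ) = 8 * p.1 ^ 2 + 2 * p.2.1 ^ 2 + 64 * p.2.2 ^ 2} =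
        ∅ := by
      ext ⟨x, y, z⟩
      constructor
      · intro hp
        change ((2 * d : ℕ) : ℤ) = 8 * x ^ 2 + 2 * y ^ 2 + 64 * z ^ 2 at hp
        push_cast at hp
        have := sq_mod y
        generalize x ^ 2 = u at hp
        generalize z ^ 2 = v at hp
        exfalso
        omega
      · exact fun hp => hp.elim
    unfold cardC
    rw [e, Set.ncard_empty]
  have hD : cardD (2 * d) = 0 := by
    have e : {p : ℤ × ℤ × ℤ | ((2 * d : ℕ) : ℤ) = 8 * p.1 ^ 2 + 2 * p.2.1 ^ 2 + 16 * p.2.2 ^ 2} =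
        ∅ := by
      ext ⟨x, y, z⟩
      constructor
      · intro hp
        change ((2 * d : ℕ) : ℤ) = 8 * x ^ 2 + 2 * y ^ 2 + 16 * z ^ 2 at hp
        push_cast at hp
        have := sq_mod y
        generalize x ^ 2 = u at hp
        generalize z ^ 2 = v at hp
        exfalso
        omega
      · exact fun hp => hp.elim
    unfold cardD
    rw [e, Set.ncard_empty]
  unfold cd
  rw [hC, hD]
  norm_num

end Pool.Agent.TQH
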