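import Pool.Agent.TQH.Fix
import Pool.Agent.TQH.Tun

/-!
Project TQH, module PCM: `FA gM` and `FB` in terms of `EM` and `cd`.

`fixM`: `4 * FA gM P S` (`4 * FB P S`) = number of pairs `(b, c) ∈ EM d × EM e`, `d = pp S`,
`e = pp (P \ S)`, with `b * c ∈ YY` (`∈ ZZ`). Key (`pairs`): `2 * #{(b, c) | (b * c).imJ = 2 mod 4} =
|EM d| |EM e| - cd d * cd e` whenever `d e = 1 mod 4`.
Type V (`d = e = 1 mod 4`): `im (b * c) = im b + im c mod 4`; with `x0, x2` (`y0, y2`) the numbers of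
`b` (`c`) with `imJ = 0, 2 mod 4`: pairs `= x0 y2 + x2 y0`, `|EM d| = x0 + x2`, `cd d = x0 - x2`
(`cd_diff`). Type A (`d = e = 3 mod 4`): `cd = 0` (`cd_three`); the involution
`c ↦ (re, - imI, imJ, imK)` of `EM e` changes `(b * c).imJ` by `± 2 c1 b3`, which is `2 mod 4`
(`c1`, `b3` odd), so exactly half of the pairs have `(b * c).imJ = 2 mod 4` (it is always even).
MEMBERSHIP. `d e = 1 mod 8`: `b * c ∈ YY` iff `(b * c).imJ = 2 mod 4`; `d e = 5 mod 8`: `b * c ∈ ZZ` iff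
`(b * c).imJ = 2 mod 4`. Indeed `(b * c).imI = b0 c1 + b1 c0` (as `b2 = b3`, `c2 = c3`); type V: `imI` is
`0 mod 4` on `EM d` for `d = 1 mod 8` and `2 mod 4` for `d = 5 mod 8` (`typeV1`, `typeV5` with
`imJ = imK`, both even); type A: `b0 c1 + b1 c0` is `b0 + c0 mod 4`, `b0, c0 = 0, 2 mod 4` according to
`d, e = 3, 7 mod 8`. So `imI = 0 mod 4` if `d e = 1 mod 8` and `2 mod 4` if `d e = 5 mod 8`, and
then `typeV1`, `typeV5` for `b * c ∈ QQ (d * e)` give `imK = imJ mod 4`.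
-/

namespace Pool.Agent.TQH

open Pool.Agent.TQS Pool.Agent.TQG

private theorem mul_I (a b : H) :
    (a * b).imI = a.re * b.imI + a.imI * b.re + a.imJ * b.imK - a.imK * b.imJ := by
  simp

private theorem mul_J (a b : H) :
    (a * b).imJ = a.re * b.imJ - a.imI * b.imK + a.imJ * b.re + a.imK * b.imI := by
  simp

private theorem mm {x y : ℤ} (hx : x % 2 = 1) (hy : y % 2 = 0) : (x * y) % 4 = y % 4 := by
  obtain ⟨k, rfl⟩ : ∃ k, x = 2 * k + 1 := ⟨x / 2, by omega⟩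
  obtain ⟨l, rfl⟩ : ∃ l, y = 2 * l := ⟨y / 2, by omega⟩
  have : (2 * k + 1) * (2 * l) = 4 * (k * l) + 2 * l := by ring
  rw [this]
  omega

private theorem mm' {x y : ℤ} (hx : x % 2 = 0) (hy : y % 2 = 1) : (x * y) % 4 = x % 4 := by
  rw [mul_comm]
  exact mm hy hx

private theorem EM_fin (d : ℕ) : (EM d).Finite :=
  (bounded_finite d).subset (fun _ h => h.1.2.2.2)

private theorem I_eq {d e : ℕ} {b c : H} (hb : b ∈ EM d) (hc : c ∈ EM e) :
    (b * c).imI = b.re * c.imI + b.imI * c.re := by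
  rw [mul_I, hb.2, hc.2]
  ring

private theorem J_eq {d e : ℕ} {b c : H} (hb : b ∈ EM d) (hc : c ∈ EM e) :
    (b * c).imJ = (b.re - b.imI) * c.imJ + b.imJ * (c.re + c.imI) := by
  rw [mul_J, ← hb.2, ← hc.2]
  ring

private theorem mod4 {d e : ℕ} (h : (d * e) % 4 = 1) :
    (d % 4 = 1 ∧ e % 4 = 1) ∨ (d % 4 = 3 ∧ e % 4 = 3) := by
  have hd : d % 4 = 0 ∨ d % 4 = 1 ∨ d % 4 = 2 ∨ d % 4 = 3 := by omega
  have he : e % 4 = 0 ∨ e % 4 = 1 ∨ e % 4 = 2 ∨ e % 4 = 3 := by omega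
  rw [Nat.mul_mod] at h
  rcases hd with hd | hd | hd | hd <;> rcases he with he | he | he | he <;>
    rw [hd, he] at h <;> omega

private theorem J_V {d e : ℕ} (hd : d % 4 = 1) (he : e % 4 = 1) {b c : H} (hb : b ∈ EM d)
    (hc : c ∈ EM e) : (b * c).imJ % 4 = (b.imJ + c.imJ) % 4 := by
  obtain ⟨b1, b2, b3, b4⟩ := typeV hb.1 hd
  obtain ⟨c1, c2, c3, c4⟩ := typeV hc.1 he
  rw [J_eq hb hc]
  have e1 := mm (x := b.re - b.imI) (y := c.imJ) (by omega) c3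
  have e2 := mm' (x := b.imJ) (y := c.re + c.imI) b3 (by omega)
  omega

/-- the sign change of the first imaginary coordinate -/
private def fl (x : H × H) : H × H := (x.1, ⟨x.2.re, -x.2.imI, x.2.imJ, x.2.imK⟩)

private theorem fl_inj : Function.Injective fl := by
  rintro ⟨x1, x2⟩ ⟨y1, y2⟩ h
  unfold fl at h
  simp only [Prod.mk.injEq] at h
  obtain ⟨h1, h2⟩ := h
  refine Prod.ext h1 ?_
  have e1 := congrArg (fun q : H => q.re) h2
  have e2 := congrArg (fun q : H => q.imI) h2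
  have e3 := congrArg (fun q : H => q.imJ) h2
  have e4 := congrArg (fun q : H => q.imK) h2
  ext
  · exact e1
  · exact neg_inj.1 e2
  · exact e3
  · exact e4

private theorem fl_EM {e : ℕ} {c : H} (hc : c ∈ EM e) :
    (⟨c.re, -c.imI, c.imJ, c.imK⟩ : H) ∈ EM e := by
  obtain ⟨⟨h1, h2, h3, h4⟩, h5⟩ := hc
  refine ⟨⟨?_, ?_, ?_, ?_⟩, h5⟩
  · change (c.re + -c.imI) % 2 = 1
    omega
  · change (-c.imI + c.imJ) % 2 = 0
    omega
  · change (-c.imI + c.imK) % 2 = 0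
    omega
  · rw [Quaternion.normSq_def'] at h4 ⊢
    rw [← h4]
    ring

/-- the pairs with `imJ` of the product in a given class modulo 4 -/
private def PJ (d e : ℕ) (r : ℤ) : Set (H × H) :=
  {x : H × H | x.1 ∈ EM d ∧ x.2 ∈ EM e ∧ (x.1 * x.2).imJ % 4 = r}

private theorem PJ_fin (d e : ℕ) (r : ℤ) : (PJ d e r).Finite :=
  ((EM_fin d).prod (EM_fin e)).subset (fun _ h => ⟨h.1, h.2.1⟩)

private theorem A_step {d e : ℕ} (hd : d % 4 = 3) (he : e % 4 = 3) {x : H × H} (hx1 : x.1 ∈ EM d)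
    (hx2 : x.2 ∈ EM e) : (x.1 * x.2).imJ % 2 = 0 ∧
      ((fl x).1 * (fl x).2).imJ % 4 = ((x.1 * x.2).imJ + 2) % 4 := by
  obtain ⟨b1, b2, b3, b4⟩ := typeA hx1.1 hd
  obtain ⟨c1, c2, c3, c4⟩ := typeA hx2.1 he
  have e1 := J_eq hx1 hx2
  have e2 := J_eq hx1 (fl_EM hx2)
  have e3 : ((fl x).1 * (fl x).2).imJ = (x.1.re - x.1.imI) * x.2.imJ +
      x.1.imJ * (x.2.re + -x.2.imI) := e2
  rw [e3, e1]
  have o1 : ((x.1.re - x.1.imI) * x.2.imJ) % 2 = 1 := by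
    rw [Int.mul_emod]
    have : (x.1.re - x.1.imI) % 2 = 1 := by omega
    rw [this, c3]
    rfl
  have o2 : (x.1.imJ * (x.2.re + x.2.imI)) % 2 = 1 := by
    rw [Int.mul_emod]
    have : (x.2.re + x.2.imI) % 2 = 1 := by omega
    rw [this, b3]
    rfl
  have o3 : (x.1.imJ * x.2.imI) % 2 = 1 := by
    rw [Int.mul_emod, b3, c2]
    rfl
  have e4 : x.1.imJ * (x.2.re + -x.2.imI) = x.1.imJ * (x.2.re + x.2.imI) -
      2 * (x.1.imJ * x.2.imI) := by ring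
  rw [e4]
  generalize (x.1.re - x.1.imI) * x.2.imJ = u at *
  generalize x.1.imJ * (x.2.re + x.2.imI) = v at *
  generalize x.1.imJ * x.2.imI = w at *
  constructor
  · omega
  · omega

private theorem A_half {d e : ℕ} (hd : d % 4 = 3) (he : e % 4 = 3) :
    (PJ d e 0).ncard = (PJ d e 2).ncard := by
  have i1 : ∀ r s : ℤ, (∀ z : ℤ, z % 4 = r → (z + 2) % 4 = s) →
      (PJ d e r).ncard ≤ (PJ d e s).ncard := by
    intro r s hrs
    refine Set.ncard_le_ncard_of_injOn fl ?_ fl_inj.injOn (PJ_fin d e s)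
    rintro x ⟨h1, h2, h3⟩
    refine ⟨h1, fl_EM h2, ?_⟩
    rw [(A_step hd he h1 h2).2]
    exact hrs _ h3
  refine le_antisymm (i1 0 2 ?_) (i1 2 0 ?_)
  · intro z hz
    omega
  · intro z hz
    omega

private theorem split_J (A : Set (H × H)) (hA : A.Finite)
    (h : ∀ x ∈ A, (x.1 * x.2).imJ % 2 = 0) :
    A.ncard = {x : H × H | x ∈ A ∧ (x.1 * x.2).imJ % 4 = 0}.ncard +
      {x : H × H | x ∈ A ∧ (x.1 * x.2).imJ % 4 = 2}.ncard := by
  rw [← Set.ncard_union_eq ?_ (hA.subset fun _ h => h.1) (hA.subset fun _ h => h.1)]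
  · congr 1
    ext x
    constructor
    · intro hx
      have := h x hx
      rcases (by omega : (x.1 * x.2).imJ % 4 = 0 ∨ (x.1 * x.2).imJ % 4 = 2) with h4 | h4
      · exact Or.inl ⟨hx, h4⟩
      · exact Or.inr ⟨hx, h4⟩
    · rintro (h1 | h1)
      · exact h1.1
      · exact h1.1
  · rw [Set.disjoint_left]
    rintro a ⟨_, h1⟩ ⟨_, h2⟩
    omega

private theorem EM_split {d : ℕ} (h : d % 4 = 1) : (EM d).ncard =
    {x : H | x ∈ EM d ∧ x.imJ % 4 = 0}.ncard + {x : H | x ∈ EM d ∧ x.imJ % 4 = 2}.ncard := by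
  rw [← Set.ncard_union_eq ?_ ((EM_fin d).subset fun _ h => h.1)
    ((EM_fin d).subset fun _ h => h.1)]
  · congr 1
    ext x
    constructor
    · intro hx
      have := (typeV hx.1 h).2.2.1
      rcases (by omega : x.imJ % 4 = 0 ∨ x.imJ % 4 = 2) with h4 | h4
      · exact Or.inl ⟨hx, h4⟩
      · exact Or.inr ⟨hx, h4⟩
    · rintro (h1 | h1)
      · exact h1.1
      · exact h1.1
  · rw [Set.disjoint_left]
    rintro a ⟨_, h1⟩ ⟨_, h2⟩
    omega

theorem pairs {d e : ℕ} (h : (d * e) % 4 = 1) :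
    2 * (Nat.card {x : H × H | x.1 ∈ EM d ∧ x.2 ∈ EM e ∧ (x.1 * x.2).imJ % 4 = 2} : ℤ) =
      (Nat.card (EM d) : ℤ) * (Nat.card (EM e) : ℤ) - cd d * cd e := by
  rcases mod4 h with ⟨hd, he⟩ | ⟨hd, he⟩
  · rw [cd_diff hd, cd_diff he]
    simp only [Nat.card_coe_set_eq]
    rw [EM_split hd, EM_split he]
    have e1 : {x : H × H | x.1 ∈ EM d ∧ x.2 ∈ EM e ∧ (x.1 * x.2).imJ % 4 = 2} =
        ({x : H | x ∈ EM d ∧ x.imJ % 4 = 0} ×ˢ {x : H | x ∈ EM e ∧ x.imJ % 4 = 2}) ∪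
        ({x : H | x ∈ EM d ∧ x.imJ % 4 = 2} ×ˢ {x : H | x ∈ EM e ∧ x.imJ % 4 = 0}) := by
      ext ⟨b, c⟩
      constructor
      · rintro ⟨hb, hc, hj⟩
        replace hb : b ∈ EM d := hb
        replace hc : c ∈ EM e := hc
        have hb2 := (typeV hb.1 hd).2.2.1
        have hc2 := (typeV hc.1 he).2.2.1
        have hj2 := J_V hd he hb hc
        have hj3 : (b * c).imJ % 4 = 2 := hj
        rw [hj3] at hj2
        rcases (by omega : b.imJ % 4 = 0 ∨ b.imJ % 4 = 2) with h4 | h4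
        · have h5 : c.imJ % 4 = 2 := by omega
          exact Or.inl ⟨⟨hb, h4⟩, ⟨hc, h5⟩⟩
        · have h5 : c.imJ % 4 = 0 := by omega
          exact Or.inr ⟨⟨hb, h4⟩, ⟨hc, h5⟩⟩
      · rintro (⟨⟨hb, h1⟩, ⟨hc, h2⟩⟩ | ⟨⟨hb, h1⟩, ⟨hc, h2⟩⟩)
        · replace hb : b ∈ EM d := hb
          replace hc : c ∈ EM e := hc
          refine ⟨hb, hc, ?_⟩
          have hj2 := J_V hd he hb hc
          change (b * c).imJ % 4 = 2
          have h1' : b.imJ % 4 = 0 := h1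
          have h2' : c.imJ % 4 = 2 := h2
          omega
        · replace hb : b ∈ EM d := hb
          replace hc : c ∈ EM e := hc
          refine ⟨hb, hc, ?_⟩
          have hj2 := J_V hd he hb hc
          change (b * c).imJ % 4 = 2
          have h1' : b.imJ % 4 = 2 := h1
          have h2' : c.imJ % 4 = 0 := h2
          omega
    have fd : ∀ r : ℤ, ({x : H | x ∈ EM d ∧ x.imJ % 4 = r}).Finite := fun r =>
      (EM_fin d).subset fun _ h => h.1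
    have fe : ∀ r : ℤ, ({x : H | x ∈ EM e ∧ x.imJ % 4 = r}).Finite := fun r =>
      (EM_fin e).subset fun _ h => h.1
    have hdis : Disjoint
        ({x : H | x ∈ EM d ∧ x.imJ % 4 = 0} ×ˢ {x : H | x ∈ EM e ∧ x.imJ % 4 = 2})
        ({x : H | x ∈ EM d ∧ x.imJ % 4 = 2} ×ˢ {x : H | x ∈ EM e ∧ x.imJ % 4 = 0}) := by
      rw [Set.disjoint_left]
      rintro ⟨b, c⟩ ⟨⟨_, h1⟩, _⟩ ⟨⟨_, h2⟩, _⟩
      have h1' : b.imJ % 4 = 0 := h1
      have h2' : b.imJ % 4 = 2 := h2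
      omega
    rw [e1, Set.ncard_union_eq hdis ((fd 0).prod (fe 2)) ((fd 2).prod (fe 0)), Set.ncard_prod,
      Set.ncard_prod]
    push_cast
    ring
  · rw [cd_three hd]
    simp only [Nat.card_coe_set_eq]
    have h1 := split_J (EM d ×ˢ EM e) ((EM_fin d).prod (EM_fin e))
      (fun x hx => (A_step hd he hx.1 hx.2).1)
    rw [Set.ncard_prod] at h1
    have h2 : ∀ r : ℤ, {x : H × H | x ∈ EM d ×ˢ EM e ∧ (x.1 * x.2).imJ % 4 = r} = PJ d e r := by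
      intro r
      ext x
      constructor
      · rintro ⟨⟨h1, h2⟩, h3⟩
        exact ⟨h1, h2, h3⟩
      · rintro ⟨h1, h2, h3⟩
        exact ⟨⟨h1, h2⟩, h3⟩
    rw [h2, h2, A_half hd he] at h1
    change 2 * ((PJ d e 2).ncard : ℤ) = _
    have h3 : ((EM d).ncard : ℤ) * ((EM e).ncard : ℤ) = (PJ d e 2).ncard + (PJ d e 2).ncard := by
      exact_mod_cast h1
    rw [h3]
    ring

private theorem mod8 {d e : ℕ} (h : (d * e) % 8 = 1) :
    (d % 8 = 1 ∧ e % 8 = 1) ∨ (d % 8 = 3 ∧ e % 8 = 3) ∨ (d % 8 = 5 ∧ e % 8 = 5) ∨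
      (d % 8 = 7 ∧ e % 8 = 7) := by
  have hd : d % 8 = 0 ∨ d % 8 = 1 ∨ d % 8 = 2 ∨ d % 8 = 3 ∨ d % 8 = 4 ∨ d % 8 = 5 ∨ d % 8 = 6 ∨
    d % 8 = 7 := by omega
  have he : e % 8 = 0 ∨ e % 8 = 1 ∨ e % 8 = 2 ∨ e % 8 = 3 ∨ e % 8 = 4 ∨ e % 8 = 5 ∨ e % 8 = 6 ∨
    e % 8 = 7 := by omega
  rw [Nat.mul_mod] at h
  rcases hd with hd | hd | hd | hd | hd | hd | hd | hd <;>
    rcases he with he | he | he | he | he | he | he | he <;>
    rw [hd, he] at h <;> omega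

private theorem mod85 {d e : ℕ} (h : (d * e) % 8 = 5) :
    (d % 8 = 1 ∧ e % 8 = 5) ∨ (d % 8 = 5 ∧ e % 8 = 1) ∨ (d % 8 = 3 ∧ e % 8 = 7) ∨
      (d % 8 = 7 ∧ e % 8 = 3) := by
  have hd : d % 8 = 0 ∨ d % 8 = 1 ∨ d % 8 = 2 ∨ d % 8 = 3 ∨ d % 8 = 4 ∨ d % 8 = 5 ∨ d % 8 = 6 ∨
    d % 8 = 7 := by omega
  have he : e % 8 = 0 ∨ e % 8 = 1 ∨ e % 8 = 2 ∨ e % 8 = 3 ∨ e % 8 = 4 ∨ e % 8 = 5 ∨ e % 8 = 6 ∨
    e % 8 = 7 := by omega
  rw [Nat.mul_mod] at h
  rcases hd with hd | hd | hd | hd | hd | hd | hd | hd <;>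
    rcases he with he | he | he | he | he | he | he | he <;>
    rw [hd, he] at h <;> omega

private theorem cl1 {d : ℕ} {b : H} (hb : b ∈ EM d) (h : d % 8 = 1) :
    b.re % 2 = 1 ∧ b.imI % 4 = 0 := by
  obtain ⟨b1, b2, b3, b4⟩ := typeV hb.1 (by omega)
  have := typeV1 hb.1 h
  have h2 := hb.2
  omega

private theorem cl5 {d : ℕ} {b : H} (hb : b ∈ EM d) (h : d % 8 = 5) :
    b.re % 2 = 1 ∧ b.imI % 4 = 2 := by
  obtain ⟨b1, b2, b3, b4⟩ := typeV hb.1 (by omega)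
  have := typeV5 hb.1 h
  have h2 := hb.2
  omega

private theorem cl3 {d : ℕ} {b : H} (hb : b ∈ EM d) (h : d % 8 = 3) :
    b.re % 4 = 0 ∧ b.imI % 2 = 1 := by
  obtain ⟨b1, b2, b3, b4⟩ := typeA hb.1 (by omega)
  have := typeA3 hb.1 h
  omega

private theorem cl7 {d : ℕ} {b : H} (hb : b ∈ EM d) (h : d % 8 = 7) :
    b.re % 4 = 2 ∧ b.imI % 2 = 1 := by
  obtain ⟨b1, b2, b3, b4⟩ := typeA hb.1 (by omega)
  have := typeA7 hb.1 h
  omega

private theorem I_1 {d e : ℕ} (h : (d * e) % 8 = 1) {b c : H} (hb : b ∈ EM d) (hc : c ∈ EM e) :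
    (b * c).imI % 4 = 0 := by
  rw [I_eq hb hc]
  rcases mod8 h with ⟨hd, he⟩ | ⟨hd, he⟩ | ⟨hd, he⟩ | ⟨hd, he⟩
  · have k1 := cl1 hb hd
    have k2 := cl1 hc he
    have m1 := mm (x := b.re) (y := c.imI) (by omega) (by omega)
    have m2 := mm' (x := b.imI) (y := c.re) (by omega) (by omega)
    omega
  · have k1 := cl3 hb hd
    have k2 := cl3 hc he
    have m1 := mm' (x := b.re) (y := c.imI) (by omega) (by omega)
    have m2 := mm (x := b.imI) (y := c.re) (by omega) (by omega)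
    omega
  · have k1 := cl5 hb hd
    have k2 := cl5 hc he
    have m1 := mm (x := b.re) (y := c.imI) (by omega) (by omega)
    have m2 := mm' (x := b.imI) (y := c.re) (by omega) (by omega)
    omega
  · have k1 := cl7 hb hd
    have k2 := cl7 hc he
    have m1 := mm' (x := b.re) (y := c.imI) (by omega) (by omega)
    have m2 := mm (x := b.imI) (y := c.re) (by omega) (by omega)
    omega

private theorem I_5 {d e : ℕ} (h : (d * e) % 8 = 5) {b c : H} (hb : b ∈ EM d) (hc : c ∈ EM e) :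
    (b * c).imI % 4 = 2 := by
  rw [I_eq hb hc]
  rcases mod85 h with ⟨hd, he⟩ | ⟨hd, he⟩ | ⟨hd, he⟩ | ⟨hd, he⟩
  · have k1 := cl1 hb hd
    have k2 := cl5 hc he
    have m1 := mm (x := b.re) (y := c.imI) (by omega) (by omega)
    have m2 := mm' (x := b.imI) (y := c.re) (by omega) (by omega)
    omega
  · have k1 := cl5 hb hd
    have k2 := cl1 hc he
    have m1 := mm (x := b.re) (y := c.imI) (by omega) (by omega)
    have m2 := mm' (x := b.imI) (y := c.re) (by omega) (by omega)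
    omega
  · have k1 := cl3 hb hd
    have k2 := cl7 hc he
    have m1 := mm' (x := b.re) (y := c.imI) (by omega) (by omega)
    have m2 := mm (x := b.imI) (y := c.re) (by omega) (by omega)
    omega
  · have k1 := cl7 hb hd
    have k2 := cl3 hc he
    have m1 := mm' (x := b.re) (y := c.imI) (by omega) (by omega)
    have m2 := mm (x := b.imI) (y := c.re) (by omega) (by omega)
    omega

private theorem neg_YY (x : H) : -x ∈ YY ↔ x ∈ YY := by
  unfold YY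
  simp only [Set.mem_ofPred_eq, Quaternion.imI_neg, Quaternion.imJ_neg, Quaternion.imK_neg]
  omega

private theorem neg_ZZ (x : H) : -x ∈ ZZ ↔ x ∈ ZZ := by
  unfold ZZ
  simp only [Set.mem_ofPred_eq, Quaternion.imI_neg, Quaternion.imJ_neg, Quaternion.imK_neg]
  omega

theorem fa_M {P S : Finset ℕ} (hP : OP P) (h1 : pp P % 8 = 1) (hS : S ⊆ P) :
    8 * (FA gM P S : ℤ) =
      (Nat.card (EM (pp S)) : ℤ) * (Nat.card (EM (pp (P \ S))) : ℤ) - cd (pp S) * cd (pp (P \ S)) := by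
  have hpp := pp_sdiff hS
  have hde : (pp S * pp (P \ S)) % 8 = 1 := by rw [hpp]; exact h1
  have h2 := pairs (d := pp S) (e := pp (P \ S)) (by omega)
  have h3 := fixM hP (by omega) hS YY neg_YY
  have h4 : {x : H × H | x.1 ∈ EM (pp S) ∧ x.2 ∈ EM (pp (P \ S)) ∧ x.1 * x.2 ∈ YY} =
      {x : H × H | x.1 ∈ EM (pp S) ∧ x.2 ∈ EM (pp (P \ S)) ∧ (x.1 * x.2).imJ % 4 = 2} := by
    ext x
    constructor
    · rintro ⟨hb, hc, hy⟩
      exact ⟨hb, hc, hy.2.1⟩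
    · rintro ⟨hb, hc, hj⟩
      have i1 := I_1 hde hb hc
      have i2 := typeV1 (mul_QQ hb.1 hc.1) hde
      exact ⟨hb, hc, i1, hj, by omega⟩
  rw [h4] at h3
  rw [← h2, ← h3]
  unfold FA
  push_cast
  ring

theorem fb_M {P S : Finset ℕ} (hP : OP P) (h5 : pp P % 8 = 5) (hS : S ⊆ P) :
    8 * (FB P S : ℤ) =
      (Nat.card (EM (pp S)) : ℤ) * (Nat.card (EM (pp (P \ S))) : ℤ) - cd (pp S) * cd (pp (P \ S)) := by
  have hpp := pp_sdiff hS
  have hde : (pp S * pp (P \ S)) % 8 = 5 := by rw [hpp]; exact h5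
  have h2 := pairs (d := pp S) (e := pp (P \ S)) (by omega)
  have h3 := fixM hP (by omega) hS ZZ neg_ZZ
  have h4 : {x : H × H | x.1 ∈ EM (pp S) ∧ x.2 ∈ EM (pp (P \ S)) ∧ x.1 * x.2 ∈ ZZ} =
      {x : H × H | x.1 ∈ EM (pp S) ∧ x.2 ∈ EM (pp (P \ S)) ∧ (x.1 * x.2).imJ % 4 = 2} := by
    ext x
    constructor
    · rintro ⟨hb, hc, hy⟩
      exact ⟨hb, hc, hy.2.1⟩
    · rintro ⟨hb, hc, hj⟩
      have i1 := I_5 hde hb hc
      have i2 := typeV5 (mul_QQ hb.1 hc.1) hde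
      exact ⟨hb, hc, i1, hj, by omega⟩
  rw [h4] at h3
  rw [← h2, ← h3]
  unfold FB
  push_cast
  ring

end Pool.Agent.TQH
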