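import Pool.Agent.TQH.Fix

/-!
Project TQH, module PCO: `FA 1` in terms of pure quaternions, for `pp P = 1 mod 8`, `P ≠ ∅`.

`fix1` with `Z = YY`: `4 * FA 1 P S` = number of pairs `(b, c) ∈ PQ d × PQ e` with `b * c ∈ YY`; to show
`4 * pairs = |PQ d| |PQ e|`. If `PQ d` or `PQ e` is empty both sides vanish; otherwise
`d = e = 3 mod 8` and all imaginary coordinates are odd (`typeA`). The group `{1, -1}^3` acts on `PQ d`
by changing the signs of the coordinates of `b`. For fixed `c` and `b`, the coordinates of `b * c` are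
`imI = b2 c3 - b3 c2`, `imJ = b3 c1 - b1 c3`, `imK = b1 c2 - b2 c1`, all even; `imI = 0 mod 4` iff
`b2 b3 = c2 c3 mod 4` (for odd numbers: `b2 c3 = b3 c2 mod 4`), etc. So `b * c ∈ YY` iff
`b2 b3 = c2 c3` and `b3 b1 ≠ c3 c1` (and then `b1 b2 ≠ c1 c2`) modulo 4. Changing the sign of `b1`
exchanges `b3 b1 = c3 c1` and `b3 b1 ≠ c3 c1` (and keeps `b2 b3`): so exactly half of the pairs with
`b2 b3 = c2 c3` are in `YY`; changing the sign of `b2` exchanges `b2 b3 = c2 c3` and
`b2 b3 ≠ c2 c3`: so exactly half of all pairs have `b2 b3 = c2 c3`.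
-/

namespace Pool.Agent.TQH

open Pool.Agent.TQS Pool.Agent.TQG

private theorem odd_four {x : ℤ} (h : x % 2 = 1) : x % 4 = 1 ∨ x % 4 = 3 := by omega

private theorem yy_iff {b1 b2 b3 c1 c2 c3 : ℤ} (h1 : b1 % 2 = 1) (h2 : b2 % 2 = 1)
    (h3 : b3 % 2 = 1) (k1 : c1 % 2 = 1) (k2 : c2 % 2 = 1) (k3 : c3 % 2 = 1) :
    ((b2 * c3 - b3 * c2) % 4 = 0 ∧ (b3 * c1 - b1 * c3) % 4 = 2 ∧ (b1 * c2 - b2 * c1) % 4 = 2) ↔
      ((b2 * b3 - c2 * c3) % 4 = 0 ∧ (b1 * b3 - c1 * c3) % 4 = 2) := by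
  rcases odd_four h1 with h1 | h1 <;> rcases odd_four h2 with h2 | h2 <;>
    rcases odd_four h3 with h3 | h3 <;> rcases odd_four k1 with k1 | k1 <;>
    rcases odd_four k2 with k2 | k2 <;> rcases odd_four k3 with k3 | k3 <;>
    simp [Int.sub_emod, Int.mul_emod, h1, h2, h3, k1, k2, k3]

private theorem prod_odd {x y : ℤ} (hx : x % 2 = 1) (hy : y % 2 = 1) :
    (x * y) % 4 = 1 ∨ (x * y) % 4 = 3 := by
  rcases odd_four hx with h | h <;> rcases odd_four hy with k | k <;>
    simp [Int.mul_emod, h, k]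

/-- Changes of signs of the first two imaginary coordinates. -/
private def flp2 (s t : Bool) (b : H) : H :=
  ⟨b.re, if s then -b.imI else b.imI, if t then -b.imJ else b.imJ, b.imK⟩

private theorem flp2_flp2 (s t : Bool) (b : H) : flp2 s t (flp2 s t b) = b := by
  cases s <;> cases t <;> simp [flp2]

private theorem flp2_PQ (s t : Bool) {d : ℕ} {b : H} (hb : b ∈ PQ d) : flp2 s t b ∈ PQ d := by
  obtain ⟨⟨h1, h2, h3, h4⟩, h5⟩ := hb
  rw [normSq_eq] at h4
  refine ⟨⟨?_, ?_, ?_, ?_⟩, h5⟩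
  · cases s <;> simp only [flp2, if_true, if_false, Bool.false_eq_true] <;> omega
  · cases s <;> cases t <;> simp only [flp2, if_true, if_false, Bool.false_eq_true] <;> omega
  · cases s <;> simp only [flp2, if_true, if_false, Bool.false_eq_true] <;> omega
  · rw [normSq_eq, ← h4]
    cases s <;> cases t <;> simp only [flp2, if_true, if_false, Bool.false_eq_true] <;> ring

/-- The two conditions. -/
private def cA (x : H × H) : Prop := (x.1.imJ * x.1.imK - x.2.imJ * x.2.imK) % 4 = 0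

private def cB (x : H × H) : Prop := (x.1.imI * x.1.imK - x.2.imI * x.2.imK) % 4 = 2

private theorem pure_odd {d : ℕ} (hd : d % 2 = 1) {b : H} (hb : b ∈ PQ d) :
    b.imI % 2 = 1 ∧ b.imJ % 2 = 1 ∧ b.imK % 2 = 1 := by
  obtain ⟨⟨h1, h2, h3, h4⟩, h5⟩ := hb
  rw [h5] at h1
  omega

private theorem mem_iff {d e : ℕ} (hd : d % 2 = 1) (he : e % 2 = 1) {b c : H} (hb : b ∈ PQ d)
    (hc : c ∈ PQ e) : b * c ∈ YY ↔ cA (b, c) ∧ cB (b, c) := by
  obtain ⟨b1, b2, b3⟩ := pure_odd hd hb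
  obtain ⟨c1, c2, c3⟩ := pure_odd he hc
  rw [YY, Set.mem_ofPred_eq, Quaternion.imI_mul, Quaternion.imJ_mul, Quaternion.imK_mul,
    hb.2, hc.2]
  have h := yy_iff b1 b2 b3 c1 c2 c3
  have e1 : 0 * c.imI + b.imI * 0 + b.imJ * c.imK - b.imK * c.imJ =
      b.imJ * c.imK - b.imK * c.imJ := by ring
  have e2 : 0 * c.imJ - b.imI * c.imK + b.imJ * 0 + b.imK * c.imI =
      b.imK * c.imI - b.imI * c.imK := by ring
  have e3 : 0 * c.imK + b.imI * c.imJ - b.imJ * c.imI + b.imK * 0 =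
      b.imI * c.imJ - b.imJ * c.imI := by ring
  rw [e1, e2, e3, h]
  rfl

private theorem quarter {d e : ℕ} (hd : d % 2 = 1) (he : e % 2 = 1) :
    4 * Nat.card {x : H × H | x.1 ∈ PQ d ∧ x.2 ∈ PQ e ∧ x.1 * x.2 ∈ YY} =
      Nat.card (PQ d) * Nat.card (PQ e) := by
  have h0 : Nat.card ((Bool × Bool) × {x : H × H | x.1 ∈ PQ d ∧ x.2 ∈ PQ e ∧ x.1 * x.2 ∈ YY}) =
      4 * Nat.card {x : H × H | x.1 ∈ PQ d ∧ x.2 ∈ PQ e ∧ x.1 * x.2 ∈ YY} := by
    rw [Nat.card_prod, Nat.card_prod]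
    simp
  rw [← h0, ← Nat.card_prod]
  refine Nat.card_congr (Equiv.ofBijective
    (fun z => ((⟨flp2 z.1.1 z.1.2 z.2.1.1, flp2_PQ _ _ z.2.2.1⟩ : PQ d),
      (⟨z.2.1.2, z.2.2.2.1⟩ : PQ e))) ⟨?_, ?_⟩)
  · rintro ⟨⟨s, t⟩, ⟨b, c⟩, hb, hc, hy⟩ ⟨⟨s', t'⟩, ⟨b', c'⟩, hb', hc', hy'⟩ h
    simp only [Prod.mk.injEq, Subtype.mk.injEq] at h
    obtain ⟨h1, h2⟩ := h
    subst h2
    simp only at hb hc hy hb' hc' hy'
    obtain ⟨hA, hB⟩ := (mem_iff hd he hb hc).1 hy
    obtain ⟨hA', hB'⟩ := (mem_iff hd he hb' hc).1 hy'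
    simp only [cA, cB] at hA hB hA' hB'
    obtain ⟨b1, b2, b3⟩ := pure_odd hd hb
    obtain ⟨b1', b2', b3'⟩ := pure_odd hd hb'
    have q1 := prod_odd b1 b3
    have q2 := prod_odd b2 b3
    have q1' := prod_odd b1' b3'
    have q2' := prod_odd b2' b3'
    have g1 := congrArg QuaternionAlgebra.imI h1
    have g2 := congrArg QuaternionAlgebra.imJ h1
    have g3 := congrArg QuaternionAlgebra.imK h1
    simp only [flp2] at g1 g2 g3
    have hst : s = s' ∧ t = t' := by
      rw [g3] at hA hB q1 q2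
      cases s <;> cases t <;> cases s' <;> cases t' <;>
        simp only [if_true, if_false, Bool.false_eq_true] at g1 g2 <;>
        first
          | exact ⟨rfl, rfl⟩
          | (exfalso
             first
               | (have r : b.imI * b'.imK = -(b'.imI * b'.imK) := by
                    first
                      | rw [g1]; ring
                      | (have : b.imI = -b'.imI := by omega
                         rw [this]; ring)
                  omega)
               | (have r : b.imJ * b'.imK = -(b'.imJ * b'.imK) := by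
                    first
                      | rw [g2]; ring
                      | (have : b.imJ = -b'.imJ := by omega
                         rw [this]; ring)
                  omega))
    obtain ⟨rfl, rfl⟩ := hst
    have hbb : b = b' := by
      have := congrArg (flp2 s t) h1
      rwa [flp2_flp2, flp2_flp2] at this
    subst hbb
    rfl
  · rintro ⟨⟨b, hb⟩, ⟨c, hc⟩⟩
    obtain ⟨b1, b2, b3⟩ := pure_odd hd hb
    obtain ⟨c1, c2, c3⟩ := pure_odd he hc
    have q1 := prod_odd b1 b3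
    have q2 := prod_odd b2 b3
    have q3 := prod_odd c1 c3
    have q4 := prod_odd c2 c3
    have key : ∃ s t : Bool, flp2 s t b * c ∈ YY := by
      have hs : ∃ s : Bool, ((if s then -b.imI else b.imI) * b.imK - c.imI * c.imK) % 4 = 2 := by
        by_cases h : (b.imI * b.imK - c.imI * c.imK) % 4 = 2
        · exact ⟨false, by simpa using h⟩
        · refine ⟨true, ?_⟩
          simp only [if_true, neg_mul]
          omega
      have ht : ∃ t : Bool, ((if t then -b.imJ else b.imJ) * b.imK - c.imJ * c.imK) % 4 = 0 := by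
        by_cases h : (b.imJ * b.imK - c.imJ * c.imK) % 4 = 0
        · exact ⟨false, by simpa using h⟩
        · refine ⟨true, ?_⟩
          simp only [if_true, neg_mul]
          omega
      obtain ⟨s, hs⟩ := hs
      obtain ⟨t, ht⟩ := ht
      exact ⟨s, t, (mem_iff hd he (flp2_PQ s t hb) hc).2 ⟨ht, hs⟩⟩
    obtain ⟨s, t, hy⟩ := key
    refine ⟨((s, t), ⟨(flp2 s t b, c), flp2_PQ s t hb, hc, hy⟩), ?_⟩
    simp only [flp2_flp2]

theorem fa_1 {P S : Finset ℕ} (hP : OP P) (hne : P.Nonempty) (h1 : pp P % 8 = 1) (hS : S ⊆ P) :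
    16 * FA 1 P S = Nat.card (PQ (pp S)) * Nat.card (PQ (pp (P \ S))) := by
  have h := fix1 hP hne (by omega) hS YY (by
    intro x
    simp only [YY, Set.mem_ofPred_eq, Quaternion.imI_neg, Quaternion.imJ_neg, Quaternion.imK_neg]
    omega)
  have h2 := quarter (pp_odd (hP.mono hS)) (pp_odd (hP.mono (Finset.sdiff_subset (s := P) (t := S))))
  rw [← h2, ← h, FA]
  ring

end Pool.Agent.TQH
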