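import Pool.Agent.TQH.Swp

/-!
Project TQH, module INV: the swaps modulo 8. Model: TQG/Inv.lean.

Write `a = b * c` (`left_exists`), `so S a = c * b`. `m = pp P = pp S * pp (P \ S)`.
TYPE V: `pp S = 1 mod 4` (and `pp (P \ S) = 1 mod 4`): imaginary coordinates of `b`, `c` even (`typeV`);
`im (c * b) - im (b * c) = ± 2 (b_i c_j - b_j c_i)`, divisible by 8: `im (so S a) = im a mod 8`.
TYPE A: `pp S = pp (P \ S) = 3 mod 4`: real parts even, imaginary coordinates odd (`typeA`);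
`im (c * b) + im (b * c) = 2 (b_0 c_i + b_i c_0)`.
`m = 1 mod 8` (`so_im`): in type A both numbers are `3` or both are `7` mod 8 and `b_0 = c_0 mod 4`
(`typeA3`, `typeA7`), so `b_0 c_i + b_i c_0 = 0 mod 4`, and `im (so S a) = - im a mod 8`.
`m = 5 mod 8` (`so_im5`): in type A one is `3`, one is `7` mod 8, `b_0 c_i + b_i c_0 = 2 mod 4`, and
`im (so S a) = 4 - im a mod 8`, which is `im a mod 8` when `im a = 2 mod 4` (`a ∈ ZZ`).
`fb_half`: let `a ∈ NN (pp P) ∩ ZZ` with `star (act gM (so S a)) = a`. As `im (so S a) = im a mod 8`,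
`(imI, imK, imJ) = (imI, imJ, imK) mod 8`, so `imJ * imK = 4 mod 16`; so `imI * imJ` is `4` (then
`a ∈ ZP`) or `12` mod 16 (write `imI = 2 u` etc.). The involution `a ↦ act gP a`,
`(re, - imI, imK, imJ)`, of these fixed points (`so_act`; it commutes with `star ∘ act gM`) exchanges
the two cases.
-/

namespace Pool.Agent.TQH

open Pool.Agent.TQS Pool.Agent.TQG

private lemma inv_even {x y z w : ℤ} (hx : x % 2 = 0) (hy : y % 2 = 0) (hz : z % 2 = 0)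
    (hw : w % 2 = 0) : (2 * (x * y - z * w)) % 8 = 0 := by
  obtain ⟨x', rfl⟩ := Int.dvd_of_emod_eq_zero hx
  obtain ⟨y', rfl⟩ := Int.dvd_of_emod_eq_zero hy
  obtain ⟨z', rfl⟩ := Int.dvd_of_emod_eq_zero hz
  obtain ⟨w', rfl⟩ := Int.dvd_of_emod_eq_zero hw
  exact Int.emod_eq_zero_of_dvd ⟨x' * y' - z' * w', by ring⟩

private lemma inv_odd2 {x y z w : ℤ} (hx : x % 4 = 2) (hy : y % 2 = 1) (hz : z % 2 = 1)
    (hw : w % 4 = 2) : (2 * (x * y + z * w)) % 8 = 0 := by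
  obtain ⟨x', rfl⟩ : ∃ k, x = 4 * k + 2 := ⟨x / 4, by omega⟩
  obtain ⟨y', rfl⟩ : ∃ k, y = 2 * k + 1 := ⟨y / 2, by omega⟩
  obtain ⟨z', rfl⟩ : ∃ k, z = 2 * k + 1 := ⟨z / 2, by omega⟩
  obtain ⟨w', rfl⟩ : ∃ k, w = 4 * k + 2 := ⟨w / 4, by omega⟩
  exact Int.emod_eq_zero_of_dvd
    ⟨x' * (2 * y' + 1) + y' + z' + 1 + w' * (2 * z' + 1), by ring⟩

private lemma inv_odd0 {x y z w : ℤ} (hx : x % 4 = 0)
    (hw : w % 4 = 0) : (2 * (x * y + z * w)) % 8 = 0 := by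
  obtain ⟨x', rfl⟩ := Int.dvd_of_emod_eq_zero hx
  obtain ⟨w', rfl⟩ := Int.dvd_of_emod_eq_zero hw
  exact Int.emod_eq_zero_of_dvd ⟨x' * y + z * w', by ring⟩

private lemma inv_odd4 {x y z w : ℤ} (hx : x % 4 = 0) (hz : z % 2 = 1)
    (hw : w % 4 = 2) : (2 * (x * y + z * w)) % 8 = 4 := by
  obtain ⟨x', rfl⟩ := Int.dvd_of_emod_eq_zero hx
  obtain ⟨z', rfl⟩ : ∃ k, z = 2 * k + 1 := ⟨z / 2, by omega⟩
  obtain ⟨w', rfl⟩ : ∃ k, w = 4 * k + 2 := ⟨w / 4, by omega⟩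
  have : 2 * (4 * x' * y + (2 * z' + 1) * (4 * w' + 2)) =
      8 * (x' * y + z' * (2 * w' + 1) + w') + 4 := by ring
  omega

private lemma inv_V {m n : ℕ} {b c : H} (hm : m % 4 = 1) (hn : n % 4 = 1) (hb : b ∈ QQ m)
    (hc : c ∈ QQ n) :
    ((c * b).imI - (b * c).imI) % 8 = 0 ∧ ((c * b).imJ - (b * c).imJ) % 8 = 0 ∧
      ((c * b).imK - (b * c).imK) % 8 = 0 := by
  obtain ⟨-, b1, b2, b3⟩ := typeV hb hm
  obtain ⟨-, c1, c2, c3⟩ := typeV hc hn
  refine ⟨?_, ?_, ?_⟩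
  · have e : (c * b).imI - (b * c).imI = 2 * (c.imJ * b.imK - c.imK * b.imJ) := by
      rw [Quaternion.imI_mul, Quaternion.imI_mul]
      ring
    rw [e]
    exact inv_even c2 b3 c3 b2
  · have e : (c * b).imJ - (b * c).imJ = 2 * (c.imK * b.imI - c.imI * b.imK) := by
      rw [Quaternion.imJ_mul, Quaternion.imJ_mul]
      ring
    rw [e]
    exact inv_even c3 b1 c1 b3
  · have e : (c * b).imK - (b * c).imK = 2 * (c.imI * b.imJ - c.imJ * b.imI) := by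
      rw [Quaternion.imK_mul, Quaternion.imK_mul]
      ring
    rw [e]
    exact inv_even c1 b2 c2 b1

private lemma inv_A {b c : H} {r : ℤ}
    (hI : (2 * (c.re * b.imI + c.imI * b.re)) % 8 = r)
    (hJ : (2 * (c.re * b.imJ + c.imJ * b.re)) % 8 = r)
    (hK : (2 * (c.re * b.imK + c.imK * b.re)) % 8 = r) :
    ((c * b).imI + (b * c).imI) % 8 = r ∧ ((c * b).imJ + (b * c).imJ) % 8 = r ∧
      ((c * b).imK + (b * c).imK) % 8 = r := by
  refine ⟨?_, ?_, ?_⟩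
  · have e : (c * b).imI + (b * c).imI = 2 * (c.re * b.imI + c.imI * b.re) := by
      rw [Quaternion.imI_mul, Quaternion.imI_mul]
      ring
    rw [e]
    exact hI
  · have e : (c * b).imJ + (b * c).imJ = 2 * (c.re * b.imJ + c.imJ * b.re) := by
      rw [Quaternion.imJ_mul, Quaternion.imJ_mul]
      ring
    rw [e]
    exact hJ
  · have e : (c * b).imK + (b * c).imK = 2 * (c.re * b.imK + c.imK * b.re) := by
      rw [Quaternion.imK_mul, Quaternion.imK_mul]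
      ring
    rw [e]
    exact hK

private lemma inv_mod {x y : ℕ} (hx : x % 2 = 1) {r : ℕ} (h : (x * y) % 8 = r) (hr : r % 4 = 1) :
    (x % 4 = 1 ∧ y % 4 = 1) ∨
      (x % 4 = 3 ∧ y % 4 = 3 ∧
        ((r = 1 ∧ x % 8 = 3 ∧ y % 8 = 3) ∨ (r = 1 ∧ x % 8 = 7 ∧ y % 8 = 7) ∨
         (r = 5 ∧ x % 8 = 3 ∧ y % 8 = 7) ∨ (r = 5 ∧ x % 8 = 7 ∧ y % 8 = 3))) := by
  rw [Nat.mul_mod] at h
  have h1 : x % 8 = 1 ∨ x % 8 = 3 ∨ x % 8 = 5 ∨ x % 8 = 7 := by omega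
  have h2 : y % 8 = 0 ∨ y % 8 = 1 ∨ y % 8 = 2 ∨ y % 8 = 3 ∨ y % 8 = 4 ∨ y % 8 = 5 ∨ y % 8 = 6 ∨
    y % 8 = 7 := by omega
  rcases h1 with h1 | h1 | h1 | h1 <;>
    rcases h2 with h2 | h2 | h2 | h2 | h2 | h2 | h2 | h2 <;>
    rw [h1, h2] at h <;> norm_num at h <;> omega

private lemma inv_mul16 {x y x' y' : ℤ} (hx : x % 2 = 0) (hy : y % 2 = 0)
    (h1 : (x' - x) % 8 = 0) (h2 : (y' - y) % 8 = 0) : (x' * y' - x * y) % 16 = 0 := by
  obtain ⟨u, hu⟩ := Int.dvd_of_emod_eq_zero h1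
  obtain ⟨v, hv⟩ := Int.dvd_of_emod_eq_zero h2
  obtain ⟨j, rfl⟩ := Int.dvd_of_emod_eq_zero hx
  obtain ⟨k, rfl⟩ := Int.dvd_of_emod_eq_zero hy
  have e1 : x' = 2 * j + 8 * u := by linarith
  have e2 : y' = 2 * k + 8 * v := by linarith
  exact Int.emod_eq_zero_of_dvd ⟨j * v + u * k + 4 * u * v, by rw [e1, e2]; ring⟩

theorem so_im {P S : Finset ℕ} (hP : OP P) (h1 : pp P % 8 = 1) (hS : S ⊆ P) {a : H}
    (ha : a ∈ QQ (pp P)) :
    (((so S a).imI - a.imI) % 8 = 0 ∧ ((so S a).imJ - a.imJ) % 8 = 0 ∧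
      ((so S a).imK - a.imK) % 8 = 0) ∨
    (((so S a).imI + a.imI) % 8 = 0 ∧ ((so S a).imJ + a.imJ) % 8 = 0 ∧
      ((so S a).imK + a.imK) % 8 = 0) := by
  obtain ⟨b, hb, c, hc, rfl⟩ := left_exists hP hS ha
  rw [so_mul hP hS hb hc]
  have hpp := pp_sdiff hS
  rw [← hpp] at h1
  rcases inv_mod (pp_odd (hP.mono hS)) h1 (by norm_num) with
    ⟨h2, h3⟩ | ⟨h2, h3, ⟨-, h4, h5⟩ | ⟨-, h4, h5⟩ | ⟨h6, -⟩ | ⟨h6, -⟩⟩
  · left
    exact inv_V h2 h3 hb hc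
  · right
    have b0 := typeA3 hb h4
    have c0 := typeA3 hc h5
    exact inv_A (inv_odd0 c0 b0) (inv_odd0 c0 b0) (inv_odd0 c0 b0)
  · right
    have b0 := typeA7 hb h4
    have c0 := typeA7 hc h5
    obtain ⟨-, b1, b2, b3⟩ := typeA hb h2
    obtain ⟨-, c1, c2, c3⟩ := typeA hc h3
    exact inv_A (inv_odd2 c0 b1 c1 b0) (inv_odd2 c0 b2 c2 b0) (inv_odd2 c0 b3 c3 b0)
  · omega
  · omega

theorem so_YP {P S : Finset ℕ} (hP : OP P) (h1 : pp P % 8 = 1) (hS : S ⊆ P) {a : H}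
    (ha : a ∈ QQ (pp P)) (hy : a ∈ YP) : so S a ∈ YP := by
  obtain ⟨⟨y1, y2, y3⟩, y4⟩ := hy
  rcases so_im hP h1 hS ha with ⟨e1, e2, e3⟩ | ⟨e1, e2, e3⟩
  · refine ⟨⟨by omega, by omega, by omega⟩, ?_⟩
    have h := inv_mul16 (x := a.imJ) (y := a.imK) (by omega) (by omega) e2 e3
    generalize (so S a).imJ * (so S a).imK = t at h ⊢
    omega
  · refine ⟨⟨by omega, by omega, by omega⟩, ?_⟩
    have h := inv_mul16 (x := -a.imJ) (y := -a.imK) (x' := (so S a).imJ) (y' := (so S a).imK)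
      (by omega) (by omega) (by omega) (by omega)
    rw [neg_mul_neg] at h
    generalize (so S a).imJ * (so S a).imK = t at h ⊢
    omega

theorem so_im5 {P S : Finset ℕ} (hP : OP P) (h5 : pp P % 8 = 5) (hS : S ⊆ P) {a : H}
    (ha : a ∈ QQ (pp P)) (hz : a ∈ ZZ) :
    ((so S a).imI - a.imI) % 8 = 0 ∧ ((so S a).imJ - a.imJ) % 8 = 0 ∧
      ((so S a).imK - a.imK) % 8 = 0 := by
  obtain ⟨b, hb, c, hc, rfl⟩ := left_exists hP hS ha
  rw [so_mul hP hS hb hc]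
  obtain ⟨z1, z2, z3⟩ := hz
  have hpp := pp_sdiff hS
  rw [← hpp] at h5
  rcases inv_mod (pp_odd (hP.mono hS)) h5 (by norm_num) with
    ⟨h2, h3⟩ | ⟨h2, h3, ⟨h6, -⟩ | ⟨h6, -⟩ | ⟨-, h4, h5⟩ | ⟨-, h4, h5⟩⟩
  · exact inv_V h2 h3 hb hc
  · omega
  · omega
  · have b0 := typeA3 hb h4
    have c0 := typeA7 hc h5
    obtain ⟨-, b1, b2, b3⟩ := typeA hb h2
    have e : ∀ x y : ℤ, y % 2 = 1 → (2 * (c.re * y + x * b.re)) % 8 = 4 := by
      intro x y hy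
      have h := inv_odd4 (x := b.re) (y := x) (z := y) (w := c.re) b0 hy c0
      rw [show c.re * y + x * b.re = b.re * x + y * c.re by ring]
      exact h
    obtain ⟨r1, r2, r3⟩ := inv_A (b := b) (c := c) (e _ _ b1) (e _ _ b2) (e _ _ b3)
    refine ⟨?_, ?_, ?_⟩
    · generalize (c * b).imI = t at r1 ⊢
      omega
    · generalize (c * b).imJ = t at r2 ⊢
      omega
    · generalize (c * b).imK = t at r3 ⊢
      omega
  · have b0 := typeA7 hb h4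
    have c0 := typeA3 hc h5
    obtain ⟨-, c1, c2, c3⟩ := typeA hc h3
    have e : ∀ x y : ℤ, x % 2 = 1 → (2 * (c.re * y + x * b.re)) % 8 = 4 := by
      intro x y hx
      exact inv_odd4 (x := c.re) (y := y) (z := x) (w := b.re) c0 hx b0
    obtain ⟨r1, r2, r3⟩ := inv_A (b := b) (c := c) (e _ _ c1) (e _ _ c2) (e _ _ c3)
    refine ⟨?_, ?_, ?_⟩
    · generalize (c * b).imI = t at r1 ⊢
      omega
    · generalize (c * b).imJ = t at r2 ⊢
      omega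
    · generalize (c * b).imK = t at r3 ⊢
      omega

theorem so_ZP {P S : Finset ℕ} (hP : OP P) (h5 : pp P % 8 = 5) (hS : S ⊆ P) {a : H}
    (ha : a ∈ QQ (pp P)) (hz : a ∈ ZP) : so S a ∈ ZP := by
  obtain ⟨⟨z1, z2, z3⟩, z4, z5⟩ := hz
  obtain ⟨e1, e2, e3⟩ := so_im5 hP h5 hS ha ⟨z1, z2, z3⟩
  refine ⟨⟨by omega, by omega, by omega⟩, ?_, ?_⟩
  · have h := inv_mul16 (x := a.imI) (y := a.imJ) (by omega) (by omega) e1 e2
    generalize (so S a).imI * (so S a).imJ = t at h ⊢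
    omega
  · have h := inv_mul16 (x := a.imJ) (y := a.imK) (by omega) (by omega) e2 e3
    generalize (so S a).imJ * (so S a).imK = t at h ⊢
    omega

private theorem inv_gP (a : H) : act gP a = (⟨a.re, -a.imI, a.imK, a.imJ⟩ : H) := by
  ext
  · rfl
  · rfl
  · rfl
  · exact neg_neg _

private theorem inv_gM (a : H) : act gM a = (⟨a.re, -a.imI, -a.imK, -a.imJ⟩ : H) := rfl

private theorem inv_gPP (a : H) : act gP (act gP a) = a := by
  rw [inv_gP, inv_gP]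
  ext
  · rfl
  · exact neg_neg _
  · rfl
  · rfl

private theorem inv_comm (a : H) : star (act gM (act gP a)) = act gP (star (act gM a)) := by
  rw [← act_star, ← act_star, ← act_star, ← act_mul]
  exact act_mul gP gM (star a)

/-- The fixed points counted by `FB`. -/
private def FBs (P S : Finset ℕ) : Set H := {a | a ∈ NN (pp P) ∧ a ∈ ZZ ∧ star (act gM (so S a)) = a}

private theorem inv_FBs {P S : Finset ℕ} (hP : OP P) (hS : S ⊆ P) {a : H} (h : a ∈ FBs P S) :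
    act gP a ∈ FBs P S := by
  obtain ⟨h1, ⟨z1, z2, z3⟩, h3⟩ := h
  refine ⟨act_NN gP h1, ?_, ?_⟩
  · rw [inv_gP]
    refine ⟨?_, ?_, ?_⟩
    · change (-a.imI) % 4 = 2
      omega
    · exact z3
    · exact z2
  · rw [so_act hP hS gP h1.1, inv_comm, h3]

private theorem inv_key {P S : Finset ℕ} (hP : OP P) (h5 : pp P % 8 = 5) (hS : S ⊆ P) {a : H}
    (h : a ∈ FBs P S) : (a.imJ * a.imK) % 16 = 4 ∧ (a.imI * a.imK - a.imI * a.imJ) % 16 = 0 ∧
      (a.imI * a.imJ) % 8 = 4 := by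
  obtain ⟨h1, ⟨z1, z2, z3⟩, h3⟩ := h
  obtain ⟨e1, e2, e3⟩ := so_im5 hP h5 hS h1.1 ⟨z1, z2, z3⟩
  have hJ : (so S a).imK = a.imJ := by
    have := congrArg (fun x : H => x.imJ) h3
    rw [inv_gM] at this
    change -(-(so S a).imK) = a.imJ at this
    rwa [neg_neg] at this
  rw [hJ] at e3
  obtain ⟨j, hj⟩ : ∃ k, a.imJ = 4 * k + 2 := ⟨a.imJ / 4, by omega⟩
  obtain ⟨i, hi⟩ : ∃ k, a.imI = 4 * k + 2 := ⟨a.imI / 4, by omega⟩
  obtain ⟨t, ht⟩ := Int.dvd_of_emod_eq_zero e3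
  have hk : a.imK = 4 * j + 2 - 8 * t := by linarith
  rw [hj, hk, hi]
  refine ⟨?_, ?_, ?_⟩
  · have : (4 * j + 2) * (4 * j + 2 - 8 * t) = 16 * (j ^ 2 + j - 2 * j * t - t) + 4 := by ring
    omega
  · have : (4 * i + 2) * (4 * j + 2 - 8 * t) - (4 * i + 2) * (4 * j + 2) =
      16 * (-(2 * i * t) - t) := by ring
    omega
  · have : (4 * i + 2) * (4 * j + 2) = 8 * (2 * i * j + i + j) + 4 := by ring
    omega

theorem fb_half {P S : Finset ℕ} (hP : OP P) (h5 : pp P % 8 = 5) (hS : S ⊆ P) :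
    FB P S = 2 * Nat.card {a : H | a ∈ NN (pp P) ∧ a ∈ ZP ∧ star (act gM (so S a)) = a} := by
  unfold FB
  set A : Set H := {a : H | a ∈ NN (pp P) ∧ a ∈ ZP ∧ star (act gM (so S a)) = a} with hA
  have hAF : A ⊆ FBs P S := fun a h => ⟨h.1, h.2.1.1, h.2.2⟩
  have hfin : A.Finite := (bounded_finite (pp P)).subset (fun a h => h.1.1.2.2.2)
  have hinj : Function.Injective (act gP) := fun x y h => by
    have := congrArg (act gP) h
    rwa [inv_gPP, inv_gPP] at this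
  have hU : {a : H | a ∈ NN (pp P) ∧ a ∈ ZZ ∧ star (act gM (so S a)) = a} = A ∪ act gP '' A := by
    ext a
    constructor
    · intro h
      have h' : a ∈ FBs P S := h
      obtain ⟨k1, k2, k3⟩ := inv_key hP h5 hS h'
      by_cases hc : (a.imI * a.imJ) % 16 = 4
      · exact Or.inl ⟨h.1, ⟨h.2.1, hc, k1⟩, h.2.2⟩
      · right
        refine ⟨act gP a, ?_, inv_gPP a⟩
        obtain ⟨g1, g2, g3⟩ := inv_FBs hP hS h'
        refine ⟨g1, ⟨g2, ?_, ?_⟩, g3⟩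
        · rw [inv_gP]
          change (-a.imI * a.imK) % 16 = 4
          rw [neg_mul]
          omega
        · rw [inv_gP]
          change (a.imK * a.imJ) % 16 = 4
          rw [mul_comm]
          exact k1
    · rintro (h | ⟨b, hb, rfl⟩)
      · exact hAF h
      · exact inv_FBs hP hS (hAF hb)
  have hdis : Disjoint A (act gP '' A) := by
    rw [Set.disjoint_left]
    rintro _ h1 ⟨b, hb, rfl⟩
    obtain ⟨-, k2, k3⟩ := inv_key hP h5 hS (hAF hb)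
    obtain ⟨-, ⟨-, c1, -⟩, -⟩ := h1
    obtain ⟨-, ⟨-, c2, -⟩, -⟩ := hb
    rw [inv_gP] at c1
    change (-b.imI * b.imK) % 16 = 4 at c1
    rw [neg_mul] at c1
    omega
  rw [hU, Nat.card_coe_set_eq, Nat.card_coe_set_eq, Set.ncard_union_eq hdis hfin (hfin.image _),
    Set.ncard_image_of_injective A hinj]
  ring

end Pool.Agent.TQH
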