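import Pool.Agent.TQH.Fix
import Pool.Agent.TQH.Inv
import Pool.Agent.TQH.Abs

/-!
Project TQH, module PRB: part I for `pp P = 5 mod 8`. Model: TQG/Pri.lean.

`X` = the subtype of `a ∈ NN (pp P) ∩ ZP`; `s S` = the permutation `so S` for `S ⊆ P` (preserves `ZP`
by `so_ZP`); `c = star`, `t = star ∘ act gM` (`(re, imI, imK, imJ)`), both preserve `ZP`. `hfree`: if
`star (so S a) = a` then by `fix1` (`Z = univ`; `P ≠ ∅` as `pp P ≠ 1`) there are pure elements in
`QQ (pp S)` and in `QQ (pp (P \ S))`; a pure element has even real part `0`, so `pp S = 3 mod 4` and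
`0 = 0 mod 4` forces `pp S = 3 mod 8` (`typeA7`), the same for `pp (P \ S)`, but then
`pp P = 9 = 1 mod 8`. (`pure_mod`.) Now `abs1` and `fb_half`.
-/

namespace Pool.Agent.TQH

open Pool.Agent.TQS Pool.Agent.TQG

private theorem sq_odd {x : ℤ} (h : x % 2 = 1) : x ^ 2 % 8 = 1 := by
  have h8 : x % 8 = 1 ∨ x % 8 = 3 ∨ x % 8 = 5 ∨ x % 8 = 7 := by omega
  rw [pow_two, Int.mul_emod]
  rcases h8 with h8 | h8 | h8 | h8 <;> rw [h8] <;> rfl

theorem pure_mod {m : ℕ} {x : H} (hx : x ∈ PQ m) : m % 8 = 3 := by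
  obtain ⟨⟨h1, h2, h3, h4⟩, h0⟩ := hx
  rw [Quaternion.normSq_def', h0] at h4
  have e1 := sq_odd (x := x.imI) (by omega)
  have e2 := sq_odd (x := x.imJ) (by omega)
  have e3 := sq_odd (x := x.imK) (by omega)
  have e0 : (0 : ℤ) ^ 2 = 0 := by norm_num
  rw [e0] at h4
  omega

/-- the set on which everything acts -/
private abbrev XX (P : Finset ℕ) : Type := {a : H // a ∈ NN (pp P) ∧ a ∈ ZP}

private instance (P : Finset ℕ) : Finite (XX P) :=
  ((bounded_finite (pp P)).subset (fun _ h => h.1.1.2.2.2 :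
    {a : H | a ∈ NN (pp P) ∧ a ∈ ZP} ⊆ {a : H | Quaternion.normSq a = (pp P : ℤ)})).to_subtype

private lemma pri_inv {P S : Finset ℕ} (hP : OP P) (hS : S ⊆ P) {a : H} (ha : a ∈ NN (pp P)) :
    so (P \ S) (so S a) = a := by
  rw [so_so hP hS Finset.sdiff_subset Finset.disjoint_sdiff ha.1,
    Finset.union_sdiff_of_subset hS, so_self hP ha.1]

private lemma pri_inv' {P S : Finset ℕ} (hP : OP P) (hS : S ⊆ P) {a : H} (ha : a ∈ NN (pp P)) :
    so S (so (P \ S) a) = a := by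
  have h := pri_inv (S := P \ S) hP Finset.sdiff_subset ha
  rwa [Finset.sdiff_sdiff_eq_self hS] at h

/-- the swaps as permutations -/
private noncomputable def sP {P : Finset ℕ} (hP : OP P) (h5 : pp P % 8 = 5) (S : Finset ℕ) :
    Equiv.Perm (XX P) := by
  classical exact if h : S ⊆ P then
    { toFun := fun x => ⟨so S x.1, so_NN hP h x.2.1, so_ZP hP h5 h x.2.1.1 x.2.2⟩
      invFun := fun x => ⟨so (P \ S) x.1, so_NN hP Finset.sdiff_subset x.2.1,
        so_ZP hP h5 Finset.sdiff_subset x.2.1.1 x.2.2⟩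
      left_inv := fun x => Subtype.ext (pri_inv hP h x.2.1)
      right_inv := fun x => Subtype.ext (pri_inv' hP h x.2.1) }
  else 1

private lemma sP_val {P S : Finset ℕ} (hP : OP P) (h5 : pp P % 8 = 5) (h : S ⊆ P) (x : XX P) :
    (sP hP h5 S x).1 = so S x.1 := by
  unfold sP
  rw [dif_pos h]
  rfl

private lemma sP_inv_val {P S : Finset ℕ} (hP : OP P) (h5 : pp P % 8 = 5) (h : S ⊆ P)
    (x : XX P) : ((sP hP h5 S)⁻¹ x).1 = so (P \ S) x.1 := by
  unfold sP
  rw [dif_pos h]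
  rfl

private lemma act_inv {g : G} (hg : g * g = 1) (a : H) : star (act g (star (act g a))) = a := by
  rw [act_star, star_star, ← act_mul, hg, act_one]

/-- the mirrors as permutations -/
private def mP (P : Finset ℕ) (g : G) (hg : g * g = 1) (hY : ∀ a ∈ ZP, star (act g a) ∈ ZP) :
    Equiv.Perm (XX P) where
  toFun x := ⟨star (act g x.1), star_NN (act_NN g x.2.1), hY _ x.2.2⟩
  invFun x := ⟨star (act g x.1), star_NN (act_NN g x.2.1), hY _ x.2.2⟩
  left_inv x := Subtype.ext (act_inv hg x.1)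
  right_inv x := Subtype.ext (act_inv hg x.1)

private lemma mP_val (P : Finset ℕ) (g : G) (hg : g * g = 1)
    (hY : ∀ a ∈ ZP, star (act g a) ∈ ZP) (x : XX P) : (mP P g hg hY x).1 = star (act g x.1) := rfl

private lemma mP_inv (P : Finset ℕ) (g : G) (hg : g * g = 1)
    (hY : ∀ a ∈ ZP, star (act g a) ∈ ZP) : (mP P g hg hY)⁻¹ = mP P g hg hY := rfl

private lemma mP_sq (P : Finset ℕ) (g : G) (hg : g * g = 1)
    (hY : ∀ a ∈ ZP, star (act g a) ∈ ZP) : mP P g hg hY * mP P g hg hY = 1 := by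
  refine Equiv.ext fun x => Subtype.ext ?_
  exact act_inv hg x.1

private lemma mP_comm (P : Finset ℕ) (g h : G) (hg : g * g = 1)
    (hY : ∀ a ∈ ZP, star (act g a) ∈ ZP) (hh : h * h = 1)
    (hY' : ∀ a ∈ ZP, star (act h a) ∈ ZP) (hgh : g * h = h * g) :
    mP P g hg hY * mP P h hh hY' = mP P h hh hY' * mP P g hg hY := by
  refine Equiv.ext fun x => Subtype.ext ?_
  change star (act g (star (act h x.1))) = star (act h (star (act g x.1)))
  rw [act_star, act_star, star_star, star_star, ← act_mul, ← act_mul, hgh]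

private lemma mP_conj {P S : Finset ℕ} (hP : OP P) (h5 : pp P % 8 = 5) (hS : S ⊆ P) (g : G)
    (hg : g * g = 1) (hY : ∀ a ∈ ZP, star (act g a) ∈ ZP) :
    mP P g hg hY * sP hP h5 S * (mP P g hg hY)⁻¹ = (sP hP h5 S)⁻¹ := by
  refine Equiv.ext fun x => Subtype.ext ?_
  rw [sP_inv_val hP h5 hS, mP_inv]
  change star (act g (sP hP h5 S (mP P g hg hY x)).1) = so (P \ S) x.1
  rw [sP_val hP h5 hS, mP_val]
  have h2 : so S (star x.1) = star (so (P \ S) x.1) := by
    have h3 := so_star (S := P \ S) hP Finset.sdiff_subset x.2.1.1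
    rwa [Finset.sdiff_sdiff_eq_self hS] at h3
  have h4 : star (act g x.1) = act g (star x.1) := (act_star g x.1).symm
  rw [h4, so_act hP hS g (star_QQ x.2.1.1), h2, act_star, act_star, star_star, ← act_mul, hg,
    act_one]

private lemma zp_one : ∀ a ∈ ZP, star (act 1 a) ∈ ZP := by
  rintro a ⟨⟨h1, h2, h3⟩, h4, h5⟩
  rw [act_one]
  refine ⟨⟨?_, ?_, ?_⟩, ?_, ?_⟩
  · rw [Quaternion.imI_star]; omega
  · rw [Quaternion.imJ_star]; omega
  · rw [Quaternion.imK_star]; omega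
  · rw [Quaternion.imI_star, Quaternion.imJ_star, neg_mul_neg]; exact h4
  · rw [Quaternion.imJ_star, Quaternion.imK_star, neg_mul_neg]; exact h5

private lemma val_gM (a : H) : star (act gM a) = ⟨a.re, a.imI, a.imK, a.imJ⟩ := by
  have e1 : (act gM a).re = a.re := rfl
  have e2 : (act gM a).imI = -a.imI := rfl
  have e3 : (act gM a).imJ = -a.imK := rfl
  have e4 : (act gM a).imK = -a.imJ := rfl
  ext
  · rw [Quaternion.re_star, e1]
  · rw [Quaternion.imI_star, e2, neg_neg]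
  · rw [Quaternion.imJ_star, e3, neg_neg]
  · rw [Quaternion.imK_star, e4, neg_neg]

private lemma zp_aux {x y z : ℤ} (hx : x % 4 = 2) (hy : y % 4 = 2) (hz : z % 4 = 2)
    (h1 : (x * y) % 16 = 4) (h2 : (y * z) % 16 = 4) : (x * z) % 16 = 4 := by
  obtain ⟨i, rfl⟩ : ∃ k, x = 4 * k + 2 := ⟨x / 4, by omega⟩
  obtain ⟨j, rfl⟩ : ∃ k, y = 4 * k + 2 := ⟨y / 4, by omega⟩
  obtain ⟨k, rfl⟩ : ∃ k, z = 4 * k + 2 := ⟨z / 4, by omega⟩
  have e1 : (4 * i + 2) * (4 * j + 2) = 16 * (i * j) + 8 * (i + j) + 4 := by ring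
  have e2 : (4 * j + 2) * (4 * k + 2) = 16 * (j * k) + 8 * (j + k) + 4 := by ring
  have e3 : (4 * i + 2) * (4 * k + 2) = 16 * (i * k) + 8 * (i + k) + 4 := by ring
  rw [e1] at h1
  rw [e2] at h2
  rw [e3]
  generalize i * j = u at h1
  generalize j * k = v at h2
  generalize i * k = w
  omega

private lemma zp_gM : ∀ a ∈ ZP, star (act gM a) ∈ ZP := by
  rintro a ⟨⟨h1, h2, h3⟩, h4, h5⟩
  rw [val_gM]
  refine ⟨⟨h1, h3, h2⟩, ?_, ?_⟩
  · exact zp_aux h1 h2 h3 h4 h5
  · change (a.imK * a.imJ) % 16 = 4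
    rw [mul_comm]; exact h5

private lemma prb_count {P S : Finset ℕ} (hP : OP P) (h5 : pp P % 8 = 5) (hS : S ⊆ P) (g : G)
    (t : Equiv.Perm (XX P)) (ht : ∀ x, (t x).1 = star (act g x.1)) :
    Nat.card {x : XX P // t (sP hP h5 S x) = x} =
      Nat.card {a : H | a ∈ NN (pp P) ∧ a ∈ ZP ∧ star (act g (so S a)) = a} := by
  have e1 : Nat.card {x : XX P // t (sP hP h5 S x) = x} =
      Nat.card {x : XX P // star (act g (so S x.1)) = x.1} := by
    refine Nat.card_congr (Equiv.subtypeEquivRight fun x => ?_)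
    rw [Subtype.ext_iff, ht, sP_val hP h5 hS]
  rw [e1]
  refine (Nat.card_congr (Equiv.subtypeSubtypeEquivSubtypeInter
    (fun a : H => a ∈ NN (pp P) ∧ a ∈ ZP) (fun a : H => star (act g (so S a)) = a))).trans ?_
  exact Nat.card_congr (Equiv.subtypeEquivRight fun x => and_assoc)

private lemma prb_free {P S : Finset ℕ} (hP : OP P) (h5 : pp P % 8 = 5) (hS : S ⊆ P) {a : H}
    (ha : a ∈ NN (pp P)) (h : star (so S a) = a) : False := by
  have hne : P.Nonempty := by
    rw [Finset.nonempty_iff_ne_empty]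
    rintro rfl
    rw [pp_empty] at h5
    omega
  have h1 := fix1 hP hne (by omega) hS Set.univ (fun x => by simp)
  have hfin : ({a : H | a ∈ NN (pp P) ∧ a ∈ (Set.univ : Set H) ∧
      star (act 1 (so S a)) = a}).Finite :=
    (bounded_finite (pp P)).subset (fun _ h => h.1.1.2.2.2)
  have hpos : 0 < Nat.card {a : H | a ∈ NN (pp P) ∧ a ∈ (Set.univ : Set H) ∧
      star (act 1 (so S a)) = a} := by
    rw [Nat.card_coe_set_eq, Set.ncard_pos hfin]
    refine ⟨a, ha, Set.mem_univ _, ?_⟩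
    rw [act_one]
    exact h
  have hne2 : Nat.card {x : H × H | x.1 ∈ PQ (pp S) ∧ x.2 ∈ PQ (pp (P \ S)) ∧
      x.1 * x.2 ∈ (Set.univ : Set H)} ≠ 0 := by omega
  have h3 : Nonempty {x : H × H | x.1 ∈ PQ (pp S) ∧ x.2 ∈ PQ (pp (P \ S)) ∧
      x.1 * x.2 ∈ (Set.univ : Set H)} := by
    by_contra hcon
    rw [not_nonempty_iff] at hcon
    exact hne2 Nat.card_of_isEmpty
  obtain ⟨⟨x, hx1, hx2, -⟩⟩ := h3
  have m1 := pure_mod hx1
  have m2 := pure_mod hx2
  have m3 := pp_sdiff hS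
  rw [← m3, Nat.mul_mod, m1, m2] at h5
  omega

theorem prb {P : Finset ℕ} (hP : OP P) (h5 : pp P % 8 = 5) :
    2 ^ (P.card + 2) ∣ ∑ S ∈ P.powerset, FB P S := by
  have g1 : (1 : G) * 1 = 1 := one_mul 1
  have g3 : gM * gM = 1 := by decide
  have d1 := abs1 P (sP hP h5)
    (Equiv.ext fun x => Subtype.ext (by
      rw [sP_val hP h5 (Finset.empty_subset P), so_empty hP x.2.1.1]; rfl))
    (fun S T hS hT hST => Equiv.ext fun x => Subtype.ext (by
      rw [sP_val hP h5 (Finset.union_subset hS hT), Equiv.Perm.mul_apply, sP_val hP h5 hS,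
        sP_val hP h5 hT, so_so hP hT hS hST.symm x.2.1.1, Finset.union_comm]))
    (mP P 1 g1 zp_one) (mP P gM g3 zp_gM)
    (mP_sq P 1 g1 zp_one) (mP_sq P gM g3 zp_gM)
    (mP_comm P 1 gM g1 zp_one g3 zp_gM (by rw [one_mul, mul_one]))
    (fun S hS => mP_conj hP h5 hS 1 g1 zp_one)
    (fun S hS => mP_conj hP h5 hS gM g3 zp_gM)
    (fun S hS x h => by
      have h2 := congrArg Subtype.val h
      change star (act 1 (sP hP h5 S x).1) = x.1 at h2
      rw [act_one, sP_val hP h5 hS] at h2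
      exact prb_free hP h5 hS x.2.1 h2)
  have cM : ∀ S ∈ P.powerset, FB P S = 2 *
      Nat.card {x : XX P // mP P gM g3 zp_gM (sP hP h5 S x) = x} := by
    intro S hS
    rw [Finset.mem_powerset] at hS
    rw [fb_half hP h5 hS, prb_count hP h5 hS gM _ (mP_val P gM g3 zp_gM)]
  rw [Finset.sum_congr rfl cM, ← Finset.mul_sum]
  obtain ⟨u, hu⟩ := d1
  refine ⟨u, ?_⟩
  rw [hu]
  ring

end Pool.Agent.TQH
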