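import Pool.Agent.TQH.Bas
import Pool.Agent.TQS.Fix

/-!
Project TQH, module REP: sums of three squares.

`r3 m` = number of integer triples with `a^2 + b^2 + c^2 = m` (`H24.r3`, a set of triples).
`r3_EI` (`d = 1 mod 4`): exactly one coordinate is odd; three positions:
`(i, x) ↦` the triple with `re x` at place `i` and `imJ, imK` at the other places; so
`r3 d = 3 |EI d|` (`EI d`: `re` odd, `imJ, imK` even, `imI = 0`). (Model: `TQS.card_tS_odd`.)
`EI_three` (`d = 3 mod 4`): `typeA`: `imI` odd.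
`r3_PQ` (`d = 3 mod 8`): all three coordinates are odd, the triples are the pure elements of `QQ d`.
`r3_seven`: squares are `0, 1, 4` mod 8. `PQ_zero`: `typeV` (`re` odd), `typeA7` (`re = 2 mod 4`).
`r3_EM` (`d` odd): `2 d = x^2 + y^2 + z^2` has exactly two odd coordinates; let `z` be the even one
(three places). `x + y = 2 u`, `x - y = 2 v`, `z = 2 w`: `d = u^2 + v^2 + 2 w^2`, exactly one of `u`, `v` is
odd (`u + v = x`). For `d = 1 mod 4`: `w` is even (mod 4); for `d = 3 mod 4` `w` is odd. The element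
`x ∈ EM d` has `re, imI` one odd one even and `imJ = imK = w`, `re` odd iff `d = 1 mod 4`. So each
`x ∈ EM d` gives two pairs `(u, v) = (re, imI), (imI, re)`; in total `r3 (2 d) = 3 * 2 * |EM d|`.
(Model: `TQS.card_tS_two`.)
-/

namespace Pool.Agent.TQH

open Pool.Agent.TQS Pool.Agent.TQG Pool.Agent.H24

private theorem REP_r3 (m : ℕ) : r3 m = Nat.card (tS m) := by
  rw [Nat.card_coe_set_eq]
  rfl

private theorem REP_norm {m : ℕ} {a : H} (ha : a ∈ QQ m) :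
    a.re ^ 2 + a.imI ^ 2 + a.imJ ^ 2 + a.imK ^ 2 = (m : ℤ) := by
  have h := ha.2.2.2
  rw [normSq_eq] at h
  exact h

private theorem REP_mem {m : ℕ} {a : H} (h1 : (a.re + a.imI) % 2 = 1)
    (h2 : (a.imI + a.imJ) % 2 = 0) (h3 : (a.imI + a.imK) % 2 = 0)
    (h4 : a.re ^ 2 + a.imI ^ 2 + a.imJ ^ 2 + a.imK ^ 2 = (m : ℤ)) : a ∈ QQ m := by
  refine ⟨h1, h2, h3, ?_⟩
  rw [normSq_eq]
  exact h4

theorem r3_EI {d : ℕ} (h : d % 4 = 1) : r3 d = 3 * Nat.card (EI d) := by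
  have h1 : Nat.card (Fin 3 × EI d) = 3 * Nat.card (EI d) := by
    rw [Nat.card_prod]
    simp
  rw [REP_r3, ← h1]
  symm
  refine Nat.card_congr (Equiv.ofBijective
    (fun q : Fin 3 × EI d => (⟨tMove q.1 (q.2.1.re, q.2.1.imJ, q.2.1.imK), ?_⟩ : tS d)) ⟨?_, ?_⟩)
  · obtain ⟨i, a, ha, ha'⟩ := q
    have hn := REP_norm ha
    rw [ha'] at hn
    simp only [tS, Set.mem_ofPred_eq]
    fin_cases i <;> simp [tMove] <;> linarith
  · rintro ⟨i, a, ha, ha'⟩ ⟨j, b, hb, hb'⟩ heq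
    simp only [Subtype.mk.injEq] at heq
    obtain ⟨a1, a2, a3, _⟩ := ha
    obtain ⟨b1, b2, b3, _⟩ := hb
    rw [ha'] at a1 a2 a3
    rw [hb'] at b1 b2 b3
    have key : i = j ∧ a.re = b.re ∧ a.imJ = b.imJ ∧ a.imK = b.imK := by
      fin_cases i <;> fin_cases j <;> simp [tMove] at heq ⊢ <;> omega
    obtain ⟨rfl, h2, h3, h4⟩ := key
    have h5 : a = b := QuaternionAlgebra.ext h2 (ha'.trans hb'.symm) h3 h4
    subst h5
    rfl
  · rintro ⟨⟨a, b, c⟩, ha⟩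
    simp only [tS, Set.mem_ofPred_eq] at ha
    have hsw : ∀ i : Fin 3, ∀ x y z : ℤ, tMove i (x, y, z) = (a, b, c) → x % 2 = 1 → y % 2 = 0 →
        z % 2 = 0 → (d : ℤ) = x ^ 2 + y ^ 2 + z ^ 2 →
        ∃ q : Fin 3 × EI d, tMove q.1 (q.2.1.re, q.2.1.imJ, q.2.1.imK) = (a, b, c) := by
      intro i x y z hb h1 h2 h3 h4
      refine ⟨(i, ⟨(⟨x, 0, y, z⟩ : H), REP_mem ?_ ?_ ?_ ?_, rfl⟩), hb⟩
      · simpa using h1
      · simpa using h2
      · simpa using h3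
      · simp only
        linarith
    have key : ∃ q : Fin 3 × EI d, tMove q.1 (q.2.1.re, q.2.1.imJ, q.2.1.imK) = (a, b, c) := by
      rcases card_sq_mod a with ⟨h1, h1'⟩ | ⟨h1, h1'⟩ <;>
      rcases card_sq_mod b with ⟨h2, h2'⟩ | ⟨h2, h2'⟩ <;>
      rcases card_sq_mod c with ⟨h3, h3'⟩ | ⟨h3, h3'⟩
      · omega
      · exact hsw 2 c a b rfl h3 h1 h2 (by linarith)
      · exact hsw 1 b a c rfl h2 h1 h3 (by linarith)
      · omega
      · exact hsw 0 a b c rfl h1 h2 h3 (by linarith)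
      · omega
      · omega
      · omega
    obtain ⟨q, hq⟩ := key
    exact ⟨q, Subtype.ext hq⟩

theorem EI_three {d : ℕ} (h : d % 4 = 3) : Nat.card (EI d) = 0 := by
  have he : EI d = ∅ := by
    rw [Set.eq_empty_iff_forall_notMem]
    rintro a ⟨ha, ha'⟩
    have hn := REP_norm ha
    obtain ⟨a1, a2, a3, _⟩ := ha
    rw [ha'] at hn a1 a2 a3
    rcases card_sq_mod a.re with ⟨h1, h1'⟩ | ⟨h1, h1'⟩ <;>
    rcases card_sq_mod a.imJ with ⟨h2, h2'⟩ | ⟨h2, h2'⟩ <;>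
    rcases card_sq_mod a.imK with ⟨h3, h3'⟩ | ⟨h3, h3'⟩ <;> omega
  rw [he]
  simp

theorem r3_PQ {d : ℕ} (h : d % 8 = 3) : r3 d = Nat.card (PQ d) := by
  rw [REP_r3]
  symm
  refine Nat.card_congr (Equiv.ofBijective
    (fun q : PQ d => (⟨(q.1.imI, q.1.imJ, q.1.imK), ?_⟩ : tS d)) ⟨?_, ?_⟩)
  · obtain ⟨a, ha, ha'⟩ := q
    have hn := REP_norm ha
    rw [ha'] at hn
    simp only [tS, Set.mem_ofPred_eq]
    linarith
  · rintro ⟨a, ha, ha'⟩ ⟨b, hb, hb'⟩ heq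
    simp only [Subtype.mk.injEq, Prod.mk.injEq] at heq
    have h5 : a = b := QuaternionAlgebra.ext (ha'.trans hb'.symm) heq.1 heq.2.1 heq.2.2
    subst h5
    rfl
  · rintro ⟨⟨a, b, c⟩, ha⟩
    simp only [tS, Set.mem_ofPred_eq] at ha
    have key : a % 2 = 1 ∧ b % 2 = 1 ∧ c % 2 = 1 := by
      rcases card_sq_mod a with ⟨h1, h1'⟩ | ⟨h1, h1'⟩ <;>
      rcases card_sq_mod b with ⟨h2, h2'⟩ | ⟨h2, h2'⟩ <;>
      rcases card_sq_mod c with ⟨h3, h3'⟩ | ⟨h3, h3'⟩ <;> omega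
    obtain ⟨h1, h2, h3⟩ := key
    refine ⟨⟨(⟨0, a, b, c⟩ : H), REP_mem ?_ ?_ ?_ ?_, rfl⟩, rfl⟩
    · simpa using h1
    · simp only
      omega
    · simp only
      omega
    · simp only
      linarith

theorem r3_seven {d : ℕ} (h : d % 8 = 7) : r3 d = 0 := by
  rw [REP_r3]
  have he : tS d = ∅ := by
    rw [Set.eq_empty_iff_forall_notMem]
    rintro ⟨a, b, c⟩ ha
    simp only [tS, Set.mem_ofPred_eq] at ha
    rcases card_sq_mod a with ⟨h1, h1'⟩ | ⟨h1, h1'⟩ <;>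
    rcases card_sq_mod b with ⟨h2, h2'⟩ | ⟨h2, h2'⟩ <;>
    rcases card_sq_mod c with ⟨h3, h3'⟩ | ⟨h3, h3'⟩ <;> omega
  rw [he]
  simp

theorem PQ_zero {d : ℕ} (h : d % 8 ≠ 3) : Nat.card (PQ d) = 0 := by
  have he : PQ d = ∅ := by
    rw [Set.eq_empty_iff_forall_notMem]
    rintro a ⟨ha, ha'⟩
    have hn := REP_norm ha
    obtain ⟨a1, a2, a3, _⟩ := ha
    rw [ha'] at hn a1
    rcases card_sq_mod a.imI with ⟨h1, h1'⟩ | ⟨h1, h1'⟩ <;>
    rcases card_sq_mod a.imJ with ⟨h2, h2'⟩ | ⟨h2, h2'⟩ <;>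
    rcases card_sq_mod a.imK with ⟨h3, h3'⟩ | ⟨h3, h3'⟩ <;> omega
  rw [he]
  simp

/-- the two coordinates in one of the two orders -/
private def REP_pr (s : Bool) (a : H) : ℤ × ℤ × ℤ :=
  if s then (2 * a.imJ, a.re + a.imI, a.re - a.imI) else (2 * a.imJ, a.imI + a.re, a.imI - a.re)

theorem r3_EM {d : ℕ} (h : d % 2 = 1) : r3 (2 * d) = 6 * Nat.card (EM d) := by
  have h1 : Nat.card ((Fin 3 × Bool) × EM d) = 6 * Nat.card (EM d) := by
    rw [Nat.card_prod, Nat.card_prod]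
    simp
  rw [REP_r3, ← h1]
  symm
  refine Nat.card_congr (Equiv.ofBijective
    (fun q : (Fin 3 × Bool) × EM d =>
      (⟨tMove q.1.1 (REP_pr q.1.2 q.2.1), ?_⟩ : tS (2 * d))) ⟨?_, ?_⟩)
  · obtain ⟨⟨i, s⟩, a, ha, ha'⟩ := q
    have hn := REP_norm ha
    rw [← ha'] at hn
    simp only [tS, Set.mem_ofPred_eq]
    push_cast
    fin_cases i <;> cases s <;> simp [tMove, REP_pr] <;> linarith
  · rintro ⟨⟨i, s⟩, a, ha, ha'⟩ ⟨⟨j, t⟩, b, hb, hb'⟩ heq
    simp only [Subtype.mk.injEq] at heq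
    obtain ⟨a1, a2, a3, _⟩ := ha
    obtain ⟨b1, b2, b3, _⟩ := hb
    have key : i = j ∧ s = t ∧ a.re = b.re ∧ a.imI = b.imI ∧ a.imJ = b.imJ := by
      fin_cases i <;> fin_cases j <;> cases s <;> cases t <;>
        simp [tMove, REP_pr] at heq ⊢ <;> omega
    obtain ⟨rfl, rfl, h2, h3, h4⟩ := key
    have h5 : a = b := QuaternionAlgebra.ext h2 h3 h4 (ha'.symm.trans (h4.trans hb'))
    subst h5
    rfl
  · rintro ⟨⟨a, b, c⟩, ha⟩
    simp only [tS, Set.mem_ofPred_eq] at ha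
    push_cast at ha
    have hsw : ∀ i : Fin 3, ∀ x y z : ℤ, tMove i (z, x, y) = (a, b, c) → x % 2 = 1 → y % 2 = 1 →
        z % 2 = 0 → 2 * (d : ℤ) = x ^ 2 + y ^ 2 + z ^ 2 →
        ∃ q : (Fin 3 × Bool) × EM d, tMove q.1.1 (REP_pr q.1.2 q.2.1) = (a, b, c) := by
      intro i x y z hb h1 h2 h3 h4
      obtain ⟨u, hu⟩ : ∃ u, x + y = 2 * u := ⟨(x + y) / 2, by omega⟩
      obtain ⟨v, hv⟩ : ∃ v, x - y = 2 * v := ⟨(x - y) / 2, by omega⟩
      obtain ⟨w, rfl⟩ : ∃ w, z = 2 * w := ⟨z / 2, by omega⟩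
      obtain rfl : x = u + v := by omega
      obtain rfl : y = u - v := by omega
      have h5 : (d : ℤ) = u ^ 2 + v ^ 2 + 2 * w ^ 2 := by linarith
      by_cases hvw : (v + w) % 2 = 0
      · refine ⟨((i, true), ⟨(⟨u, v, w, w⟩ : H), REP_mem ?_ ?_ ?_ ?_, rfl⟩), ?_⟩
        · exact h1
        · exact hvw
        · exact hvw
        · simp only
          linarith
        · simpa [REP_pr] using hb
      · refine ⟨((i, false), ⟨(⟨v, u, w, w⟩ : H), REP_mem ?_ ?_ ?_ ?_, rfl⟩), ?_⟩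
        · simp only
          omega
        · simp only
          omega
        · simp only
          omega
        · simp only
          linarith
        · simpa [REP_pr] using hb
    have key : ∃ q : (Fin 3 × Bool) × EM d, tMove q.1.1 (REP_pr q.1.2 q.2.1) = (a, b, c) := by
      rcases card_sq_mod a with ⟨h1, h1'⟩ | ⟨h1, h1'⟩ <;>
      rcases card_sq_mod b with ⟨h2, h2'⟩ | ⟨h2, h2'⟩ <;>
      rcases card_sq_mod c with ⟨h3, h3'⟩ | ⟨h3, h3'⟩
      · omega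
      · omega
      · omega
      · exact hsw 0 b c a rfl h2 h3 h1 (by linarith)
      · omega
      · exact hsw 1 a c b rfl h1 h3 h2 (by linarith)
      · exact hsw 2 a b c rfl h1 h2 h3 (by linarith)
      · omega
    obtain ⟨q, hq⟩ := key
    exact ⟨q, Subtype.ext hq⟩

end Pool.Agent.TQH
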