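import Pool.Agent.TQH.Pra
import Pool.Agent.TQH.Prb
import Pool.Agent.TQH.Pci
import Pool.Agent.TQH.Pcm
import Pool.Agent.TQH.Pco
import Pool.Agent.TQH.Rep

/-!
Project TQH, module FIN: the two theorems.

`P = m.primeFactors`, `pp P = m` (`pp_factors`), `sum_div`. For `S ⊆ P`, `d = pp S`, `e = pp (P \ S)`:
A (`m = 1 mod 8`, so `d = e mod 8`):
`288 FA gM = 36 |EM d| |EM e| - 36 cd d cd e = r3 (2d) r3 (2e) - 36 cd d cd e` (`fa_M`, `r3_EM`);
`144 FA gI = 18 |EI d| |EI e| = 2 r3 d r3 e` if `d = 1 mod 4`, `0` otherwise (`fa_I`, `r3_EI`, `EI_three`);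
`144 FA 1 = 9 |PQ d| |PQ e| = 9 r3 d r3 e` if `d = 3 mod 4` (for `7 mod 8` both vanish), `0` if
`d = 1 mod 4` (`fa_1`, `r3_PQ`, `r3_seven`, `PQ_zero`). So the sum is
`144 ∑ (2 FA gM - FA gI - FA 1)`, divisible by `144 * 2 ^ (k + 3) = 9 * 2 ^ (k + 7)` (`pra`).
B (`m = 5 mod 8`): the sum is `288 ∑ FB`, divisible by `288 * 2 ^ (k + 2) = 9 * 2 ^ (k + 7)` (`prb`).
-/

namespace Pool.Agent.TQH

open Pool.Agent.H24

open Pool.Agent.TQG Pool.Agent.TQS

private theorem fin_mod {d e : ℕ} (h : (d * e) % 8 = 1) : d % 8 = e % 8 := by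
  have h1 : (d % 8) * (e % 8) % 8 = 1 := by rw [← Nat.mul_mod]; exact h
  have hd : d % 8 < 8 := Nat.mod_lt _ (by norm_num)
  have he : e % 8 < 8 := Nat.mod_lt _ (by norm_num)
  generalize d % 8 = a at *
  generalize e % 8 = b at *
  interval_cases a <;> interval_cases b <;> simp_all

private theorem fin_M {P S : Finset ℕ} (hP : OP P) (h1 : pp P % 8 = 1) (hS : S ⊆ P) :
    288 * (FA gM P S : ℤ) = (r3 (2 * pp S) : ℤ) * r3 (2 * pp (P \ S)) -
      36 * cd (pp S) * cd (pp (P \ S)) := by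
  have h := fa_M hP h1 hS
  have e1 := r3_EM (pp_odd (hP.mono hS))
  have e2 := r3_EM (pp_odd (hP.mono (Finset.sdiff_subset (s := P) (t := S))))
  rw [e1, e2]
  push_cast
  linear_combination 36 * h

private theorem fin_B {P S : Finset ℕ} (hP : OP P) (h1 : pp P % 8 = 5) (hS : S ⊆ P) :
    288 * (FB P S : ℤ) = (r3 (2 * pp S) : ℤ) * r3 (2 * pp (P \ S)) -
      36 * cd (pp S) * cd (pp (P \ S)) := by
  have h := fb_M hP h1 hS
  have e1 := r3_EM (pp_odd (hP.mono hS))
  have e2 := r3_EM (pp_odd (hP.mono (Finset.sdiff_subset (s := P) (t := S))))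
  rw [e1, e2]
  push_cast
  linear_combination 36 * h

private theorem fin_I {P S : Finset ℕ} (hP : OP P) (hne : P.Nonempty) (h1 : pp P % 8 = 1)
    (hS : S ⊆ P) : 144 * ((FA gI P S : ℤ) + FA 1 P S) =
      (if pp S % 4 = 1 then 2 else 9) * r3 (pp S) * r3 (pp (P \ S)) := by
  have hI := fa_I hP hne h1 hS
  have hO := fa_1 hP hne h1 hS
  have hm : (pp S * pp (P \ S)) % 8 = 1 := by rw [pp_sdiff hS]; exact h1
  have hde := fin_mod hm
  have hodd := pp_odd (hP.mono hS)
  generalize pp S = d at *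
  generalize pp (P \ S) = e at *
  split_ifs with h4
  · have hd0 : Nat.card (PQ d) = 0 := PQ_zero (by omega)
    have r1 := r3_EI h4
    have r2 := r3_EI (d := e) (by omega)
    rw [hd0, zero_mul] at hO
    rw [r1, r2]
    have hO' : (FA 1 P S : ℤ) = 0 := by
      have : FA 1 P S = 0 := by omega
      rw [this]; rfl
    have hI' : 8 * (FA gI P S : ℤ) = (Nat.card (EI d) : ℤ) * (Nat.card (EI e) : ℤ) := by
      exact_mod_cast hI
    rw [hO']
    push_cast
    linear_combination 18 * hI'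
  · have hd3 : d % 4 = 3 := by omega
    have z := EI_three hd3
    rw [z, zero_mul] at hI
    have hI' : (FA gI P S : ℤ) = 0 := by
      have : FA gI P S = 0 := by omega
      rw [this]; rfl
    rw [hI']
    rcases (show d % 8 = 3 ∨ d % 8 = 7 by omega) with h8 | h8
    · rw [r3_PQ h8, r3_PQ (d := e) (by omega)]
      have hO' : 16 * (FA 1 P S : ℤ) = (Nat.card (PQ d) : ℤ) * (Nat.card (PQ e) : ℤ) := by
        exact_mod_cast hO
      linear_combination 9 * hO'
    · rw [r3_seven h8]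
      have hd0 : Nat.card (PQ d) = 0 := PQ_zero (by omega)
      rw [hd0, zero_mul] at hO
      have hO' : (FA 1 P S : ℤ) = 0 := by
        have : FA 1 P S = 0 := by omega
        rw [this]; rfl
      rw [hO']
      push_cast
      ring

theorem finA {m : ℕ} (hm : Squarefree m) (h1 : m % 8 = 1) (hm1 : 1 < m) :
    (9 * 2 ^ (m.primeFactors.card + 7) : ℤ) ∣ ∑ d ∈ m.divisors,
      ((r3 (2 * d) : ℤ) * r3 (2 * (m / d)) - (if d % 4 = 1 then 2 else 9) * r3 d * r3 (m / d)
        - 36 * cd d * cd (m / d)) := by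
  have hP : OP m.primeFactors := OP_factors (by omega)
  have hpp : pp m.primeFactors = m := pp_factors hm
  have h1' : pp m.primeFactors % 8 = 1 := by rw [hpp]; exact h1
  have hne : m.primeFactors.Nonempty := Nat.nonempty_primeFactors.2 hm1
  have e := sum_div hm (fun d e => (r3 (2 * d) : ℤ) * r3 (2 * e) -
    (if d % 4 = 1 then 2 else 9) * r3 d * r3 e - 36 * cd d * cd e)
  beta_reduce at e
  rw [e]
  have e2 : ∑ S ∈ m.primeFactors.powerset, ((r3 (2 * pp S) : ℤ) *
      r3 (2 * pp (m.primeFactors \ S)) - (if pp S % 4 = 1 then 2 else 9) * r3 (pp S) *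
      r3 (pp (m.primeFactors \ S)) - 36 * cd (pp S) * cd (pp (m.primeFactors \ S))) =
      144 * ∑ S ∈ m.primeFactors.powerset, (2 * (FA gM m.primeFactors S : ℤ) -
        (FA gI m.primeFactors S : ℤ) - (FA 1 m.primeFactors S : ℤ)) := by
    rw [Finset.mul_sum]
    refine Finset.sum_congr rfl fun S hS => ?_
    rw [Finset.mem_powerset] at hS
    have a1 := fin_M hP h1' hS
    have a2 := fin_I hP hne h1' hS
    linear_combination a2 - a1
  rw [e2]
  have h3 := pra hP h1'
  have h4 : (9 * 2 ^ (m.primeFactors.card + 7) : ℤ) =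
      144 * ((2 ^ (m.primeFactors.card + 3) : ℕ) : ℤ) := by
    push_cast
    rw [pow_add, pow_add]
    ring
  rw [h4]
  exact mul_dvd_mul_left 144 h3

theorem finB {m : ℕ} (hm : Squarefree m) (h5 : m % 8 = 5) :
    (9 * 2 ^ (m.primeFactors.card + 7) : ℤ) ∣ ∑ d ∈ m.divisors,
      ((r3 (2 * d) : ℤ) * r3 (2 * (m / d)) - 36 * cd d * cd (m / d)) := by
  have hP : OP m.primeFactors := OP_factors (by omega)
  have hpp : pp m.primeFactors = m := pp_factors hm
  have h1' : pp m.primeFactors % 8 = 5 := by rw [hpp]; exact h5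
  have e := sum_div hm (fun d e => (r3 (2 * d) : ℤ) * r3 (2 * e) - 36 * cd d * cd e)
  beta_reduce at e
  rw [e]
  have e2 : ∑ S ∈ m.primeFactors.powerset, ((r3 (2 * pp S) : ℤ) *
      r3 (2 * pp (m.primeFactors \ S)) - 36 * cd (pp S) * cd (pp (m.primeFactors \ S))) =
      288 * ((∑ S ∈ m.primeFactors.powerset, FB m.primeFactors S : ℕ) : ℤ) := by
    rw [Nat.cast_sum, Finset.mul_sum]
    refine Finset.sum_congr rfl fun S hS => ?_
    rw [Finset.mem_powerset] at hS
    exact (fin_B hP h1' hS).symm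
  rw [e2]
  have h3 : ((2 ^ (m.primeFactors.card + 2) : ℕ) : ℤ) ∣
      ((∑ S ∈ m.primeFactors.powerset, FB m.primeFactors S : ℕ) : ℤ) :=
    Int.natCast_dvd_natCast.2 (prb hP h1')
  have h4 : (9 * 2 ^ (m.primeFactors.card + 7) : ℤ) =
      288 * ((2 ^ (m.primeFactors.card + 2) : ℕ) : ℤ) := by
    push_cast
    rw [pow_add, pow_add]
    ring
  rw [h4]
  exact mul_dvd_mul_left 288 h3

end Pool.Agent.TQH
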