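import Pool.Agent.TQH.Swp

/-!
Project TQH, module FIX: fixed points of a reflection composed with a swap, as pairs.

Let `m = pp P = 1 mod 4`, so `re ≠ 0` on `QQ m` (`re_ne4`). `Z` is stable under negation.
Let `W` be the set of pairs `(b, c)` on the right side of `fixG`. The map
`W → {a ∈ NN m ∩ Z | star (act g (so S a)) = a}`, `(b, c) ↦ nm (b * c)` is well defined:
`so S (b * c) = c * b`, `star (act g (c * b)) = star (act g b) * star (act g c) = b * c` in both cases;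
and `so S (- a) = - so S a` (`so_mul` with `- b`), so the same holds for `nm (b * c)`.
Its fibres have exactly four elements: `(± b, ± c)` with the four choices of signs: if
`nm (b * c) = nm (b' * c')` then `b ∣ b' * c'`, so `b = ± b'` (`left_unique`), and then `c = ± c'`.
It is surjective: `a = b * c` (`left_exists`), `star (act g b) * star (act g c) = a = b * c`, so
`star (act g b) = ± b` (`left_unique`) and `star (act g c) = ± c` with the same sign (cancel).
To count fibres: `W ≃ {fixed a} × Bool × Bool` via `(a, s, t) ↦ (± b_a, ± c_a)`, `b_a` a chosen left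
divisor.
`fixI`, `fixM`: `star (act gI x) = (re, - imI, imJ, imK)`, `star (act gM x) = (re, imI, imK, imJ)`;
`= x` means `imI = 0`, resp. `imJ = imK`; `= - x` is impossible (it forces `re = 0` and, for `gI`,
`imJ = imK = 0`, for `gM` `imI = 0`, against the parities in `QQ`).
`fix1`: `star x = x` means `x` is an integer, so `pp S` (or `pp (P \ S)`) is a square; since `P` is not
empty one of the two is not a square (`pp_not_sq`), so only `star x = - x`, i.e. `re = 0`, remains.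
-/

namespace Pool.Agent.TQH

open Pool.Agent.TQS Pool.Agent.TQG

open Quaternion

private theorem fix_nm {m : ℕ} (h4 : m % 4 = 1) {a : H} (ha : a ∈ QQ m) : nm a ∈ NN m := by
  have h := re_ne4 h4 ha
  unfold nm
  split_ifs with h1
  · exact ⟨ha, h1⟩
  · refine ⟨neg_QQ ha, ?_⟩
    rw [Quaternion.re_neg]
    omega

/-- The sign. -/
private def fsg (s : Bool) (x : H) : H := if s then x else -x

private theorem fsg_or (s : Bool) (x : H) : fsg s x = x ∨ fsg s x = -x := by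
  cases s
  · exact Or.inr rfl
  · exact Or.inl rfl

private theorem fsg_mul (s t : Bool) (x y : H) :
    fsg s x * fsg t y = x * y ∨ fsg s x * fsg t y = -(x * y) := by
  rcases fsg_or s x with h | h <;> rcases fsg_or t y with h' | h' <;> rw [h, h'] <;> simp

private theorem fsg_QQ {m : ℕ} (s : Bool) {x : H} (hx : x ∈ QQ m) : fsg s x ∈ QQ m := by
  rcases fsg_or s x with h | h <;> rw [h]
  · exact hx
  · exact neg_QQ hx

private theorem fsg_inj {x : H} (hx : x ≠ 0) {s t : Bool} (h : fsg s x = fsg t x) : s = t := by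
  have hne : x ≠ -x := by
    intro h1
    apply hx
    have h2 : x + x = 0 := by nth_rewrite 2 [h1]; exact add_neg_cancel x
    have h3 : (2 : ℤ) • x = 0 := by rw [two_smul]; exact h2
    rcases smul_eq_zero.1 h3 with h4 | h4
    · norm_num at h4
    · exact h4
  cases s <;> cases t
  · rfl
  · exact absurd h.symm hne
  · exact absurd h hne
  · rfl

private theorem fsg_of_or {x y : H} (h : x = y ∨ x = -y) : ∃ s, fsg s y = x := by
  rcases h with h | h
  · exact ⟨true, h.symm⟩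
  · exact ⟨false, h.symm⟩

private theorem fix_sa (g : G) (x : H) : star (act g (-x)) = -star (act g x) := by
  rw [act_neg, star_neg]

private theorem fix_sa_mul (g : G) (x y : H) :
    star (act g (x * y)) = star (act g y) * star (act g x) := by
  rw [act_hmul, star_mul]

private theorem fix_pm {g : G} {b c : H}
    (h : (star (act g b) = b ∧ star (act g c) = c) ∨
      (star (act g b) = -b ∧ star (act g c) = -c)) : star (act g b) * star (act g c) = b * c := by
  rcases h with ⟨h1, h2⟩ | ⟨h1, h2⟩ <;> rw [h1, h2]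
  rw [neg_mul_neg]

private theorem fix_core {P S : Finset ℕ} (hP : OP P) (hS : S ⊆ P) (g : G) {b c : H}
    (hb : b ∈ QQ (pp S)) (hc : c ∈ QQ (pp (P \ S)))
    (h : star (act g b) * star (act g c) = b * c) :
    (star (act g b) = b ∧ star (act g c) = c) ∨
      (star (act g b) = -b ∧ star (act g c) = -c) := by
  have hbc : b * c ∈ QQ (pp P) := by
    rw [← pp_sdiff hS]
    exact mul_QQ hb hc
  have hb' : star (act g b) ∈ QQ (pp S) := star_QQ (act_QQ g hb)
  have hb0 : b ≠ 0 := ne_zero_QQ (pp_pos (hP.mono hS)) hb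
  have hd : star (act g b) ∣ b * c := ⟨_, h.symm⟩
  rcases left_unique hP hS hbc hb' hb hd (dvd_mul_right b c) with h1 | h1
  · left
    refine ⟨h1, ?_⟩
    rw [h1] at h
    exact mul_left_cancel₀ hb0 h
  · right
    refine ⟨h1, ?_⟩
    rw [h1, neg_mul, ← mul_neg] at h
    exact neg_eq_iff_eq_neg.1 (mul_left_cancel₀ hb0 h)

private theorem fix_sgn {g : G} {b : H} (s : Bool) (h : star (act g b) = b) :
    star (act g (fsg s b)) = fsg s b := by
  rcases fsg_or s b with h1 | h1 <;> rw [h1]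
  · exact h
  · rw [fix_sa, h]

private theorem fix_sgn' {g : G} {b : H} (s : Bool) (h : star (act g b) = -b) :
    star (act g (fsg s b)) = -fsg s b := by
  rcases fsg_or s b with h1 | h1 <;> rw [h1]
  · exact h
  · rw [fix_sa, h]

theorem fixG {P S : Finset ℕ} (hP : OP P) (h4 : pp P % 4 = 1) (hS : S ⊆ P) (g : G) (Z : Set H)
    (hZ : ∀ x : H, -x ∈ Z ↔ x ∈ Z) :
    4 * Nat.card {a : H | a ∈ NN (pp P) ∧ a ∈ Z ∧ star (act g (so S a)) = a} =
      Nat.card {x : H × H | x.1 ∈ QQ (pp S) ∧ x.2 ∈ QQ (pp (P \ S)) ∧ x.1 * x.2 ∈ Z ∧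
        ((star (act g x.1) = x.1 ∧ star (act g x.2) = x.2) ∨
          (star (act g x.1) = -x.1 ∧ star (act g x.2) = -x.2))} := by
  have hch : ∀ a : {a : H | a ∈ NN (pp P) ∧ a ∈ Z ∧ star (act g (so S a)) = a},
      ∃ x : H × H, x.1 ∈ QQ (pp S) ∧ x.2 ∈ QQ (pp (P \ S)) ∧ (a : H) = x.1 * x.2 := by
    intro a
    obtain ⟨b, hb, c, hc, h⟩ := left_exists hP hS a.2.1.1
    exact ⟨(b, c), hb, hc, h⟩
  choose f hf1 hf2 hf3 using hch
  have hf4 : ∀ a, (star (act g (f a).1) = (f a).1 ∧ star (act g (f a).2) = (f a).2) ∨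
      (star (act g (f a).1) = -(f a).1 ∧ star (act g (f a).2) = -(f a).2) := by
    intro a
    refine fix_core hP hS g (hf1 a) (hf2 a) ?_
    have h := a.2.2.2
    have e : so S (a : H) = (f a).2 * (f a).1 := by
      rw [hf3 a]
      exact so_mul hP hS (hf1 a) (hf2 a)
    rw [e, fix_sa_mul] at h
    rw [h]
    exact hf3 a
  have hf0 : ∀ a, (f a).1 ≠ 0 := fun a => ne_zero_QQ (pp_pos (hP.mono hS)) (hf1 a)
  have hf0' : ∀ a, (f a).2 ≠ 0 := fun a =>
    ne_zero_QQ (pp_pos (hP.mono Finset.sdiff_subset)) (hf2 a)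
  let Φ : ({a : H | a ∈ NN (pp P) ∧ a ∈ Z ∧ star (act g (so S a)) = a} × Bool × Bool) →
      {x : H × H | x.1 ∈ QQ (pp S) ∧ x.2 ∈ QQ (pp (P \ S)) ∧ x.1 * x.2 ∈ Z ∧
        ((star (act g x.1) = x.1 ∧ star (act g x.2) = x.2) ∨
          (star (act g x.1) = -x.1 ∧ star (act g x.2) = -x.2))} :=
    fun y => ⟨(fsg y.2.1 (f y.1).1, fsg y.2.2 (f y.1).2), by
      refine ⟨fsg_QQ _ (hf1 _), fsg_QQ _ (hf2 _), ?_, ?_⟩
      · rcases fsg_mul y.2.1 y.2.2 (f y.1).1 (f y.1).2 with h | h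
        · change fsg y.2.1 (f y.1).1 * fsg y.2.2 (f y.1).2 ∈ Z
          rw [h, ← hf3]
          exact y.1.2.2.1
        · change fsg y.2.1 (f y.1).1 * fsg y.2.2 (f y.1).2 ∈ Z
          rw [h, hZ, ← hf3]
          exact y.1.2.2.1
      · rcases hf4 y.1 with ⟨h1, h2⟩ | ⟨h1, h2⟩
        · exact Or.inl ⟨fix_sgn _ h1, fix_sgn _ h2⟩
        · exact Or.inr ⟨fix_sgn' _ h1, fix_sgn' _ h2⟩⟩
  have hΦ : Function.Bijective Φ := by
    constructor
    · rintro ⟨a, s, t⟩ ⟨a', s', t'⟩ h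
      have h1 : (fsg s (f a).1, fsg t (f a).2) = (fsg s' (f a').1, fsg t' (f a').2) :=
        congrArg Subtype.val h
      have h2 := (Prod.ext_iff.1 h1).1
      have h3 := (Prod.ext_iff.1 h1).2
      change fsg s (f a).1 = fsg s' (f a').1 at h2
      change fsg t (f a).2 = fsg t' (f a').2 at h3
      have h4 : fsg s (f a).1 * fsg t (f a).2 = fsg s' (f a').1 * fsg t' (f a').2 := by
        rw [h2, h3]
      have hp := a.2.1.2
      have hp' := a'.2.1.2
      have h5 : (a : H) = a' ∨ (a : H) = -(a' : H) := by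
        have e1 := fsg_mul s t (f a).1 (f a).2
        have e2 := fsg_mul s' t' (f a').1 (f a').2
        rw [← hf3] at e1 e2
        rw [h4] at e1
        rcases e1 with e1 | e1 <;> rcases e2 with e2 | e2
        · left; rw [← e1, e2]
        · right; rw [← e1, e2]
        · right; rw [← e2, e1, neg_neg]
        · left
          have : -(a : H) = -(a' : H) := by rw [← e1, e2]
          exact neg_injective this
      have h6 : (a : H) = a' := by
        rcases h5 with h5 | h5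
        · exact h5
        · exfalso
          rw [h5, Quaternion.re_neg] at hp
          omega
      have h7 : a = a' := Subtype.ext h6
      subst h7
      have h8 := fsg_inj (hf0 a) h2
      have h9 := fsg_inj (hf0' a) h3
      rw [h8, h9]
    · rintro ⟨⟨b, c⟩, hb, hc, hz, hbc⟩
      change b ∈ QQ (pp S) at hb
      change c ∈ QQ (pp (P \ S)) at hc
      change b * c ∈ Z at hz
      change (star (act g b) = b ∧ star (act g c) = c) ∨
        (star (act g b) = -b ∧ star (act g c) = -c) at hbc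
      have hq : b * c ∈ QQ (pp P) := by
        rw [← pp_sdiff hS]
        exact mul_QQ hb hc
      have hA : nm (b * c) ∈ {a : H | a ∈ NN (pp P) ∧ a ∈ Z ∧ star (act g (so S a)) = a} := by
        refine ⟨fix_nm h4 hq, ?_, ?_⟩
        · rcases nm_or (b * c) with h | h <;> rw [h]
          · exact hz
          · exact (hZ _).2 hz
        · rcases nm_or (b * c) with h | h <;> rw [h]
          · rw [so_mul hP hS hb hc, fix_sa_mul, fix_pm hbc]
          · rw [← neg_mul, so_mul hP hS (neg_QQ hb) hc, mul_neg, fix_sa, fix_sa_mul, fix_pm hbc,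
              neg_mul]
      obtain ⟨a, ha⟩ : ∃ a : {a : H | a ∈ NN (pp P) ∧ a ∈ Z ∧ star (act g (so S a)) = a},
          (a : H) = nm (b * c) := ⟨⟨_, hA⟩, rfl⟩
      have hd1 : (f a).1 ∣ b * c := by
        rw [← dvd_nm, ← ha, hf3 a]
        exact dvd_mul_right _ _
      have hb1 : b = (f a).1 ∨ b = -(f a).1 :=
        left_unique hP hS hq hb (hf1 a) (dvd_mul_right b c) hd1
      obtain ⟨s, hs⟩ := fsg_of_or hb1
      have hc1 : c = (f a).2 ∨ c = -(f a).2 := by
        have e := hf3 a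
        rw [ha] at e
        have h0 := hf0 a
        rcases nm_or (b * c) with h | h <;> rcases hb1 with h1 | h1
        · left
          rw [h, h1] at e
          exact mul_left_cancel₀ h0 e
        · right
          rw [h, h1, neg_mul, ← mul_neg] at e
          rw [← mul_left_cancel₀ h0 e, neg_neg]
        · right
          rw [h, h1, ← mul_neg] at e
          rw [← mul_left_cancel₀ h0 e, neg_neg]
        · left
          rw [h, h1, neg_mul, neg_neg] at e
          exact mul_left_cancel₀ h0 e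
      obtain ⟨t, ht⟩ := fsg_of_or hc1
      refine ⟨(a, s, t), ?_⟩
      apply Subtype.ext
      change (fsg s (f a).1, fsg t (f a).2) = (b, c)
      rw [hs, ht]
  rw [← Nat.card_congr (Equiv.ofBijective Φ hΦ), Nat.card_prod, Nat.card_prod]
  simp only [Nat.card_eq_fintype_card, Fintype.card_bool]
  ring

private theorem fix_ext (a b : H) : a = b ↔
    (a.re = b.re ∧ a.imI = b.imI ∧ a.imJ = b.imJ ∧ a.imK = b.imK) :=
  ⟨fun h => by subst h; exact ⟨rfl, rfl, rfl, rfl⟩, fun h => by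
    obtain ⟨h1, h2, h3, h4⟩ := h
    apply Quaternion.ext <;> assumption⟩

private theorem fix_gI (x : H) : (star (act gI x)).re = x.re ∧ (star (act gI x)).imI = -x.imI ∧
    (star (act gI x)).imJ = x.imJ ∧ (star (act gI x)).imK = x.imK := by
  have h : act gI x = ⟨x.re, x.imI, -x.imJ, -x.imK⟩ := rfl
  rw [Quaternion.re_star, Quaternion.imI_star, Quaternion.imJ_star, Quaternion.imK_star, h]
  refine ⟨rfl, rfl, ?_, ?_⟩ <;> simp

private theorem fix_gM (x : H) : (star (act gM x)).re = x.re ∧ (star (act gM x)).imI = x.imI ∧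
    (star (act gM x)).imJ = x.imK ∧ (star (act gM x)).imK = x.imJ := by
  have h : act gM x = ⟨x.re, -x.imI, -x.imK, -x.imJ⟩ := rfl
  rw [Quaternion.re_star, Quaternion.imI_star, Quaternion.imJ_star, Quaternion.imK_star, h]
  refine ⟨rfl, ?_, ?_, ?_⟩ <;> simp

private theorem fix_I1 (x : H) : star (act gI x) = x ↔ x.imI = 0 := by
  obtain ⟨h1, h2, h3, h4⟩ := fix_gI x
  rw [fix_ext, h1, h2, h3, h4]
  constructor
  · rintro ⟨-, h, -, -⟩; omega
  · intro h; exact ⟨rfl, by omega, rfl, rfl⟩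

private theorem fix_I2 {m : ℕ} {x : H} (hx : x ∈ QQ m) : star (act gI x) ≠ -x := by
  obtain ⟨h1, h2, h3, h4⟩ := fix_gI x
  rw [Ne, fix_ext, h1, h2, h3, h4, Quaternion.re_neg, Quaternion.imI_neg, Quaternion.imJ_neg,
    Quaternion.imK_neg]
  rintro ⟨e1, e2, e3, e4⟩
  obtain ⟨p1, p2, p3, -⟩ := hx
  omega

private theorem fix_M1 (x : H) : star (act gM x) = x ↔ x.imJ = x.imK := by
  obtain ⟨h1, h2, h3, h4⟩ := fix_gM x
  rw [fix_ext, h1, h2, h3, h4]
  constructor
  · rintro ⟨-, -, h, -⟩; omega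
  · intro h; exact ⟨rfl, rfl, by omega, by omega⟩

private theorem fix_M2 {m : ℕ} {x : H} (hx : x ∈ QQ m) : star (act gM x) ≠ -x := by
  obtain ⟨h1, h2, h3, h4⟩ := fix_gM x
  rw [Ne, fix_ext, h1, h2, h3, h4, Quaternion.re_neg, Quaternion.imI_neg, Quaternion.imJ_neg,
    Quaternion.imK_neg]
  rintro ⟨e1, e2, e3, e4⟩
  obtain ⟨p1, p2, p3, -⟩ := hx
  omega

theorem fixI {P S : Finset ℕ} (hP : OP P) (h4 : pp P % 4 = 1) (hS : S ⊆ P) (Z : Set H)
    (hZ : ∀ x : H, -x ∈ Z ↔ x ∈ Z) :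
    4 * Nat.card {a : H | a ∈ NN (pp P) ∧ a ∈ Z ∧ star (act gI (so S a)) = a} =
      Nat.card {x : H × H | x.1 ∈ EI (pp S) ∧ x.2 ∈ EI (pp (P \ S)) ∧ x.1 * x.2 ∈ Z} := by
  rw [fixG hP h4 hS gI Z hZ]
  have e : {x : H × H | x.1 ∈ QQ (pp S) ∧ x.2 ∈ QQ (pp (P \ S)) ∧ x.1 * x.2 ∈ Z ∧
        ((star (act gI x.1) = x.1 ∧ star (act gI x.2) = x.2) ∨
          (star (act gI x.1) = -x.1 ∧ star (act gI x.2) = -x.2))} =
      {x : H × H | x.1 ∈ EI (pp S) ∧ x.2 ∈ EI (pp (P \ S)) ∧ x.1 * x.2 ∈ Z} := by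
    ext ⟨b, c⟩
    constructor
    · rintro ⟨hb, hc, hz, h | h⟩
      · exact ⟨⟨hb, (fix_I1 _).1 h.1⟩, ⟨hc, (fix_I1 _).1 h.2⟩, hz⟩
      · exact absurd h.1 (fix_I2 hb)
    · rintro ⟨⟨hb, h1⟩, ⟨hc, h2⟩, hz⟩
      exact ⟨hb, hc, hz, Or.inl ⟨(fix_I1 _).2 h1, (fix_I1 _).2 h2⟩⟩
  rw [e]

theorem fixM {P S : Finset ℕ} (hP : OP P) (h4 : pp P % 4 = 1) (hS : S ⊆ P) (Z : Set H)
    (hZ : ∀ x : H, -x ∈ Z ↔ x ∈ Z) :
    4 * Nat.card {a : H | a ∈ NN (pp P) ∧ a ∈ Z ∧ star (act gM (so S a)) = a} =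
      Nat.card {x : H × H | x.1 ∈ EM (pp S) ∧ x.2 ∈ EM (pp (P \ S)) ∧ x.1 * x.2 ∈ Z} := by
  rw [fixG hP h4 hS gM Z hZ]
  have e : {x : H × H | x.1 ∈ QQ (pp S) ∧ x.2 ∈ QQ (pp (P \ S)) ∧ x.1 * x.2 ∈ Z ∧
        ((star (act gM x.1) = x.1 ∧ star (act gM x.2) = x.2) ∨
          (star (act gM x.1) = -x.1 ∧ star (act gM x.2) = -x.2))} =
      {x : H × H | x.1 ∈ EM (pp S) ∧ x.2 ∈ EM (pp (P \ S)) ∧ x.1 * x.2 ∈ Z} := by
    ext ⟨b, c⟩
    constructor
    · rintro ⟨hb, hc, hz, h | h⟩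
      · exact ⟨⟨hb, (fix_M1 _).1 h.1⟩, ⟨hc, (fix_M1 _).1 h.2⟩, hz⟩
      · exact absurd h.1 (fix_M2 hb)
    · rintro ⟨⟨hb, h1⟩, ⟨hc, h2⟩, hz⟩
      exact ⟨hb, hc, hz, Or.inl ⟨(fix_M1 _).2 h1, (fix_M1 _).2 h2⟩⟩
  rw [e]

private theorem fix_sq {m : ℕ} {x : H} (hx : x ∈ QQ m) (h : star (act 1 x) = x) : IsSquare m := by
  rw [act_one, fix_ext, Quaternion.re_star, Quaternion.imI_star, Quaternion.imJ_star,
    Quaternion.imK_star] at h
  obtain ⟨-, h1, h2, h3⟩ := h
  have e1 : x.imI = 0 := by omega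
  have e2 : x.imJ = 0 := by omega
  have e3 : x.imK = 0 := by omega
  have h4 := hx.2.2.2
  rw [normSq_eq, e1, e2, e3] at h4
  refine ⟨x.re.natAbs, ?_⟩
  have h5 : (m : ℤ) = ((x.re.natAbs * x.re.natAbs : ℕ) : ℤ) := by
    push_cast
    rw [abs_mul_abs_self, ← h4]
    ring
  exact_mod_cast h5

private theorem fix_pure (x : H) : star (act 1 x) = -x ↔ x.re = 0 := by
  rw [act_one, fix_ext, Quaternion.re_star, Quaternion.imI_star, Quaternion.imJ_star,
    Quaternion.imK_star, Quaternion.re_neg, Quaternion.imI_neg, Quaternion.imJ_neg,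
    Quaternion.imK_neg]
  constructor
  · rintro ⟨h, -, -, -⟩; omega
  · intro h; exact ⟨by omega, rfl, rfl, rfl⟩

theorem fix1 {P S : Finset ℕ} (hP : OP P) (hne : P.Nonempty) (h4 : pp P % 4 = 1) (hS : S ⊆ P)
    (Z : Set H) (hZ : ∀ x : H, -x ∈ Z ↔ x ∈ Z) :
    4 * Nat.card {a : H | a ∈ NN (pp P) ∧ a ∈ Z ∧ star (act 1 (so S a)) = a} =
      Nat.card {x : H × H | x.1 ∈ PQ (pp S) ∧ x.2 ∈ PQ (pp (P \ S)) ∧ x.1 * x.2 ∈ Z} := by
  rw [fixG hP h4 hS 1 Z hZ]
  have e : {x : H × H | x.1 ∈ QQ (pp S) ∧ x.2 ∈ QQ (pp (P \ S)) ∧ x.1 * x.2 ∈ Z ∧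
        ((star (act 1 x.1) = x.1 ∧ star (act 1 x.2) = x.2) ∨
          (star (act 1 x.1) = -x.1 ∧ star (act 1 x.2) = -x.2))} =
      {x : H × H | x.1 ∈ PQ (pp S) ∧ x.2 ∈ PQ (pp (P \ S)) ∧ x.1 * x.2 ∈ Z} := by
    ext ⟨b, c⟩
    constructor
    · rintro ⟨hb, hc, hz, h | h⟩
      · exfalso
        rcases S.eq_empty_or_nonempty with h0 | h0
        · subst h0
          refine pp_not_sq (hP.mono Finset.sdiff_subset) ?_ (fix_sq hc h.2)
          rw [Finset.sdiff_empty]
          exact hne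
        · exact pp_not_sq (hP.mono hS) h0 (fix_sq hb h.1)
      · exact ⟨⟨hb, (fix_pure _).1 h.1⟩, ⟨hc, (fix_pure _).1 h.2⟩, hz⟩
    · rintro ⟨⟨hb, h1⟩, ⟨hc, h2⟩, hz⟩
      exact ⟨hb, hc, hz, Or.inr ⟨(fix_pure _).2 h1, (fix_pure _).2 h2⟩⟩
  rw [e]

end Pool.Agent.TQH
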