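import Pool.Agent.TQH.Defs

/-!
Project TQH, module NUM: products of odd primes. Adapt TQG/Num.lean (`pp_odd`, `pp_pos`,
`pp_coprime`, `pp_not_sq`). The other lemmas of TQG/Num.lean (`pp_empty`, `pp_single`, `pp_union`,
`pp_sdiff`) need no hypothesis on the primes. `pp_factors`: `Nat.prod_primeFactors_of_squarefree`.
`sum_div`: the divisors of a squarefree `m` are the `pp S`, `S ⊆ m.primeFactors`, with
`m / pp S = pp (m.primeFactors \ S)` (`Finset.sum_bij'` or `Finset.sum_nbij'`, `S = d.primeFactors`,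
`Nat.primeFactors_mono`, `Nat.primeFactors_prod`).
-/

namespace Pool.Agent.TQH

open Pool.Agent.TQG

theorem OP.mono {P S : Finset ℕ} (hP : OP P) (hS : S ⊆ P) : OP S := fun q hq => hP q (hS hq)

theorem pp_odd {P : Finset ℕ} (hP : OP P) : pp P % 2 = 1 := by
  induction P using Finset.induction_on with
  | empty => rw [pp_empty]
  | insert q S hq ih =>
    have h1 := ih (hP.mono (Finset.subset_insert q S))
    have h2 := (hP q (Finset.mem_insert_self q S)).2
    have h3 : pp (insert q S) = q * pp S := by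
      unfold pp
      exact Finset.prod_insert hq
    rw [h3, Nat.mul_mod, h1, h2]

theorem pp_pos {P : Finset ℕ} (hP : OP P) : 0 < pp P :=
  Finset.prod_pos fun q hq => (hP q hq).1.pos

theorem pp_coprime {S T : Finset ℕ} (hS : OP S) (hT : OP T) (h : Disjoint S T) :
    Nat.Coprime (pp S) (pp T) := by
  unfold pp
  apply Nat.Coprime.prod_left
  intro q hq
  apply Nat.Coprime.prod_right
  intro r hr
  rw [Nat.coprime_primes (hS q hq).1 (hT r hr).1]
  rintro rfl
  exact (Finset.disjoint_left.1 h hq) hr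

private theorem NUM_not_dvd {S : Finset ℕ} (hS : OP S) {q : ℕ} (hq : q.Prime) (h : q ∉ S) :
    ¬ q ∣ pp S := by
  intro hd
  unfold pp at hd
  rw [hq.prime.dvd_finset_prod_iff] at hd
  obtain ⟨r, hr, hqr⟩ := hd
  have := (Nat.prime_dvd_prime_iff_eq hq (hS r hr).1).1 hqr
  rw [this] at h
  exact h hr

theorem pp_not_sq {P : Finset ℕ} (hP : OP P) (hne : P.Nonempty) : ¬ IsSquare (pp P) := by
  rintro ⟨x, hx⟩
  obtain ⟨q, hq⟩ := hne
  have hqp := (hP q hq).1
  have h1 : pp P = q * pp (P.erase q) := by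
    unfold pp
    exact (Finset.mul_prod_erase P (fun q => q) hq).symm
  have h2 : q ∣ x := by
    have h3 : q ∣ x * x := by
      rw [← hx, h1]
      exact dvd_mul_right _ _
    rcases hqp.dvd_mul.1 h3 with h | h <;> exact h
  obtain ⟨y, rfl⟩ := h2
  have h3 : pp (P.erase q) = q * (y * y) := by
    have h4 : q * pp (P.erase q) = q * (q * (y * y)) := by
      rw [← h1, hx]
      ring
    exact Nat.eq_of_mul_eq_mul_left hqp.pos h4
  exact NUM_not_dvd (hP.mono (Finset.erase_subset q P)) hqp (Finset.notMem_erase q P)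
    (by rw [h3]; exact dvd_mul_right _ _)

theorem OP_factors {m : ℕ} (h : m % 2 = 1) : OP m.primeFactors := by
  intro q hq
  have h1 := Nat.prime_of_mem_primeFactors hq
  have h2 := Nat.dvd_of_mem_primeFactors hq
  refine ⟨h1, ?_⟩
  rcases Nat.mod_two_eq_zero_or_one q with h3 | h3
  · exfalso
    have h4 : 2 ∣ m := (Nat.dvd_of_mod_eq_zero h3).trans h2
    omega
  · exact h3

theorem pp_factors {m : ℕ} (hm : Squarefree m) : pp m.primeFactors = m := by
  unfold pp
  exact Nat.prod_primeFactors_of_squarefree hm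

theorem sum_div {m : ℕ} (hm : Squarefree m) (f : ℕ → ℕ → ℤ) :
    ∑ d ∈ m.divisors, f d (m / d) =
      ∑ S ∈ m.primeFactors.powerset, f (pp S) (pp (m.primeFactors \ S)) := by
  have hm0 : m ≠ 0 := hm.ne_zero
  refine Finset.sum_bij' (fun d _ => d.primeFactors) (fun S _ => pp S) ?_ ?_ ?_ ?_ ?_
  · intro d hd
    rw [Finset.mem_powerset]
    exact Nat.primeFactors_mono (Nat.dvd_of_mem_divisors hd) hm0
  · intro S hS
    rw [Finset.mem_powerset] at hS
    rw [Nat.mem_divisors]
    refine ⟨?_, hm0⟩
    have h1 := pp_sdiff hS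
    rw [pp_factors hm] at h1
    rw [← h1]
    exact dvd_mul_right _ _
  · intro d hd
    exact pp_factors (hm.squarefree_of_dvd (Nat.dvd_of_mem_divisors hd))
  · intro S hS
    rw [Finset.mem_powerset] at hS
    unfold pp
    exact Nat.primeFactors_prod fun q hq => Nat.prime_of_mem_primeFactors (hS hq)
  · intro d hd
    have hdm := Nat.dvd_of_mem_divisors hd
    have h1 := pp_factors (hm.squarefree_of_dvd hdm)
    have h2 := pp_sdiff (Nat.primeFactors_mono hdm hm0)
    rw [h1, pp_factors hm] at h2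
    have h3 : m / d = pp (m.primeFactors \ d.primeFactors) := by
      apply Nat.div_eq_of_eq_mul_right (Nat.pos_of_mem_divisors hd)
      exact h2.symm
    rw [h1, h3]

end Pool.Agent.TQH
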