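import Pool.Agent.TQH.Fac

/-!
Project TQH, module SWP: the swaps `so S`. Model: TQG/Swp.lean (here without normalisation).

`so_mul`: the chosen pair `(x, y)` with `x ∈ QQ (pp S)`, `x * y = b * c` has `x = ± b`
(`left_unique`), so `y = ± c` (cancel in the domain `H`) and `y * x = c * b`.
`so_so`: `a = b * c` (`left_exists` for `S`), `c = b' * d` (`left_exists` for `T ⊆ P \ S`):
`so S a = c * b = b' * (d * b)`, `so T` of it is `(d * b) * b'`; and `a = (b * b') * d`, so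
`so (S ∪ T) a = d * (b * b')`. `so_star`: `star a = star c * star b`.
-/

namespace Pool.Agent.TQH

open Pool.Agent.TQS Pool.Agent.TQG

/-- the swap is the product in the other order for some factorisation -/
private theorem swp_spec {P S : Finset ℕ} (hP : OP P) (hS : S ⊆ P) {b c : H} (hb : b ∈ QQ (pp S))
    (hc : c ∈ QQ (pp (P \ S))) : so S (b * c) = c * b := by
  classical
  have h : ∃ x : H × H, x.1 ∈ QQ (pp S) ∧ b * c = x.1 * x.2 := ⟨(b, c), hb, rfl⟩
  have e : so S (b * c) = h.choose.2 * h.choose.1 := by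
    unfold so
    rw [dif_pos h]
  have h1 := h.choose_spec.1
  have h2 := h.choose_spec.2
  rw [e]
  generalize h.choose = x at h1 h2
  have hbc : b * c ∈ QQ (pp P) := by
    rw [← pp_sdiff hS]
    exact mul_QQ hb hc
  have hb0 : b ≠ 0 := ne_zero_QQ (pp_pos (hP.mono hS)) hb
  rcases left_unique hP hS hbc hb h1 (Dvd.intro c rfl) (Dvd.intro x.2 h2.symm) with e1 | e1
  · rw [← e1] at h2 ⊢
    rw [mul_left_cancel₀ hb0 h2]
  · have e2 : x.1 = -b := by rw [e1, neg_neg]
    rw [e2] at h2 ⊢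
    have h3 : b * c = b * (-x.2) := by
      rw [h2, neg_mul, mul_neg]
    have h4 : c = -x.2 := mul_left_cancel₀ hb0 h3
    rw [h4, mul_neg, neg_mul]

theorem so_mul {P S : Finset ℕ} (hP : OP P) (hS : S ⊆ P) {b c : H} (hb : b ∈ QQ (pp S))
    (hc : c ∈ QQ (pp (P \ S))) : so S (b * c) = c * b :=
  swp_spec hP hS hb hc

theorem so_QQ {P S : Finset ℕ} (hP : OP P) (hS : S ⊆ P) {a : H} (ha : a ∈ QQ (pp P)) :
    so S a ∈ QQ (pp P) := by
  obtain ⟨b, hb, c, hc, rfl⟩ := left_exists hP hS ha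
  rw [so_mul hP hS hb hc, ← pp_sdiff hS, mul_comm (pp S)]
  exact mul_QQ hc hb

theorem so_re {P S : Finset ℕ} (hP : OP P) (hS : S ⊆ P) {a : H} (ha : a ∈ QQ (pp P)) :
    (so S a).re = a.re := by
  obtain ⟨b, hb, c, hc, rfl⟩ := left_exists hP hS ha
  rw [so_mul hP hS hb hc, Quaternion.re_mul, Quaternion.re_mul]
  ring

theorem so_NN {P S : Finset ℕ} (hP : OP P) (hS : S ⊆ P) {a : H} (ha : a ∈ NN (pp P)) :
    so S a ∈ NN (pp P) :=
  ⟨so_QQ hP hS ha.1, by rw [so_re hP hS ha.1]; exact ha.2⟩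

theorem so_empty {P : Finset ℕ} (hP : OP P) {a : H} (ha : a ∈ QQ (pp P)) : so ∅ a = a := by
  have h1 : (1 : H) ∈ QQ (pp ∅) := by rw [pp_empty]; exact one_QQ
  have h2 : a ∈ QQ (pp (P \ ∅)) := by rwa [Finset.sdiff_empty]
  have h3 := so_mul hP (Finset.empty_subset P) h1 h2
  rwa [one_mul, mul_one] at h3

theorem so_self {P : Finset ℕ} (hP : OP P) {a : H} (ha : a ∈ QQ (pp P)) : so P a = a := by
  have h1 : (1 : H) ∈ QQ (pp (P \ P)) := by rw [Finset.sdiff_self, pp_empty]; exact one_QQ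
  have h3 := so_mul hP (Finset.Subset.refl P) ha h1
  rwa [one_mul, mul_one] at h3

theorem so_so {P S T : Finset ℕ} (hP : OP P) (hS : S ⊆ P) (hT : T ⊆ P) (hST : Disjoint S T)
    {a : H} (ha : a ∈ QQ (pp P)) : so T (so S a) = so (S ∪ T) a := by
  have hTP : T ⊆ P \ S := fun x hx =>
    Finset.mem_sdiff.2 ⟨hT hx, fun hxS => (Finset.disjoint_left.1 hST) hxS hx⟩
  have hPS : OP (P \ S) := hP.mono Finset.sdiff_subset
  obtain ⟨b, hb, c, hc, rfl⟩ := left_exists hP hS ha
  obtain ⟨b', hb', d, hd, rfl⟩ := left_exists hPS hTP hc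
  have hST' : Disjoint (P \ (S ∪ T)) S := by
    rw [Finset.disjoint_left]
    intro x hx hxS
    exact (Finset.mem_sdiff.1 hx).2 (Finset.mem_union_left _ hxS)
  have hun : P \ (S ∪ T) ∪ S = P \ T := by
    ext x
    simp only [Finset.mem_union, Finset.mem_sdiff]
    constructor
    · rintro (⟨h1, h2⟩ | h1)
      · exact ⟨h1, fun h => h2 (Or.inr h)⟩
      · exact ⟨hS h1, fun h => (Finset.disjoint_left.1 hST) h1 h⟩
    · rintro ⟨h1, h2⟩
      by_cases h3 : x ∈ S
      · exact Or.inr h3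
      · exact Or.inl ⟨h1, fun h => h.elim h3 h2⟩
  have hset : (P \ S) \ T = P \ (S ∪ T) := by
    ext x
    simp only [Finset.mem_union, Finset.mem_sdiff]
    tauto
  rw [hset] at hd
  have hdb : d * b ∈ QQ (pp (P \ T)) := by
    rw [← hun, pp_union hST']
    exact mul_QQ hd hb
  have hbb : b * b' ∈ QQ (pp (S ∪ T)) := by
    rw [pp_union hST]
    exact mul_QQ hb hb'
  rw [so_mul hP hS hb hc, mul_assoc b' d b, so_mul hP hT hb' hdb, ← mul_assoc b b' d,
    so_mul hP (Finset.union_subset hS hT) hbb hd, mul_assoc]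

theorem so_act {P S : Finset ℕ} (hP : OP P) (hS : S ⊆ P) (g : G) {a : H} (ha : a ∈ QQ (pp P)) :
    so S (act g a) = act g (so S a) := by
  obtain ⟨b, hb, c, hc, rfl⟩ := left_exists hP hS ha
  rw [act_hmul, so_mul hP hS (act_QQ g hb) (act_QQ g hc), so_mul hP hS hb hc, act_hmul]

theorem so_star {P S : Finset ℕ} (hP : OP P) (hS : S ⊆ P) {a : H} (ha : a ∈ QQ (pp P)) :
    so (P \ S) (star a) = star (so S a) := by
  obtain ⟨b, hb, c, hc, rfl⟩ := left_exists hP hS ha
  have hset : P \ (P \ S) = S := Finset.sdiff_sdiff_eq_self hS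
  have hb' : star b ∈ QQ (pp (P \ (P \ S))) := by
    rw [hset]
    exact star_QQ hb
  rw [star_mul, so_mul hP Finset.sdiff_subset (star_QQ hc) hb', so_mul hP hS hb hc, star_mul]

end Pool.Agent.TQH
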